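import Mathlib
set_option autoImplicit false
set_option linter.all false

/-!
# Involutory homologies of projective planes and their quotients (project UQL, MP_7e1f1a_co)

Projective planes are Mathlib's `Configuration.ProjectivePlane P L`; the Desarguesian plane
over a field `K` is Mathlib's `Configuration.ofField` structure on `ℙ K (Fin 3 → K)`.
-/

namespace UQL

open Configuration

universe u v u' v' w

/-- A collineation of the incidence structure `(P, L)`: a permutation of the points and a
permutation of the lines which together preserve incidence. -/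
structure Coll (P : Type u) (L : Type v) [Membership P L] where
  /-- action on points -/
  pt : Equiv.Perm P
  /-- action on lines -/
  ln : Equiv.Perm L
  mem_iff : ∀ p l, pt p ∈ ln l ↔ p ∈ l

/-- An isomorphism between the incidence structures `(P, L)` and `(P', L')`. -/
structure PlaneIso (P : Type u) (L : Type v) (P' : Type u') (L' : Type v')
    [Membership P L] [Membership P' L'] where
  /-- action on points -/
  pt : P ≃ P'
  /-- action on lines -/
  ln : L ≃ L'
  mem_iff : ∀ p l, pt p ∈ ln l ↔ p ∈ l

section
variable {P : Type u} {L : Type v} [Membership P L]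

/-- `τ` is an involutory homology: a collineation of order two (its square is the identity and
it moves some point) which fixes every point of some line `a` (the axis) and also fixes a
point `c` off that line (the centre). -/
def Coll.IsInvHom (τ : Coll P L) : Prop :=
  (∀ p, τ.pt (τ.pt p) = p) ∧ (∃ p, τ.pt p ≠ p) ∧
    ∃ (a : L) (c : P), (∀ p, p ∈ a → τ.pt p = p) ∧ c ∉ a ∧ τ.pt c = c

/-- The points of the quotient `Π/τ`: the `⟨τ⟩`-orbits `{p, τ p}` of size two on points. -/
def QPt (τ : Coll P L) : Type u := {s : Set P // ∃ p, τ.pt p ≠ p ∧ s = {p, τ.pt p}}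

/-- The blocks of the quotient `Π/τ`: the `⟨τ⟩`-orbits `{l, τ l}` of size two on lines. -/
def QBl (τ : Coll P L) : Type v := {b : Set L // ∃ l, τ.ln l ≠ l ∧ b = {l, τ.ln l}}

/-- Incidence in the quotient: some point of the point orbit lies on some line of the line
orbit (equivalently `p` lies on `l` or on `τ l`). -/
def QInc (τ : Coll P L) (s : QPt τ) (b : QBl τ) : Prop := ∃ p ∈ s.1, ∃ l ∈ b.1, p ∈ l

end

/-- An isomorphism between the quotients `Π/τ` and `Π'/τ'`: a bijection between the points and
a bijection between the blocks which preserve incidence in both directions. -/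
structure QIso {P : Type u} {L : Type v} {P' : Type u'} {L' : Type v'}
    [Membership P L] [Membership P' L'] (τ : Coll P L) (τ' : Coll P' L') where
  /-- bijection of the point orbits -/
  pt : QPt τ ≃ QPt τ'
  /-- bijection of the line orbits -/
  bl : QBl τ ≃ QBl τ'
  inc : ∀ s b, QInc τ s b ↔ QInc τ' (pt s) (bl b)

/-- The standard bilinear form on `K × K`. -/
def dt {K : Type w} [Field K] (a v : K × K) : K := a.1 * v.1 + a.2 * v.2

/-- Coordinates for a plane with an involutory homology `τ`: the moved points are the `φ v`
and the moved lines are the `ψ a` with `v, a` nonzero vectors of `K × K`; the point `φ v` is on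
the line `ψ a` iff `dt a v = 1`, and `τ` is multiplication by `-1`.  (The values of `φ` and `ψ`
at the zero vector mean nothing.) -/
structure Model (K : Type w) [Field K] {P : Type u} {L : Type v} [Membership P L]
    (τ : Coll P L) where
  φ : K × K → P
  ψ : K × K → L
  φ_neg : ∀ v, v ≠ 0 → τ.pt (φ v) = φ (-v)
  ψ_neg : ∀ a, a ≠ 0 → τ.ln (ψ a) = ψ (-a)
  φ_inj : ∀ v v', v ≠ 0 → v' ≠ 0 → φ v = φ v' → v = v'
  ψ_inj : ∀ a a', a ≠ 0 → a' ≠ 0 → ψ a = ψ a' → a = a'
  φ_surj : ∀ p, τ.pt p ≠ p → ∃ v, v ≠ 0 ∧ φ v = p
  ψ_surj : ∀ l, τ.ln l ≠ l → ∃ a, a ≠ 0 ∧ ψ a = l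
  inc : ∀ v a, v ≠ 0 → a ≠ 0 → (φ v ∈ ψ a ↔ dt a v = 1)

end UQL
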