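import Pool.Agent.UQL.T
set_option autoImplicit false
set_option linter.all false

/-!
# Target T_ACT: an involutory homology of PG(2,K) is `-1` in suitable coordinates
-/

namespace UQL

open Configuration
open scoped LinearAlgebra.Projectivization

universe w

namespace ACT_

variable {K : Type w} [Field K]

/-- dual bases -/
structure DB (A C u₁ u₂ k₁ k₂ : Fin 3 → K) : Prop where
  AC : A ⬝ᵥ C = 1
  Au : A ⬝ᵥ u₁ = 0
  Av : A ⬝ᵥ u₂ = 0
  kC : k₁ ⬝ᵥ C = 0
  lC : k₂ ⬝ᵥ C = 0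
  ku : k₁ ⬝ᵥ u₁ = 1
  kv : k₁ ⬝ᵥ u₂ = 0
  lu : k₂ ⬝ᵥ u₁ = 0
  lv : k₂ ⬝ᵥ u₂ = 1
  ex : ∀ x, x = (A ⬝ᵥ x) • C + (k₁ ⬝ᵥ x) • u₁ + (k₂ ⬝ᵥ x) • u₂

variable {A C u₁ u₂ k₁ k₂ : Fin 3 → K}

theorem dA (D : DB A C u₁ u₂ k₁ k₂) (a b c : K) : A ⬝ᵥ (a • C + b • u₁ + c • u₂) = a := by
  simp [dotProduct_add, dotProduct_smul, D.AC, D.Au, D.Av]

theorem dk (D : DB A C u₁ u₂ k₁ k₂) (a b c : K) : k₁ ⬝ᵥ (a • C + b • u₁ + c • u₂) = b := by
  simp [dotProduct_add, dotProduct_smul, D.kC, D.ku, D.kv]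

theorem dl (D : DB A C u₁ u₂ k₁ k₂) (a b c : K) : k₂ ⬝ᵥ (a • C + b • u₁ + c • u₂) = c := by
  simp [dotProduct_add, dotProduct_smul, D.lC, D.lu, D.lv]

theorem nz (D : DB A C u₁ u₂ k₁ k₂) {a b c : K} :
    a • C + b • u₁ + c • u₂ ≠ 0 ↔ ¬ (a = 0 ∧ b = 0 ∧ c = 0) := by
  constructor
  · rintro h ⟨h1, h2, h3⟩
    apply h
    simp [h1, h2, h3]
  · rintro h h0
    apply h
    have e1 := dA D a b c
    have e2 := dk D a b c
    have e3 := dl D a b c
    rw [h0, dotProduct_zero] at e1 e2 e3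
    exact ⟨e1.symm, e2.symm, e3.symm⟩

theorem line_coords (D : DB A C u₁ u₂ k₁ k₂) (l : ℙ K (Fin 3 → K)) :
    ∃ α β γ : K, ¬ (α = 0 ∧ β = 0 ∧ γ = 0) ∧
      ∀ (a b c : K) (h : a • C + b • u₁ + c • u₂ ≠ 0),
        Projectivization.mk K (a • C + b • u₁ + c • u₂) h ∈ l ↔
          a * α + b * β + c * γ = 0 := by
  induction l using Projectivization.ind with
  | h l hl =>
    refine ⟨C ⬝ᵥ l, u₁ ⬝ᵥ l, u₂ ⬝ᵥ l, ?_, ?_⟩
    · rintro ⟨h1, h2, h3⟩
      apply hl
      refine dotProduct_eq_zero l ?_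
      intro x
      have h4 : x ⬝ᵥ l = ((A ⬝ᵥ x) • C + (k₁ ⬝ᵥ x) • u₁ + (k₂ ⬝ᵥ x) • u₂) ⬝ᵥ l := by
        rw [← D.ex x]
      rw [dotProduct_comm, h4]
      simp [add_dotProduct, smul_dotProduct, h1, h2, h3]
    · intro a b c h
      have h5 : (a • C + b • u₁ + c • u₂) ⬝ᵥ l =
          a * (C ⬝ᵥ l) + b * (u₁ ⬝ᵥ l) + c * (u₂ ⬝ᵥ l) := by
        simp [add_dotProduct, smul_dotProduct]
      rw [← h5]
      exact Iff.rfl

theorem exists_line (D : DB A C u₁ u₂ k₁ k₂) (α β γ : K) (h0 : ¬ (α = 0 ∧ β = 0 ∧ γ = 0)) :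
    ∃ l : ℙ K (Fin 3 → K), ∀ (a b c : K) (h : a • C + b • u₁ + c • u₂ ≠ 0),
        Projectivization.mk K (a • C + b • u₁ + c • u₂) h ∈ l ↔
          a * α + b * β + c * γ = 0 := by
  have h5 : ∀ a b c : K, (a • C + b • u₁ + c • u₂) ⬝ᵥ (α • A + β • k₁ + γ • k₂) =
      a * α + b * β + c * γ := by
    intro a b c
    rw [dotProduct_add, dotProduct_add, dotProduct_smul, dotProduct_smul, dotProduct_smul,
      dotProduct_comm _ A, dotProduct_comm _ k₁, dotProduct_comm _ k₂, dA D, dk D, dl D]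
    simp only [smul_eq_mul]
    ring
  have hn : α • A + β • k₁ + γ • k₂ ≠ 0 := by
    intro h6
    apply h0
    have e1 := h5 1 0 0
    have e2 := h5 0 1 0
    have e3 := h5 0 0 1
    rw [h6, dotProduct_zero] at e1 e2 e3
    refine ⟨?_, ?_, ?_⟩
    · simpa using e1.symm
    · simpa using e2.symm
    · simpa using e3.symm
  refine ⟨Projectivization.mk K _ hn, ?_⟩
  intro a b c h
  rw [← h5]
  exact Iff.rfl

theorem mk_eq (D : DB A C u₁ u₂ k₁ k₂) {a b c a' b' c' : K}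
    (h : a • C + b • u₁ + c • u₂ ≠ 0) (h' : a' • C + b' • u₁ + c' • u₂ ≠ 0) :
    Projectivization.mk K (a • C + b • u₁ + c • u₂) h =
      Projectivization.mk K (a' • C + b' • u₁ + c' • u₂) h' ↔
      ∃ t : K, t * a' = a ∧ t * b' = b ∧ t * c' = c := by
  rw [Projectivization.mk_eq_mk_iff']
  constructor
  · rintro ⟨t, ht⟩
    refine ⟨t, ?_, ?_, ?_⟩
    · have := congrArg (fun x => A ⬝ᵥ x) ht
      simp only [dotProduct_smul, dA D] at this
      exact this
    · have := congrArg (fun x => k₁ ⬝ᵥ x) ht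
      simp only [dotProduct_smul, dk D] at this
      exact this
    · have := congrArg (fun x => k₂ ⬝ᵥ x) ht
      simp only [dotProduct_smul, dl D] at this
      exact this
  · rintro ⟨t, h1, h2, h3⟩
    refine ⟨t, ?_⟩
    rw [← h1, ← h2, ← h3, smul_add, smul_add, smul_smul, smul_smul, smul_smul]

theorem coords (D : DB A C u₁ u₂ k₁ k₂) (p : ℙ K (Fin 3 → K)) :
    ∃ (a b c : K) (h : a • C + b • u₁ + c • u₂ ≠ 0),
      p = Projectivization.mk K (a • C + b • u₁ + c • u₂) h := by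
  induction p using Projectivization.ind with
  | h x hx =>
    have h : (A ⬝ᵥ x) • C + (k₁ ⬝ᵥ x) • u₁ + (k₂ ⬝ᵥ x) • u₂ ≠ 0 := by
      rw [← D.ex x]
      exact hx
    refine ⟨_, _, _, h, ?_⟩
    rw [Projectivization.mk_eq_mk_iff']
    exact ⟨1, by rw [one_smul, ← D.ex x]⟩

theorem nzV (D : DB A C u₁ u₂ k₁ k₂) (v : K × K) :
    (1 : K) • C + v.1 • u₁ + v.2 • u₂ ≠ 0 := by
  rw [nz D]
  rintro ⟨h, -⟩
  exact one_ne_zero h

/-- the point `[C + v]` -/
noncomputable def pV (D : DB A C u₁ u₂ k₁ k₂) (v : K × K) : ℙ K (Fin 3 → K) :=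
  Projectivization.mk K ((1 : K) • C + v.1 • u₁ + v.2 • u₂) (nzV D v)

theorem pV_inj (D : DB A C u₁ u₂ k₁ k₂) {v v' : K × K} (h : pV D v = pV D v') : v = v' := by
  unfold pV at h
  rw [mk_eq D] at h
  obtain ⟨t, h1, h2, h3⟩ := h
  rw [mul_one] at h1
  subst h1
  rw [one_mul] at h2 h3
  exact Prod.ext h2.symm h3.symm

section main

variable (D : DB A C u₁ u₂ k₁ k₂) (τ : Coll (ℙ K (Fin 3 → K)) (ℙ K (Fin 3 → K)))
  (h2 : ∀ p, τ.pt (τ.pt p) = p)
  (hF : ∀ (b c : K) (h : (0 : K) • C + b • u₁ + c • u₂ ≠ 0),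
    τ.pt (Projectivization.mk K ((0 : K) • C + b • u₁ + c • u₂) h) =
      Projectivization.mk K ((0 : K) • C + b • u₁ + c • u₂) h)
  (hC : τ.pt (pV D (0, 0)) = pV D (0, 0))

include h2 hF hC

theorem step1 (v : K × K) (hv : v ≠ 0) :
    ∃ s : K, τ.pt (pV D v) = pV D (s * v.1, s * v.2) := by
  obtain ⟨a, b, c, h, hy⟩ := coords D (τ.pt (pV D v))
  have hv' : ¬ (v.1 = 0 ∧ v.2 = 0) := fun h => hv (Prod.ext h.1 h.2)
  have hl0 : ¬ ((0 : K) = 0 ∧ v.2 = 0 ∧ -v.1 = 0) := by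
    rintro ⟨-, h5, h6⟩
    exact hv' ⟨neg_eq_zero.1 h6, h5⟩
  obtain ⟨l, hl⟩ := exists_line D 0 v.2 (-v.1) hl0
  obtain ⟨α, β, γ, hn, hl'⟩ := line_coords D (τ.ln l)
  have m1 : pV D (0, 0) ∈ l := (hl 1 0 0 _).2 (by ring)
  have hw : (0 : K) • C + v.1 • u₁ + v.2 • u₂ ≠ 0 := by
    rw [nz D]
    rintro ⟨-, h5, h6⟩
    exact hv' ⟨h5, h6⟩
  have m2 : Projectivization.mk K ((0 : K) • C + v.1 • u₁ + v.2 • u₂) hw ∈ l :=
    (hl 0 v.1 v.2 _).2 (by ring)
  have m3 : pV D v ∈ l := (hl 1 v.1 v.2 _).2 (by ring)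
  rw [← τ.mem_iff] at m1 m2 m3
  rw [hC] at m1
  rw [hF] at m2
  rw [hy] at m3
  have e1 := (hl' 1 0 0 _).1 m1
  have e2 := (hl' _ _ _ _).1 m2
  have e3 := (hl' _ _ _ _).1 m3
  have hα : α = 0 := by linear_combination e1
  subst hα
  have e4 : v.1 * β + v.2 * γ = 0 := by linear_combination e2
  have e5 : b * β + c * γ = 0 := by linear_combination e3
  have hdet : b * v.2 = c * v.1 := by
    by_cases hβ : β = 0
    · have hγ : γ ≠ 0 := fun h => hn ⟨rfl, hβ, h⟩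
      rw [hβ] at e4 e5
      have q1 : v.2 = 0 := by
        have : v.2 * γ = 0 := by linear_combination e4
        exact (mul_eq_zero.1 this).resolve_right hγ
      have q2 : c = 0 := by
        have : c * γ = 0 := by linear_combination e5
        exact (mul_eq_zero.1 this).resolve_right hγ
      rw [q1, q2]
      ring
    · have : β * (b * v.2 - c * v.1) = 0 := by linear_combination v.2 * e5 - c * e4
      have := (mul_eq_zero.1 this).resolve_left hβ
      linear_combination this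
  have ha : a ≠ 0 := by
    rintro rfl
    have q := h2 (pV D v)
    rw [hy, hF] at q
    unfold pV at q
    rw [mk_eq D] at q
    obtain ⟨t, q1, -, -⟩ := q
    rw [mul_one] at q1
    subst q1
    apply (nz D).1 h
    have q := h2 (pV D v)
    rw [hy, hF] at q
    unfold pV at q
    rw [mk_eq D] at q
    obtain ⟨t, q1, q2, q3⟩ := q
    rw [mul_one] at q1
    subst q1
    rw [zero_mul] at q2 q3
    exact ⟨rfl, q2.symm, q3.symm⟩
  by_cases h1 : v.1 = 0
  · have h3 : v.2 ≠ 0 := fun h => hv' ⟨h1, h⟩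
    have hb : b = 0 := by
      rw [h1, mul_zero] at hdet
      exact (mul_eq_zero.1 hdet).resolve_right h3
    refine ⟨c / (a * v.2), ?_⟩
    rw [hy]
    unfold pV
    rw [mk_eq D]
    refine ⟨a, by ring, ?_, ?_⟩
    · simp [h1, hb]
    · simp only
      field_simp
  · refine ⟨b / (a * v.1), ?_⟩
    rw [hy]
    unfold pV
    rw [mk_eq D]
    refine ⟨a, by ring, ?_, ?_⟩
    · simp only
      field_simp
    · simp only
      field_simp
      linear_combination hdet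

theorem step3 (s s' : K) (v v' : K × K) (hs : τ.pt (pV D v) = pV D (s * v.1, s * v.2))
    (hs' : τ.pt (pV D v') = pV D (s' * v'.1, s' * v'.2)) (hd : v.1 * v'.2 - v.2 * v'.1 ≠ 0) :
    s = s' := by
  have hl0 : ¬ (v.1 * v'.2 - v.2 * v'.1 = 0 ∧ v.2 - v'.2 = 0 ∧ v'.1 - v.1 = 0) := by
    rintro ⟨h5, -⟩
    exact hd h5
  obtain ⟨l, hl⟩ := exists_line D _ _ _ hl0
  obtain ⟨α, β, γ, hn, hl'⟩ := line_coords D (τ.ln l)
  have m1 : pV D v ∈ l := (hl 1 v.1 v.2 _).2 (by ring)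
  have m2 : pV D v' ∈ l := (hl 1 v'.1 v'.2 _).2 (by ring)
  have hw : (0 : K) • C + (v.1 - v'.1) • u₁ + (v.2 - v'.2) • u₂ ≠ 0 := by
    rw [nz D]
    rintro ⟨-, h5, h6⟩
    apply hd
    have q1 : v.1 = v'.1 := sub_eq_zero.1 h5
    have q2 : v.2 = v'.2 := sub_eq_zero.1 h6
    rw [q1, q2]
    ring
  have m3 : Projectivization.mk K ((0 : K) • C + (v.1 - v'.1) • u₁ + (v.2 - v'.2) • u₂) hw ∈ l :=
    (hl 0 _ _ _).2 (by ring)
  rw [← τ.mem_iff] at m1 m2 m3
  rw [hs] at m1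
  rw [hs'] at m2
  rw [hF] at m3
  have e1 := (hl' 1 _ _ _).1 m1
  have e2 := (hl' 1 _ _ _).1 m2
  have e3 := (hl' _ _ _ _).1 m3
  simp only at e1 e2 e3
  have e4 : (s - s') * (v.1 * β + v.2 * γ) = 0 := by
    linear_combination e1 - e2 - s' * e3
  rcases mul_eq_zero.1 e4 with h | h
  · exact sub_eq_zero.1 h
  · exfalso
    have h' : v'.1 * β + v'.2 * γ = 0 := by linear_combination h - e3
    have hα : α = 0 := by linear_combination e1 - s * h
    have hβ : (v.1 * v'.2 - v.2 * v'.1) * β = 0 := by linear_combination v'.2 * h - v.2 * h'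
    have hγ : (v.1 * v'.2 - v.2 * v'.1) * γ = 0 := by linear_combination v.1 * h' - v'.1 * h
    exact hn ⟨hα, (mul_eq_zero.1 hβ).resolve_left hd, (mul_eq_zero.1 hγ).resolve_left hd⟩

theorem step5 (hm : ∃ p, τ.pt p ≠ p) (v : K × K) :
    τ.pt (pV D v) = pV D (-v.1, -v.2) := by
  have S1 := step1 D τ h2 hF hC
  choose lam hlam using S1
  have hne : ∀ v : K × K, v ≠ 0 ↔ ¬ (v.1 = 0 ∧ v.2 = 0) := by
    intro v
    rw [Ne, Prod.ext_iff]
    rfl
  -- constancy
  have key : ∀ (v v' : K × K) (hv : v ≠ 0) (hv' : v' ≠ 0), lam v hv = lam v' hv' := by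
    intro v v' hv hv'
    by_cases hd : v.1 * v'.2 - v.2 * v'.1 = 0
    · by_cases h1 : v.1 = 0
      · have h3 : v.2 ≠ 0 := fun h => (hne v).1 hv ⟨h1, h⟩
        have h4 : v'.1 = 0 := by
          rw [h1, zero_mul, zero_sub, neg_eq_zero] at hd
          exact (mul_eq_zero.1 hd).resolve_left h3
        have h5 : v'.2 ≠ 0 := fun h => (hne v').1 hv' ⟨h4, h⟩
        have he : ((1 : K), (0 : K)) ≠ 0 := by
          rw [hne]
          rintro ⟨h, -⟩
          exact one_ne_zero h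
        have a1 := step3 D τ h2 hF hC _ _ v (1, 0) (hlam v hv) (hlam _ he) (by simpa using h3)
        have a2 := step3 D τ h2 hF hC _ _ v' (1, 0) (hlam v' hv') (hlam _ he) (by simpa using h5)
        rw [a1, a2]
      · have h4 : v'.1 ≠ 0 := by
          intro h4
          rw [h4, mul_zero, sub_zero] at hd
          exact (hne v').1 hv' ⟨h4, (mul_eq_zero.1 hd).resolve_left h1⟩
        have he : ((0 : K), (1 : K)) ≠ 0 := by
          rw [hne]
          rintro ⟨-, h⟩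
          exact one_ne_zero h
        have a1 := step3 D τ h2 hF hC _ _ v (0, 1) (hlam v hv) (hlam _ he) (by simpa using h1)
        have a2 := step3 D τ h2 hF hC _ _ v' (0, 1) (hlam v' hv') (hlam _ he) (by simpa using h4)
        rw [a1, a2]
    · exact step3 D τ h2 hF hC _ _ v v' (hlam v hv) (hlam v' hv') hd
  have he : ((1 : K), (0 : K)) ≠ 0 := by
    rw [hne]
    rintro ⟨h, -⟩
    exact one_ne_zero h
  obtain ⟨s, hs⟩ : ∃ s, s = lam _ he := ⟨_, rfl⟩
  have hall : ∀ v : K × K, τ.pt (pV D v) = pV D (s * v.1, s * v.2) := by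
    intro v
    by_cases hv : v = 0
    · subst hv
      have : (s * (0 : K × K).1, s * (0 : K × K).2) = ((0 : K), (0 : K)) := by simp
      rw [this]
      exact hC
    · rw [hs, ← key v _ hv he]
      exact hlam v hv
  -- s * s = 1
  have hss : s * s = 1 := by
    have q := h2 (pV D (1, 0))
    rw [hall, hall] at q
    have q1 := congrArg Prod.fst (pV_inj D q)
    simp only [mul_one] at q1
    exact q1
  have hs1 : s ≠ 1 := by
    rintro h1
    obtain ⟨p, hp⟩ := hm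
    apply hp
    obtain ⟨a, b, c, h, rfl⟩ := coords D p
    by_cases ha : a = 0
    · subst ha
      exact hF b c h
    · have q : Projectivization.mk K (a • C + b • u₁ + c • u₂) h = pV D (b / a, c / a) := by
        unfold pV
        rw [mk_eq D]
        refine ⟨a, by ring, ?_, ?_⟩
        · simp only
          field_simp
        · simp only
          field_simp
      rw [q, hall, h1, one_mul, one_mul]
  have hsm : s = -1 := by
    have : (s - 1) * (s + 1) = 0 := by linear_combination hss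
    rcases mul_eq_zero.1 this with h | h
    · exact absurd (sub_eq_zero.1 h) hs1
    · exact eq_neg_of_add_eq_zero_left h
  rw [hall, hsm, neg_one_mul, neg_one_mul]

end main

end ACT_

open ACT_ in
theorem p_ACT : T_ACT.{w} := by
  intro K _ A C u₁ u₂ k₁ k₂ _ h1 h2 h3 h4 h5 h6 h7 h8 h9 h10 τ hτ hm hF hC x₁ x₂ h h'
  have D : DB A C u₁ u₂ k₁ k₂ := ⟨h1, h2, h3, h4, h5, h6, h7, h8, h9, h10⟩
  have hF' : ∀ (b c : K) (h : (0 : K) • C + b • u₁ + c • u₂ ≠ 0),
      τ.pt (Projectivization.mk K ((0 : K) • C + b • u₁ + c • u₂) h) =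
        Projectivization.mk K ((0 : K) • C + b • u₁ + c • u₂) h :=
    fun b c h => hF _ h (dA D 0 b c)
  have hCne : C ≠ 0 := by
    rintro rfl
    rw [dotProduct_zero] at h1
    exact zero_ne_one h1
  have hC0 : pV D (0, 0) = Projectivization.mk K C hCne := by
    unfold pV
    rw [Projectivization.mk_eq_mk_iff']
    exact ⟨1, by simp⟩
  have hC' : τ.pt (pV D (0, 0)) = pV D (0, 0) := by
    rw [hC0]
    exact hC hCne
  have key := step5 D τ hτ hF' hC' hm (x₁, x₂)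
  have e1 : Projectivization.mk K (C + x₁ • u₁ + x₂ • u₂) h = pV D (x₁, x₂) := by
    unfold pV
    rw [Projectivization.mk_eq_mk_iff']
    exact ⟨1, by simp⟩
  have e2 : Projectivization.mk K (C - x₁ • u₁ - x₂ • u₂) h' = pV D (-x₁, -x₂) := by
    unfold pV
    rw [Projectivization.mk_eq_mk_iff']
    refine ⟨1, ?_⟩
    simp only [one_smul, neg_smul]
    abel
  rw [e1, e2]
  exact key

end UQL
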