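import Pool.Agent.UQL.T
set_option autoImplicit false
set_option linter.all false

/-!
# Target T_BAS of the project UQL: dual bases
-/

namespace UQL

open Configuration
open scoped LinearAlgebra.Projectivization

universe u v u' v' w

namespace BAS_

theorem expand {K : Type w} [Field K] (A C u₁ u₂ k₁ k₂ : Fin 3 → K) (h : A ⬝ᵥ C = 1)
    (h1 : A ⬝ᵥ u₁ = 0) (h2 : A ⬝ᵥ u₂ = 0) (h3 : k₁ ⬝ᵥ C = 0) (h4 : k₂ ⬝ᵥ C = 0)
    (h5 : k₁ ⬝ᵥ u₁ = 1) (h6 : k₁ ⬝ᵥ u₂ = 0) (h7 : k₂ ⬝ᵥ u₁ = 0) (h8 : k₂ ⬝ᵥ u₂ = 1) :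
    (∀ x, x = (A ⬝ᵥ x) • C + (k₁ ⬝ᵥ x) • u₁ + (k₂ ⬝ᵥ x) • u₂) ∧
      (∀ x, x = (x ⬝ᵥ C) • A + (x ⬝ᵥ u₁) • k₁ + (x ⬝ᵥ u₂) • k₂) := by
  let M : Matrix (Fin 3) (Fin 3) K := Matrix.of ![A, k₁, k₂]
  let N : Matrix (Fin 3) (Fin 3) K := (Matrix.of ![C, u₁, u₂]).transpose
  have hMN : M * N = 1 := by
    ext i j
    have e : (M * N) i j = (![A, k₁, k₂] i) ⬝ᵥ (![C, u₁, u₂] j) := rfl
    rw [e]
    fin_cases i <;> fin_cases j <;> simp [h, h1, h2, h3, h4, h5, h6, h7, h8]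
  have hNM : N * M = 1 := mul_eq_one_comm.1 hMN
  have key : ∀ i j, C i * A j + u₁ i * k₁ j + u₂ i * k₂ j = (1 : Matrix (Fin 3) (Fin 3) K) i j := by
    intro i j
    rw [← hNM, Matrix.mul_apply, Fin.sum_univ_three]
    rfl
  constructor
  · intro x
    have hx : x = (1 : Matrix (Fin 3) (Fin 3) K).mulVec x := (Matrix.one_mulVec x).symm
    conv_lhs => rw [hx]
    funext i
    simp only [Matrix.mulVec, dotProduct, Fin.sum_univ_three, Pi.add_apply, Pi.smul_apply,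
      smul_eq_mul]
    rw [← key i 0, ← key i 1, ← key i 2]
    ring
  · intro x
    have hx : x = Matrix.vecMul x (1 : Matrix (Fin 3) (Fin 3) K) := (Matrix.vecMul_one x).symm
    conv_lhs => rw [hx]
    funext j
    simp only [Matrix.vecMul, dotProduct, Fin.sum_univ_three, Pi.add_apply, Pi.smul_apply,
      smul_eq_mul]
    rw [← key 0 j, ← key 1 j, ← key 2 j]
    ring

end BAS_

theorem p_BAS : T_BAS.{w} := by
  intro K _ A C h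
  suffices hs : ∃ u₁ u₂ k₁ k₂ : Fin 3 → K, A ⬝ᵥ u₁ = 0 ∧ A ⬝ᵥ u₂ = 0 ∧ k₁ ⬝ᵥ C = 0 ∧
      k₂ ⬝ᵥ C = 0 ∧ k₁ ⬝ᵥ u₁ = 1 ∧ k₁ ⬝ᵥ u₂ = 0 ∧ k₂ ⬝ᵥ u₁ = 0 ∧ k₂ ⬝ᵥ u₂ = 1 by
    obtain ⟨u₁, u₂, k₁, k₂, h1, h2, h3, h4, h5, h6, h7, h8⟩ := hs
    obtain ⟨h9, h10⟩ := BAS_.expand A C u₁ u₂ k₁ k₂ h h1 h2 h3 h4 h5 h6 h7 h8
    exact ⟨u₁, u₂, k₁, k₂, h1, h2, h3, h4, h5, h6, h7, h8, h9, h10⟩
  have h' : A 0 * C 0 + A 1 * C 1 + A 2 * C 2 = 1 := by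
    rw [← h]
    simp [dotProduct, Fin.sum_univ_three]
  by_cases h0 : A 0 = 0
  · by_cases h1 : A 1 = 0
    · by_cases h2 : A 2 = 0
      · rw [h0, h1, h2] at h'
        simp at h'
      · refine ⟨![A 2, 0, -A 0], ![0, A 2, -A 1],
          ![(A 2 * C 2 + A 1 * C 1) / A 2, -A 1 * C 0 / A 2, -C 0],
          ![-A 0 * C 1 / A 2, (A 2 * C 2 + A 0 * C 0) / A 2, -C 1], ?_, ?_, ?_, ?_, ?_, ?_, ?_, ?_⟩
        all_goals
          simp [dotProduct, Fin.sum_univ_three]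
          try field_simp
          try first | ring1 | linear_combination h'
    · refine ⟨![0, -A 2, A 1], ![A 1, -A 0, 0],
        ![-A 0 * C 2 / A 1, -C 2, (A 1 * C 1 + A 0 * C 0) / A 1],
        ![(A 1 * C 1 + A 2 * C 2) / A 1, -C 0, -A 2 * C 0 / A 1], ?_, ?_, ?_, ?_, ?_, ?_, ?_, ?_⟩
      all_goals
        simp [dotProduct, Fin.sum_univ_three]
        try field_simp
        try first | ring1 | linear_combination h'
  · refine ⟨![-A 1, A 0, 0], ![-A 2, 0, A 0],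
      ![-C 1, (A 0 * C 0 + A 2 * C 2) / A 0, -A 2 * C 1 / A 0],
      ![-C 2, -A 1 * C 2 / A 0, (A 0 * C 0 + A 1 * C 1) / A 0], ?_, ?_, ?_, ?_, ?_, ?_, ?_, ?_⟩
    all_goals
      simp [dotProduct, Fin.sum_univ_three]
      try field_simp
      try first | ring1 | linear_combination h'

end UQL
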