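import Pool.Agent.UQL.T
set_option autoImplicit false
set_option linter.all false

namespace UQL

open Configuration
open scoped LinearAlgebra.Projectivization
open Matrix Projectivization

universe w

namespace MOD_

variable {K : Type w} [Field K]

/-- Incidence of representatives. -/
theorem mem_mk {x l : Fin 3 → K} (hx : x ≠ 0) (hl : l ≠ 0) :
    ((Projectivization.mk K x hx : ℙ K (Fin 3 → K)) ∈
      (Projectivization.mk K l hl : ℙ K (Fin 3 → K))) ↔ l ⬝ᵥ x = 0 := by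
  rw [Configuration.ofField.mem_iff, Projectivization.orthogonal_mk, dotProduct_comm]

/-- Equal vectors give equal points. -/
theorem mk_congr {x y : Fin 3 → K} (hx : x ≠ 0) (hy : y ≠ 0) (h : x = y) :
    (Projectivization.mk K x hx : ℙ K (Fin 3 → K)) = Projectivization.mk K y hy := by
  subst h; rfl

/-- Two different solutions of `dt a v = 1`. -/
theorem two_sol (a : K × K) (ha : a ≠ 0) : ∃ v v' : K × K, v ≠ v' ∧ dt a v = 1 ∧ dt a v' = 1 := by
  obtain ⟨a1, a2⟩ := a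
  by_cases h1 : a1 = 0
  · have h2 : a2 ≠ 0 := by
      intro h2
      apply ha
      rw [h1, h2]
      rfl
    refine ⟨(0, a2⁻¹), (1, (1 - a1) * a2⁻¹), ?_, ?_, ?_⟩
    · intro h
      have := congrArg Prod.fst h
      exact zero_ne_one this
    · simp [dt, h2]
    · simp only [dt]
      field_simp
      ring
  · refine ⟨(a1⁻¹, 0), ((1 - a2) * a1⁻¹, 1), ?_, ?_, ?_⟩
    · intro h
      have := congrArg Prod.snd h
      exact zero_ne_one this
    · simp [dt, h1]
    · simp only [dt]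
      field_simp
      ring

/-- A line with two different fixed points is fixed. -/
theorem fix_of_two (τ : Coll (ℙ K (Fin 3 → K)) (ℙ K (Fin 3 → K))) {p q l : ℙ K (Fin 3 → K)}
    (hp : p ∈ l) (hq : q ∈ l) (hpq : p ≠ q) (h1 : τ.pt p = p) (h2 : τ.pt q = q) :
    τ.ln l = l := by
  have hp' : p ∈ τ.ln l := by
    have := (τ.mem_iff p l).2 hp
    rwa [h1] at this
  have hq' : q ∈ τ.ln l := by
    have := (τ.mem_iff q l).2 hq
    rwa [h2] at this
  rcases Configuration.Nondegenerate.eq_or_eq hp' hq' hp hq with h | h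
  · exact absurd h hpq
  · exact h

end MOD_

open MOD_

theorem p_MOD (h1 : T_BAS.{w}) (h2 : T_ACT.{w}) : T_MOD.{w} := by
  intro K _ _ two τ hτ
  obtain ⟨hinv, hmov, axis, centre, hax, hcax, hcen⟩ := hτ
  induction axis with | h A₀ hA₀ =>
  induction centre with | h C hC =>
  have hAC₀ : A₀ ⬝ᵥ C ≠ 0 := by
    intro h
    exact hcax ((mem_mk hC hA₀).2 h)
  obtain ⟨A, hAdef⟩ : ∃ A : Fin 3 → K, A = (A₀ ⬝ᵥ C)⁻¹ • A₀ := ⟨_, rfl⟩
  have hAC : A ⬝ᵥ C = 1 := by
    rw [hAdef, smul_dotProduct, smul_eq_mul, inv_mul_cancel₀ hAC₀]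
  have hAx : ∀ x : Fin 3 → K, A ⬝ᵥ x = 0 → A₀ ⬝ᵥ x = 0 := by
    intro x hx
    rw [hAdef, smul_dotProduct, smul_eq_mul] at hx
    rcases mul_eq_zero.1 hx with h | h
    · exact absurd h (inv_ne_zero hAC₀)
    · exact h
  have hfix : ∀ x (hx : x ≠ 0), A ⬝ᵥ x = 0 →
      τ.pt (Projectivization.mk K x hx) = Projectivization.mk K x hx := by
    intro x hx h
    exact hax _ ((mem_mk hx hA₀).2 (hAx x h))
  have hA0 : A ≠ 0 := by
    intro h
    rw [h, zero_dotProduct] at hAC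
    exact zero_ne_one hAC
  obtain ⟨u₁, u₂, k₁, k₂, hAu₁, hAu₂, hk₁C, hk₂C, h11, h12, h21, h22, hx, hy⟩ := h1 K A C hAC
  have hact := h2 K A C u₁ u₂ k₁ k₂ two hAC hAu₁ hAu₂ hk₁C hk₂C h11 h12 h21 h22 hx τ hinv hmov
    hfix (fun _ => hcen)
  -- products
  have pA : ∀ v : K × K, A ⬝ᵥ (C + v.1 • u₁ + v.2 • u₂) = 1 := by
    intro v
    simp [dotProduct_add, dotProduct_smul, hAC, hAu₁, hAu₂]
  have pk₁ : ∀ v : K × K, k₁ ⬝ᵥ (C + v.1 • u₁ + v.2 • u₂) = v.1 := by
    intro v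
    simp [dotProduct_add, dotProduct_smul, hk₁C, h11, h12]
  have pk₂ : ∀ v : K × K, k₂ ⬝ᵥ (C + v.1 • u₁ + v.2 • u₂) = v.2 := by
    intro v
    simp [dotProduct_add, dotProduct_smul, hk₂C, h21, h22]
  have lC : ∀ a : K × K, (-A + a.1 • k₁ + a.2 • k₂) ⬝ᵥ C = -1 := by
    intro a
    simp [add_dotProduct, smul_dotProduct, neg_dotProduct, hAC, hk₁C, hk₂C]
  have lu₁ : ∀ a : K × K, (-A + a.1 • k₁ + a.2 • k₂) ⬝ᵥ u₁ = a.1 := by
    intro a
    simp [add_dotProduct, smul_dotProduct, neg_dotProduct, hAu₁, h11, h21]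
  have lu₂ : ∀ a : K × K, (-A + a.1 • k₁ + a.2 • k₂) ⬝ᵥ u₂ = a.2 := by
    intro a
    simp [add_dotProduct, smul_dotProduct, neg_dotProduct, hAu₂, h12, h22]
  have lp : ∀ (a v : K × K), (-A + a.1 • k₁ + a.2 • k₂) ⬝ᵥ (C + v.1 • u₁ + v.2 • u₂) =
      dt a v - 1 := by
    intro a v
    rw [dotProduct_add, dotProduct_add, dotProduct_smul, dotProduct_smul, lC, lu₁, lu₂]
    simp only [smul_eq_mul, dt]
    ring
  have hP : ∀ v : K × K, C + v.1 • u₁ + v.2 • u₂ ≠ 0 := by
    intro v h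
    have := pA v
    rw [h, dotProduct_zero] at this
    exact zero_ne_one this
  have hL : ∀ a : K × K, -A + a.1 • k₁ + a.2 • k₂ ≠ 0 := by
    intro a h
    have := lC a
    rw [h, zero_dotProduct] at this
    exact one_ne_zero (neg_eq_zero.1 this.symm)
  have hu₁ : u₁ ≠ 0 := by
    intro h
    rw [h, dotProduct_zero] at h11
    exact zero_ne_one h11
  have hu₂ : u₂ ≠ 0 := by
    intro h
    rw [h, dotProduct_zero] at h22
    exact zero_ne_one h22
  -- incidence
  have hinc : ∀ v a : K × K,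
      ((Projectivization.mk K _ (hP v) : ℙ K (Fin 3 → K)) ∈
        (Projectivization.mk K _ (hL a) : ℙ K (Fin 3 → K))) ↔ dt a v = 1 := by
    intro v a
    rw [mem_mk, lp, sub_eq_zero]
  have hφneg : ∀ v : K × K, τ.pt (Projectivization.mk K _ (hP v)) =
      Projectivization.mk K _ (hP (-v)) := by
    intro v
    have e : C - v.1 • u₁ - v.2 • u₂ = C + (-v).1 • u₁ + (-v).2 • u₂ := by
      rw [Prod.fst_neg, Prod.snd_neg, neg_smul, neg_smul]
      abel
    have h' : C - v.1 • u₁ - v.2 • u₂ ≠ 0 := by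
      rw [e]
      exact hP (-v)
    rw [hact v.1 v.2 (hP v) h']
    exact mk_congr _ _ e
  have hφinj : ∀ v v' : K × K, (Projectivization.mk K _ (hP v) : ℙ K (Fin 3 → K)) =
      Projectivization.mk K _ (hP v') → v = v' := by
    intro v v' h
    obtain ⟨c, hc⟩ := (Projectivization.mk_eq_mk_iff' K _ _ _ _).1 h
    have e1 := congrArg (fun x => A ⬝ᵥ x) hc
    simp only [dotProduct_smul] at e1
    rw [pA, pA, smul_eq_mul, mul_one] at e1
    have e2 := congrArg (fun x => k₁ ⬝ᵥ x) hc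
    have e3 := congrArg (fun x => k₂ ⬝ᵥ x) hc
    simp only [dotProduct_smul] at e2 e3
    rw [pk₁, pk₁, e1, one_smul] at e2
    rw [pk₂, pk₂, e1, one_smul] at e3
    exact Prod.ext e2.symm e3.symm
  have hψinj : ∀ a a' : K × K, (Projectivization.mk K _ (hL a) : ℙ K (Fin 3 → K)) =
      Projectivization.mk K _ (hL a') → a = a' := by
    intro a a' h
    obtain ⟨c, hc⟩ := (Projectivization.mk_eq_mk_iff' K _ _ _ _).1 h
    have e1 := congrArg (fun x => x ⬝ᵥ C) hc
    simp only [smul_dotProduct] at e1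
    rw [lC, lC, smul_eq_mul, mul_neg, mul_one, neg_inj] at e1
    have e2 := congrArg (fun x => x ⬝ᵥ u₁) hc
    have e3 := congrArg (fun x => x ⬝ᵥ u₂) hc
    simp only [smul_dotProduct] at e2 e3
    rw [lu₁, lu₁, e1, one_smul] at e2
    rw [lu₂, lu₂, e1, one_smul] at e3
    exact Prod.ext e2.symm e3.symm
  -- the axis is fixed
  have haxis : ∀ hA : A ≠ 0, τ.ln (Projectivization.mk K A hA) = Projectivization.mk K A hA := by
    intro hA
    refine fix_of_two τ ((mem_mk hu₁ hA).2 hAu₁) ((mem_mk hu₂ hA).2 hAu₂) ?_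
      (hfix u₁ hu₁ hAu₁) (hfix u₂ hu₂ hAu₂)
    intro h
    obtain ⟨c, hc⟩ := (Projectivization.mk_eq_mk_iff' K _ _ _ _).1 h
    have e := congrArg (fun x => k₁ ⬝ᵥ x) hc
    simp only [dotProduct_smul] at e
    rw [h12, h11, smul_zero] at e
    exact zero_ne_one e
  refine ⟨{
    φ := fun v => Projectivization.mk K _ (hP v)
    ψ := fun a => Projectivization.mk K _ (hL a)
    φ_neg := fun v _ => hφneg v
    ψ_neg := ?_
    φ_inj := fun v v' _ _ h => hφinj v v' h
    ψ_inj := fun a a' _ _ h => hψinj a a' h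
    φ_surj := ?_
    ψ_surj := ?_
    inc := fun v a _ _ => hinc v a }⟩
  · intro a ha
    obtain ⟨v, v', hvv, hv, hv'⟩ := two_sol a ha
    have neg_dt : ∀ z : K × K, dt (-a) (-z) = dt a z := by
      intro z
      simp [dt]
    have m1 : (Projectivization.mk K _ (hP (-v)) : ℙ K (Fin 3 → K)) ∈
        τ.ln (Projectivization.mk K _ (hL a)) := by
      rw [← hφneg v]
      exact (τ.mem_iff _ _).2 ((hinc v a).2 hv)
    have m2 : (Projectivization.mk K _ (hP (-v')) : ℙ K (Fin 3 → K)) ∈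
        τ.ln (Projectivization.mk K _ (hL a)) := by
      rw [← hφneg v']
      exact (τ.mem_iff _ _).2 ((hinc v' a).2 hv')
    have m3 := (hinc (-v) (-a)).2 ((neg_dt v).trans hv)
    have m4 := (hinc (-v') (-a)).2 ((neg_dt v').trans hv')
    rcases Configuration.Nondegenerate.eq_or_eq m1 m2 m3 m4 with h | h
    · exact absurd (neg_injective (hφinj _ _ h)) hvv
    · exact h
  · intro p hp
    induction p with | h x hx0 =>
    have ht : A ⬝ᵥ x ≠ 0 := fun h => hp (hfix x hx0 h)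
    obtain ⟨x', hx'⟩ : ∃ x' : Fin 3 → K, x' = (A ⬝ᵥ x)⁻¹ • x := ⟨_, rfl⟩
    have hA1 : A ⬝ᵥ x' = 1 := by
      rw [hx', dotProduct_smul, smul_eq_mul, inv_mul_cancel₀ ht]
    have hPx : C + (k₁ ⬝ᵥ x', k₂ ⬝ᵥ x').1 • u₁ + (k₁ ⬝ᵥ x', k₂ ⬝ᵥ x').2 • u₂ = x' := by
      have := hx x'
      rw [hA1, one_smul] at this
      exact this.symm
    have hx'0 : x' ≠ 0 := by
      intro h
      rw [h, dotProduct_zero] at hA1
      exact zero_ne_one hA1
    have hmk : (Projectivization.mk K x hx0 : ℙ K (Fin 3 → K)) = Projectivization.mk K x' hx'0 := by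
      rw [Projectivization.mk_eq_mk_iff']
      refine ⟨A ⬝ᵥ x, ?_⟩
      rw [hx', smul_smul, mul_inv_cancel₀ ht, one_smul]
    refine ⟨(k₁ ⬝ᵥ x', k₂ ⬝ᵥ x'), ?_, ?_⟩
    · intro h0
      apply hp
      rw [hmk]
      rw [h0] at hPx
      have e : x' = C := by
        rw [← hPx]
        simp
      rw [mk_congr hx'0 hC e]
      exact hcen
    · rw [hmk]
      exact mk_congr _ _ hPx
  · intro l hl
    induction l with | h y hy0 =>
    have hyC : y ⬝ᵥ C ≠ 0 := by
      intro h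
      apply hl
      have ey := hy y
      rw [h, zero_smul, zero_add] at ey
      obtain ⟨z, hz⟩ : ∃ z : Fin 3 → K, z = (y ⬝ᵥ u₂) • u₁ - (y ⬝ᵥ u₁) • u₂ := ⟨_, rfl⟩
      have hAz : A ⬝ᵥ z = 0 := by
        rw [hz, dotProduct_sub, dotProduct_smul, dotProduct_smul, hAu₁, hAu₂]
        simp
      have hyz : y ⬝ᵥ z = 0 := by
        rw [hz, dotProduct_sub, dotProduct_smul, dotProduct_smul, smul_eq_mul, smul_eq_mul]
        ring
      have hk₁z : k₁ ⬝ᵥ z = y ⬝ᵥ u₂ := by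
        rw [hz, dotProduct_sub, dotProduct_smul, dotProduct_smul, h11, h12]
        simp
      have hk₂z : k₂ ⬝ᵥ z = -(y ⬝ᵥ u₁) := by
        rw [hz, dotProduct_sub, dotProduct_smul, dotProduct_smul, h21, h22]
        simp
      have hz0 : z ≠ 0 := by
        intro h0
        rw [h0, dotProduct_zero] at hk₁z hk₂z
        apply hy0
        rw [ey, ← hk₁z, ← neg_eq_zero.1 hk₂z.symm |>.symm]
        simp
      refine fix_of_two τ ((mem_mk hC hy0).2 h) ((mem_mk hz0 hy0).2 hyz) ?_ hcen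
        (hfix z hz0 hAz)
      intro h0
      obtain ⟨c, hc⟩ := (Projectivization.mk_eq_mk_iff' K _ _ _ _).1 h0
      have e := congrArg (fun x => A ⬝ᵥ x) hc
      simp only [dotProduct_smul] at e
      rw [hAz, hAC, smul_zero] at e
      exact zero_ne_one e
    obtain ⟨y', hy'⟩ : ∃ y' : Fin 3 → K, y' = (-(y ⬝ᵥ C)⁻¹) • y := ⟨_, rfl⟩
    have hC1 : y' ⬝ᵥ C = -1 := by
      rw [hy', smul_dotProduct, smul_eq_mul, neg_mul, inv_mul_cancel₀ hyC]
    have hLy : -A + (y' ⬝ᵥ u₁, y' ⬝ᵥ u₂).1 • k₁ + (y' ⬝ᵥ u₁, y' ⬝ᵥ u₂).2 • k₂ = y' := by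
      have := hy y'
      rw [hC1, neg_smul, one_smul] at this
      exact this.symm
    have hy'0 : y' ≠ 0 := by
      intro h
      rw [h, zero_dotProduct] at hC1
      exact one_ne_zero (neg_eq_zero.1 hC1.symm)
    have hmk : (Projectivization.mk K y hy0 : ℙ K (Fin 3 → K)) = Projectivization.mk K y' hy'0 := by
      rw [Projectivization.mk_eq_mk_iff']
      refine ⟨-(y ⬝ᵥ C), ?_⟩
      rw [hy', smul_smul, neg_mul_neg, mul_inv_cancel₀ hyC, one_smul]
    refine ⟨(y' ⬝ᵥ u₁, y' ⬝ᵥ u₂), ?_, ?_⟩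
    · intro h0
      apply hl
      rw [hmk]
      rw [h0] at hLy
      have e : y' = -A := by
        rw [← hLy]
        simp
      have hmA : (Projectivization.mk K y' hy'0 : ℙ K (Fin 3 → K)) =
          Projectivization.mk K A hA0 := by
        rw [Projectivization.mk_eq_mk_iff']
        exact ⟨-1, by rw [e, neg_smul, one_smul]⟩
      rw [hmA]
      exact haxis hA0
    · rw [hmk]
      exact mk_congr _ _ hLy

end UQL
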