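import Pool.Agent.UQL.T
set_option autoImplicit false
set_option linter.all false

/-!
# UQL: extension of an isomorphism of the moved parts (target T_EXT)
-/

namespace UQL

open Configuration

universe u v u' v' w

namespace EXT65_

theorem L1 {P : Type u} {L : Type v} [Membership P L] [ProjectivePlane P L] {τ : Coll P L}
    {a : L} {c : P} (hA : AC τ a c) {p : P} {l m : L} (hp : p ∈ a) (hl : c ∈ l)
    (hm : τ.ln m ≠ m) (hpm : p ∈ m) :
    p ∈ l ↔ ∀ q : {p : P // τ.pt p ≠ p}, ¬ (q.1 ∈ m ∧ q.1 ∈ l) := by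
  obtain ⟨h1, h2, h3, h4, h5, h6⟩ := hA
  have hml : m ≠ l := by
    rintro rfl
    exact hm ((h3 m).mpr (Or.inr hl))
  constructor
  · rintro hpl q ⟨hq1, hq2⟩
    rcases Nondegenerate.eq_or_eq hpm hq1 hpl hq2 with h | h
    · exact q.2 ((h2 _).mpr (Or.inr (h ▸ hp)))
    · exact hml h
  · intro h
    have hx := HasPoints.mkPoint_ax (P := P) hml
    set x := HasPoints.mkPoint (P := P) hml with hxd
    have hxf : τ.pt x = x := by
      by_contra hne
      exact h ⟨x, hne⟩ hx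
    rcases (h2 x).mp hxf with h7 | h7
    · exact absurd ((h3 m).mpr (Or.inr (h7 ▸ hx.1))) hm
    · rcases Nondegenerate.eq_or_eq hx.1 hpm h7 hp with h8 | h8
      · rw [← h8]; exact hx.2
      · exact absurd ((h3 m).mpr (Or.inl h8)) hm

end EXT65_

open EXT65_ in
theorem p_EXT65 (h1 : T_FIX.{u, v}) (h1' : T_FIX.{u', v'}) (h2 : T_SEP.{u, v})
    (h2' : T_SEP.{u', v'}) (h3 : T_EXP.{u, v, u', v'}) (h3' : T_EXP.{u', v', u, v}) :
    T_EXT.{u, v, u', v'} := by
  intro P L P' L' _ _ _ _ _ _ _ _ τ τ' hτ hτ' F G hM hE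
  obtain ⟨a, c, hA⟩ := h1 P L τ hτ
  obtain ⟨a', c', hA'⟩ := h1' P' L' τ' hτ'
  obtain ⟨s1, s2, s3, s4⟩ := h2 P L τ a c hA
  obtain ⟨s1', s2', s3', s4'⟩ := h2' P' L' τ' a' c' hA'
  obtain ⟨eP, eL⟩ := h3 P L P' L' τ τ' a c a' c' hA hA' F G hM
  have hM' : MovIso τ' τ F.symm G.symm := by
    intro p l
    have := hM (F.symm p) (G.symm l)
    rw [Equiv.apply_symm_apply, Equiv.apply_symm_apply] at this
    exact this.symm
  obtain ⟨eP', eL'⟩ := h3' P' L' P L τ' τ a' c' a c hA' hA F.symm G.symm hM'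
  choose pt hpt1 hpt2 hpt3 using eP
  choose ln hln1 hln2 hln3 using eL
  choose pt' hpt1' hpt2' hpt3' using eP'
  choose ln' hln1' hln2' hln3' using eL'
  have uP : ∀ p q : P, (∀ l : {l : L // τ.ln l ≠ l}, p ∈ l.1 ↔ q ∈ l.1) → p = q := by
    intro p q h
    by_contra hne
    obtain ⟨l, hl, h⟩ := s1 p q hne
    have := ‹∀ l : {l : L // τ.ln l ≠ l}, p ∈ l.1 ↔ q ∈ l.1› ⟨l, hl⟩
    simp only at this
    tauto
  have uP' : ∀ p q : P', (∀ l : {l : L' // τ'.ln l ≠ l}, p ∈ l.1 ↔ q ∈ l.1) → p = q := by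
    intro p q h
    by_contra hne
    obtain ⟨l, hl, h⟩ := s1' p q hne
    have := ‹∀ l : {l : L' // τ'.ln l ≠ l}, p ∈ l.1 ↔ q ∈ l.1› ⟨l, hl⟩
    simp only at this
    tauto
  have uL : ∀ l m : L, (∀ p : {p : P // τ.pt p ≠ p}, p.1 ∈ l ↔ p.1 ∈ m) → l = m := by
    intro l m h
    by_contra hne
    obtain ⟨p, hp, h⟩ := s2 l m hne
    have := ‹∀ p : {p : P // τ.pt p ≠ p}, p.1 ∈ l ↔ p.1 ∈ m› ⟨p, hp⟩
    simp only at this
    tauto
  have uL' : ∀ l m : L', (∀ p : {p : P' // τ'.pt p ≠ p}, p.1 ∈ l ↔ p.1 ∈ m) → l = m := by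
    intro l m h
    by_contra hne
    obtain ⟨p, hp, h⟩ := s2' l m hne
    have := ‹∀ p : {p : P' // τ'.pt p ≠ p}, p.1 ∈ l ↔ p.1 ∈ m› ⟨p, hp⟩
    simp only at this
    tauto
  have kP : ∀ p, pt' (pt p) = p := by
    intro p
    apply uP
    intro l
    have e1 := hpt3' (pt p) (G l)
    rw [Equiv.symm_apply_apply] at e1
    rw [← e1, ← hpt3 p l]
  have kP' : ∀ p, pt (pt' p) = p := by
    intro p
    apply uP'
    intro l
    have e1 := hpt3 (pt' p) (G.symm l)
    rw [Equiv.apply_symm_apply] at e1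
    rw [← e1, ← hpt3' p l]
  have kL : ∀ l, ln' (ln l) = l := by
    intro l
    apply uL
    intro p
    have e1 := hln3' (ln l) (F p)
    rw [Equiv.symm_apply_apply] at e1
    rw [← e1, ← hln3 l p]
  have kL' : ∀ l, ln (ln' l) = l := by
    intro l
    apply uL'
    intro p
    have e1 := hln3 (ln' l) (F.symm p)
    rw [Equiv.apply_symm_apply] at e1
    rw [← e1, ← hln3' l p]
  have vP : ∀ p : {p : P // τ.pt p ≠ p}, pt p.1 = (F p).1 := by
    intro p
    apply uP'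
    intro l
    have e1 := hpt3 p.1 (G.symm l)
    have e2 := hM p (G.symm l)
    rw [Equiv.apply_symm_apply] at e1 e2
    rw [← e1, ← e2]
  have vL : ∀ l : {l : L // τ.ln l ≠ l}, ln l.1 = (G l).1 := by
    intro l
    apply uL'
    intro p
    have e1 := hln3 l.1 (F.symm p)
    have e2 := hM (F.symm p) l
    rw [Equiv.apply_symm_apply] at e1 e2
    rw [← e1, ← e2]
  have hmem : ∀ p l, pt p ∈ ln l ↔ p ∈ l := by
    intro p l
    by_cases hl : τ.ln l = l
    · by_cases hp : τ.pt p = p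
      · rcases (hA.2.1 p).mp hp with h4 | h4
        · rw [(hpt1 p).mp h4, h4]
          exact (hln2 l).symm
        · rcases (hA.2.2.1 l).mp hl with h5 | h5
          · rw [(hln1 l).mp h5, h5]
            exact (hpt2 p).symm
          · have hpc : p ≠ c := by
              rintro rfl; exact hA.1 h4
            obtain ⟨m, hm, hpm⟩ := s3 p hpc
            rw [L1 hA h4 h5 hm hpm,
              L1 hA' ((hpt2 p).mp h4) ((hln2 l).mp h5) (G ⟨m, hm⟩).2 ((hpt3 p ⟨m, hm⟩).mp hpm)]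
            constructor
            · intro h q hq
              apply h (F q)
              exact ⟨(hM q ⟨m, hm⟩).mpr hq.1, (hln3 l q).mp hq.2⟩
            · intro h q hq
              apply h (F.symm q)
              have e2 := hM (F.symm q) ⟨m, hm⟩
              have e3 := hln3 l (F.symm q)
              rw [Equiv.apply_symm_apply] at e2 e3
              exact ⟨e2.mp hq.1, e3.mpr hq.2⟩
      · rw [vP ⟨p, hp⟩]
        exact (hln3 l ⟨p, hp⟩).symm
    · rw [vL ⟨l, hl⟩]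
      exact (hpt3 p ⟨l, hl⟩).symm
  have movP : ∀ p, τ.pt p ≠ p → τ.pt (τ.pt p) ≠ τ.pt p := by
    intro p hp h
    exact hp (τ.pt.injective h)
  have movL : ∀ l, τ.ln l ≠ l → τ.ln (τ.ln l) ≠ τ.ln l := by
    intro p hp h
    exact hp (τ.ln.injective h)
  refine ⟨⟨⟨pt, pt', kP, kP'⟩, ⟨ln, ln', kL, kL'⟩, hmem⟩, vP, vL, ?_, ?_⟩
  · intro p
    show pt (τ.pt p) = τ'.pt (pt p)
    by_cases hp : τ.pt p = p
    · rw [hp]
      symm
      rw [hA'.2.1]
      rcases (hA.2.1 p).mp hp with h4 | h4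
      · exact Or.inl ((hpt1 p).mp h4)
      · exact Or.inr ((hpt2 p).mp h4)
    · rw [vP ⟨p, hp⟩, vP ⟨τ.pt p, movP p hp⟩]
      exact hE _ _ rfl
  · intro l
    show ln (τ.ln l) = τ'.ln (ln l)
    by_cases hl : τ.ln l = l
    · rw [hl]
      symm
      rw [hA'.2.2.1]
      rcases (hA.2.2.1 l).mp hl with h4 | h4
      · exact Or.inl ((hln1 l).mp h4)
      · exact Or.inr ((hln2 l).mp h4)
    · apply uL'
      intro q'
      obtain ⟨q, rfl⟩ := F.surjective q'
      have hτq : (F ⟨τ.pt q.1, movP _ q.2⟩).1 = τ'.pt (F q).1 := hE q _ rfl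
      have e1 : (F q).1 = τ'.pt (F ⟨τ.pt q.1, movP _ q.2⟩).1 := by
        rw [hτq, hA'.2.2.2.2.1]
      have e2 : (F q).1 ∈ τ'.ln (ln l) ↔ τ.pt q.1 ∈ l := by
        rw [e1, τ'.mem_iff]
        exact (hln3 l ⟨τ.pt q.1, movP _ q.2⟩).symm
      have e3 : (F q).1 ∈ ln (τ.ln l) ↔ q.1 ∈ τ.ln l := (hln3 (τ.ln l) q).symm
      rw [e2, e3]
      have e4 := τ.mem_iff (τ.pt q.1) l
      rw [hA.2.2.2.2.1] at e4
      exact e4

end UQL
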