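import Pool.Agent.UQL.T
set_option autoImplicit false

/-!
# UQL: T_COB, every even cocycle is a coboundary
-/

namespace UQL

open Configuration

universe w

namespace COB_

theorem two0 : (2 : ZMod 2) = 0 := by decide

theorem self (x : ZMod 2) : x + x = 0 := by
  have h := two0
  linear_combination x * h

section
variable {K : Type w} [Field K]

open Classical in
/-- first correction -/
noncomputable def al (g : K × K → K × K → ZMod 2) (v : K × K) : ZMod 2 :=
  if v.2 = 0 then 0 else g v (0, 1 / v.2)

open Classical in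
/-- second correction -/
noncomputable def be (g : K × K → K × K → ZMod 2) (a : K × K) : ZMod 2 :=
  if a.1 = 0 then 0 else g (1 / a.1, 0) a

theorem al_neg (g : K × K → K × K → ZMod 2) (hg : Coc g) (v : K × K) : al g (-v) = al g v := by
  unfold al
  by_cases h : v.2 = 0
  · rw [if_pos h, if_pos (by simp [h])]
  · rw [if_neg h, if_neg (by simpa using h)]
    have h1 : ((0 : K), 1 / (-v).2) = -((0 : K), 1 / v.2) := by
      ext
      · simp
      · exact one_div_neg_eq_neg_one_div v.2
    rw [h1, (hg.1 _ _).1, (hg.1 _ _).2]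

theorem be_neg (g : K × K → K × K → ZMod 2) (hg : Coc g) (a : K × K) : be g (-a) = be g a := by
  unfold be
  by_cases h : a.1 = 0
  · rw [if_pos h, if_pos (by simp [h])]
  · rw [if_neg h, if_neg (by simpa using h)]
    have h1 : (1 / (-a).1, (0 : K)) = -(1 / a.1, (0 : K)) := by
      ext
      · exact one_div_neg_eq_neg_one_div a.1
      · simp
    rw [h1, (hg.1 _ _).1, (hg.1 _ _).2]

/-- normalised cocycle -/
noncomputable def g0 (g : K × K → K × K → ZMod 2) (v a : K × K) : ZMod 2 :=
  g v a + al g v + be g a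

theorem g0_coc (g : K × K → K × K → ZMod 2) (hg : Coc g) : Coc (g0 g) := by
  refine ⟨fun v a => ⟨?_, ?_⟩, ?_⟩
  · unfold g0
    rw [(hg.1 v a).1, al_neg g hg]
  · unfold g0
    rw [(hg.1 v a).2, be_neg g hg]
  · intro v v' a b h1 h2 h3 h4
    have h := hg.2 v v' a b h1 h2 h3 h4
    unfold g0
    have ht := two0
    linear_combination h + (al g v + al g v' + be g a + be g b) * ht

theorem v_eq {v a : K × K} (hv : v.2 = 0) (h : dt a v = 1) : a.1 ≠ 0 ∧ v = (1 / a.1, 0) := by
  unfold dt at h
  rw [hv, mul_zero, add_zero] at h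
  have ha : a.1 ≠ 0 := by
    intro h0
    rw [h0, zero_mul] at h
    exact zero_ne_one h
  refine ⟨ha, ?_⟩
  ext
  · change v.1 = 1 / a.1
    rw [eq_div_iff ha, mul_comm]
    exact h
  · exact hv

theorem a_eq {v a : K × K} (ha : a.1 = 0) (h : dt a v = 1) : v.2 ≠ 0 ∧ a = (0, 1 / v.2) := by
  unfold dt at h
  rw [ha, zero_mul, zero_add] at h
  have hv : v.2 ≠ 0 := by
    intro h0
    rw [h0, mul_zero] at h
    exact zero_ne_one h
  refine ⟨hv, ?_⟩
  ext
  · exact ha
  · change a.2 = 1 / v.2
    rw [eq_div_iff hv]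
    exact h

theorem g0_nrm (g : K × K → K × K → ZMod 2) (hg : Coc g) : Nrm (g0 g) := by
  refine ⟨g0_coc g hg, ?_, ?_⟩
  · intro v a hv h
    obtain ⟨ha, hv'⟩ := v_eq hv h
    unfold g0 al be
    rw [if_pos hv, if_neg ha, ← hv', add_zero]
    exact self _
  · intro v a ha h
    obtain ⟨hv, ha'⟩ := a_eq ha h
    unfold g0 al be
    rw [if_neg hv, if_pos ha, ← ha', add_zero]
    exact self _

end

end COB_

open COB_ in
theorem p_COB (h1 : T_NRM.{w}) : T_COB.{w} := by
  classical
  intro K _ _ h2 g hg
  obtain ⟨A, B, hA, hB, hAB⟩ := h1 K h2 (g0 g) (g0_nrm g hg)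
  refine ⟨fun v => al g v + (if v.2 = 0 then B (1 / v.1) else A v.2),
    fun a => be g a + (if a.1 = 0 then A (1 / a.2) else B a.1), ?_, ?_, ?_⟩
  · intro v
    simp only
    rw [al_neg g hg]
    congr 1
    by_cases h : v.2 = 0
    · rw [if_pos h, if_pos (by simp [h])]
      have h3 : 1 / (-v).1 = -(1 / v.1) := one_div_neg_eq_neg_one_div v.1
      rw [h3, hB]
    · rw [if_neg h, if_neg (by simpa using h)]
      exact hA v.2
  · intro a
    simp only
    rw [be_neg g hg]
    congr 1
    by_cases h : a.1 = 0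
    · rw [if_pos h, if_pos (by simp [h])]
      have h3 : 1 / (-a).2 = -(1 / a.2) := one_div_neg_eq_neg_one_div a.2
      rw [h3, hA]
    · rw [if_neg h, if_neg (by simpa using h)]
      exact hB a.1
  · intro v a h
    have ht := two0
    simp only
    by_cases hv : v.2 = 0
    · obtain ⟨ha, hv'⟩ := v_eq hv h
      have h3 := (g0_nrm g hg).2.1 v a hv h
      unfold g0 at h3
      rw [if_pos hv, if_neg ha]
      have h4 : 1 / v.1 = a.1 := by
        rw [hv']
        simp
      rw [h4]
      linear_combination h3 - (al g v + be g a + B a.1) * ht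
    · by_cases ha : a.1 = 0
      · obtain ⟨_, ha'⟩ := a_eq ha h
        have h3 := (g0_nrm g hg).2.2 v a ha h
        unfold g0 at h3
        rw [if_neg hv, if_pos ha]
        have h4 : 1 / a.2 = v.2 := by
          rw [ha']
          simp
        rw [h4]
        linear_combination h3 - (al g v + be g a + A v.2) * ht
      · have h3 := hAB v a hv ha h
        unfold g0 at h3
        rw [if_neg hv, if_neg ha]
        linear_combination h3 - (al g v + be g a) * ht

end UQL
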