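import Pool.Agent.UQL.T
set_option autoImplicit false
set_option linter.all false

/-!
# UQL: the flag functions are constant (target T_CST)
-/

namespace UQL

universe w

theorem p_CST (h1 : T_INV.{w}) (h2 : T_FOU.{w}) : T_CST.{w} := by
  intro K _ _ hK c hc n hp hs
  obtain ⟨E, hFE, hCE, ψ, hψ, hE⟩ := h2 K hK
  haveI : Fact (Nat.Prime 2) := ⟨Nat.prime_two⟩
  let κ : ZMod 2 →+* E := ZMod.castHom (dvd_refl 2) E
  have κinj : Function.Injective κ := κ.injective
  have two0 : (2 : E) = 0 := by exact_mod_cast CharP.cast_eq_zero E 2
  have per : ∀ (f : K → E) (t b : K), (∀ y, f (y + t) = f y) → ψ (b * t) ≠ 1 →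
      ∑ y, ψ (b * y) * f y = 0 := by
    intro f t b hf hb
    have h : ∑ y, ψ (b * y) * f y = ψ (b * t) * ∑ y, ψ (b * y) * f y := by
      rw [Finset.mul_sum]
      conv_lhs => rw [← Equiv.sum_comp (Equiv.addRight t)]
      apply Finset.sum_congr rfl
      intro y _
      simp only [Equiv.coe_addRight]
      rw [hf, mul_add, AddChar.map_add_eq_mul]
      ring
    have h' : (ψ (b * t) - 1) * ∑ y, ψ (b * y) * f y = 0 := by linear_combination -h
    exact (mul_eq_zero.mp h').resolve_left (sub_ne_zero.mpr hb)
  have main : ∀ b : K, b ≠ 0 → ∀ j, j ≠ 0 → ∑ y, ψ (b * y) * κ (n j y) = 0 := by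
    intro b hb j hj
    let M : AddSubgroup K :=
      { carrier := {x | ψ (b * c * j * x) = 1}
        zero_mem' := by
          show ψ (b * c * j * 0) = 1
          rw [mul_zero, AddChar.map_zero_eq_one]
        add_mem' := fun {x y} hx hy => by
          have hx' : ψ (b * c * j * x) = 1 := hx
          have hy' : ψ (b * c * j * y) = 1 := hy
          show ψ (b * c * j * (x + y)) = 1
          rw [mul_add, AddChar.map_add_eq_mul, hx', hy', one_mul]
        neg_mem' := fun {x} hx => by
          have hx' : ψ (b * c * j * x) = 1 := hx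
          show ψ (b * c * j * (-x)) = 1
          rw [mul_neg, AddChar.map_neg_eq_inv, hx', inv_one] }
    have hM : ∀ x, x ∈ M ↔ ψ (b * c * j * x) = 1 := fun x => Iff.rfl
    have hMt : M ≠ ⊤ := by
      intro h
      obtain ⟨x, hx⟩ := hψ (b * c * j) (mul_ne_zero (mul_ne_zero hb hc) hj)
      exact hx ((hM x).mp (by rw [h]; trivial))
    have pj : ∀ i, i ≠ 0 → ∀ y, κ (n i (y + c * i)) = κ (n i y) := by
      intro i hi y; rw [hp i hi]
    by_cases h1M : (1 : K) ∈ M
    · obtain ⟨x, hx0, hxM, hxi⟩ := h1 K M hMt
      have hone : ψ (b * c * j) = 1 := by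
        have := (hM 1).mp h1M
        rwa [mul_one] at this
      have hx1 : x - 1 ≠ 0 := by
        intro h
        apply hxM
        rw [sub_eq_zero.mp h]; exact h1M
      have hx2 : x ≠ 2 := by
        intro h
        apply hxM
        rw [h, ← one_add_one_eq_two]
        exact M.add_mem h1M h1M
      have hj' : (x - 1) * j ≠ 0 := mul_ne_zero hx1 hj
      have hjj : j ≠ (x - 1) * j := by
        intro h
        have h3 : (x - 2) * j = 0 := by linear_combination -h
        rcases mul_eq_zero.mp h3 with h4 | h4
        · exact hx2 (sub_eq_zero.mp h4)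
        · exact hj h4
      have hsum : j + (x - 1) * j = x * j := by ring
      have hsum0 : j + (x - 1) * j ≠ 0 := by rw [hsum]; exact mul_ne_zero hx0 hj
      have hN' : ∑ y, ψ (b * y) * κ (n ((x - 1) * j) y) = 0 := by
        apply per _ (c * ((x - 1) * j)) b (pj _ hj')
        have : b * (c * ((x - 1) * j)) = b * c * j * x + (-(b * c * j)) := by ring
        rw [this, AddChar.map_add_eq_mul, AddChar.map_neg_eq_inv, hone, inv_one, mul_one]
        exact fun h => hxM ((hM x).mpr h)
      have hS : ∑ y, ψ (b * y) * (κ (n j y) + κ (n ((x - 1) * j) y)) = 0 := by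
        apply per _ (2 * c * j * ((x - 1) * j) / (j + (x - 1) * j)) b
        · intro y
          have := hs j ((x - 1) * j) hj hj' hjj hsum0 y
          rw [← map_add, this, map_add]
        · have e : b * (2 * c * j * ((x - 1) * j) / (j + (x - 1) * j)) =
              b * c * j + b * c * j + (-(b * c * j * x⁻¹) + -(b * c * j * x⁻¹)) := by
            rw [hsum]
            field_simp
            ring
          rw [e, AddChar.map_add_eq_mul, AddChar.map_add_eq_mul, AddChar.map_add_eq_mul, hone,
            AddChar.map_neg_eq_inv, one_mul, one_mul]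
          intro h
          apply hxi
          rw [hM]
          set z := ψ (b * c * j * x⁻¹) with hz
          have hz0 : z ≠ 0 := by
            intro h0
            rw [h0] at h
            simp at h
          have h5 : z * z = 1 := by
            rw [← mul_inv] at h
            exact inv_eq_one.mp h
          have h6 : (z - 1) * (z - 1) = 0 := by
            linear_combination h5 + (1 - z) * two0
          have h7 := mul_self_eq_zero.mp h6
          exact sub_eq_zero.mp h7
      simp only [mul_add, Finset.sum_add_distrib] at hS
      rw [hN', add_zero] at hS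
      exact hS
    · apply per _ (c * j) b (pj j hj)
      intro h
      apply h1M
      rw [hM, mul_one, mul_assoc]
      exact h
  intro j hj y
  apply κinj
  exact hE (fun y => κ (n j y)) (fun b hb => main b hb j hj) y

end UQL
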