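import Pool.Agent.UQL.T
set_option autoImplicit false
set_option linter.all false

/-!
# UQL: the cyclic group lemma (target T_CYC)
-/

namespace UQL

universe w

namespace CYC_

theorem half {G : Type w} [CommGroup G] [Fintype G] (H : Subgroup G) (h : H ≠ ⊤) :
    2 * Nat.card H ≤ Nat.card G := by
  have h1 : H.index ≠ 1 := by rwa [Ne, Subgroup.index_eq_one]
  have h0 : H.index ≠ 0 := Subgroup.index_ne_zero_of_finite
  have h2 : 2 ≤ H.index := by omega
  rw [← H.card_mul_index, mul_comm 2]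
  exact Nat.mul_le_mul_left _ h2

end CYC_

theorem p_CYC : T_CYC.{w} := by
  intro G _ _ _ A t X m hA hm1 hmm hX hA1 hAm ht hinj r
  classical
  by_contra hr
  obtain ⟨g, hg⟩ := IsCyclic.exists_generator (α := G)
  have hidx : (A r).index ≠ 1 := by rwa [Ne, Subgroup.index_eq_one]
  obtain ⟨ℓ, hℓ, hℓdvd⟩ := Nat.exists_prime_and_dvd hidx
  have hn : orderOf g = Nat.card G := orderOf_eq_card_of_forall_mem_zpowers hg
  have hn0 : Nat.card G ≠ 0 := Nat.card_pos.ne'
  set n := Nat.card G with hnd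
  have hℓn : ℓ ∣ n := hℓdvd.trans (A r).index_dvd_card
  set k := n.factorization ℓ with hk
  set e := n / ℓ ^ k with he
  have hne : ℓ ^ k * e = n := Nat.ordProj_mul_ordCompl_eq_self n ℓ
  have hcop : Nat.Coprime ℓ e := Nat.coprime_ordCompl hℓ hn0
  set s := g ^ e with hs
  -- (i)
  have hi : s ∉ A r := by
    intro hmem
    have he0 : e ≠ 0 := by
      rintro h; rw [h] at hne; omega
    have ho : orderOf s = ℓ ^ k := by
      rw [hs, orderOf_pow' g he0, hn]
      have : Nat.gcd n e = e := Nat.gcd_eq_right (Dvd.intro_left _ hne)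
      rw [this, ← hne]
      exact Nat.mul_div_cancel _ (Nat.pos_of_ne_zero he0)
    have h1 : ℓ ^ k ∣ Nat.card (A r) := by
      rw [← ho]
      have := orderOf_dvd_natCard (⟨s, hmem⟩ : A r)
      rwa [Subgroup.orderOf_mk] at this
    have h2 : ℓ ^ k * ℓ ∣ n := by
      rw [hnd, ← (A r).card_mul_index]
      exact Nat.mul_dvd_mul h1 hℓdvd
    have h3 : ℓ ^ k * ℓ ∣ ℓ ^ k * e := by rw [hne]; exact h2
    have h4 : ℓ ∣ e := Nat.dvd_of_mul_dvd_mul_left (pow_pos hℓ.pos k) h3
    have h5 : ℓ ∣ 1 := by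
      have := Nat.dvd_gcd (dvd_refl ℓ) h4
      rwa [hcop] at this
    exact hℓ.one_lt.ne' (Nat.dvd_one.mp h5)
  -- (ii)
  let H : Subgroup G := (powMonoidHom ℓ : G →* G).range
  have hHmem : ∀ x, x ∈ H ↔ ∃ y, y ^ ℓ = x := fun x => Iff.rfl
  have hH : H ≠ ⊤ := by
    intro h
    have : g ∈ H := by rw [h]; trivial
    obtain ⟨y, hy⟩ := (hHmem g).mp this
    obtain ⟨b, hb⟩ := Subgroup.mem_zpowers_iff.mp (hg y)
    have h1 : g ^ (b * ℓ - 1 : ℤ) = 1 := by
      rw [zpow_sub, zpow_mul, hb, zpow_natCast, hy, zpow_one, mul_inv_cancel]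
    have h2 : (orderOf g : ℤ) ∣ b * ℓ - 1 := orderOf_dvd_iff_zpow_eq_one.mpr h1
    rw [hn] at h2
    have h3 : (ℓ : ℤ) ∣ b * ℓ - 1 := (Int.natCast_dvd_natCast.mpr hℓn).trans h2
    have h4 : (ℓ : ℤ) ∣ 1 := by
      have := dvd_sub (Dvd.intro_left b rfl : (ℓ : ℤ) ∣ b * ℓ) h3
      simpa using this
    have h5 : ℓ ∣ 1 := by exact_mod_cast h4
    exact hℓ.one_lt.ne' (Nat.dvd_one.mp h5)
  have hii : ∀ u, u ∉ H → s ∈ Subgroup.zpowers u := by
    intro u hu
    obtain ⟨a, ha⟩ := Subgroup.mem_zpowers_iff.mp (hg u)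
    have hla : ¬ (ℓ : ℤ) ∣ a := by
      rintro ⟨b, hb⟩
      apply hu
      rw [hHmem]
      refine ⟨g ^ b, ?_⟩
      rw [← ha, hb, mul_comm, zpow_mul, zpow_natCast]
    have hgcd : (Int.gcd a n) ∣ e := by
      have h1 : Int.gcd a n ∣ ℓ ^ k * e := by
        rw [hne]
        exact_mod_cast Int.gcd_dvd_right a (n : ℤ)
      have h2 : Nat.Coprime (Int.gcd a n) (ℓ ^ k) := by
        apply Nat.Coprime.pow_right
        rw [Nat.coprime_comm, Nat.Prime.coprime_iff_not_dvd hℓ]
        intro h3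
        exact hla ((Int.natCast_dvd_natCast.mpr h3).trans (Int.gcd_dvd_left a (n : ℤ)))
      exact h2.dvd_of_dvd_mul_left h1
    obtain ⟨c, hc⟩ := hgcd
    rw [Subgroup.mem_zpowers_iff]
    refine ⟨Int.gcdA a n * c, ?_⟩
    have hb := Int.gcd_eq_gcd_ab a (n : ℤ)
    have hgn : g ^ (n : ℤ) = 1 := by rw [zpow_natCast, ← hn, pow_orderOf_eq_one]
    have hE : (e : ℤ) = a * (Int.gcdA a n * c) + n * (Int.gcdB a n * c) := by
      rw [hc]; push_cast; rw [hb]; ring
    rw [hs, ← ha, ← zpow_mul, ← zpow_natCast g e, hE, zpow_add, zpow_mul g (n : ℤ), hgn,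
      one_zpow, mul_one]
  -- (iii)
  have hpow : ∀ (x : G), s ∈ A x → ∀ j : ℕ, s ∈ A (x ^ j) := by
    intro x hx j
    induction j with
    | zero => rw [pow_zero, hA1]; trivial
    | succ j ih => rw [pow_succ]; exact hA _ _ ⟨ih, hx⟩
  let B : Subgroup G :=
    { carrier := {x | s ∈ A x}
      one_mem' := by show s ∈ A 1; rw [hA1]; trivial
      mul_mem' := fun {x y} hx hy => hA _ _ ⟨hx, hy⟩
      inv_mem' := fun {x} hx => by
        have h1 : x⁻¹ = x ^ (Nat.card G - 1) := by
          rw [inv_eq_iff_mul_eq_one, ← pow_succ', Nat.sub_add_cancel (Nat.pos_of_ne_zero hn0),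
            pow_card_eq_one']
        show s ∈ A x⁻¹
        rw [h1]
        exact hpow x hx _ }
  have hBmem : ∀ x, x ∈ B ↔ s ∈ A x := fun x => Iff.rfl
  have hB : B ≠ ⊤ := by
    intro h
    exact hi ((hBmem r).mp (by rw [h]; trivial))
  -- (iv)
  have hmB : m ∈ B := by rw [hBmem, hAm]; trivial
  have hmap : ∀ x, x ∉ B → t x ∈ H ∧ t x ≠ 1 := by
    intro x hx
    have hxX : x ∈ X := by
      rw [hX]
      refine ⟨?_, ?_⟩
      · rintro rfl; exact hx B.one_mem
      · rintro rfl; exact hx hmB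
    obtain ⟨h1, h2⟩ := ht x hxX
    refine ⟨?_, ((hX _).mp h1).1⟩
    by_contra h3
    apply hx
    rw [hBmem]
    exact (Subgroup.zpowers_le.mpr h2) (hii _ h3)
  have hcard : (Finset.univ.filter (fun x => x ∉ B)).card ≤
      ((Finset.univ.filter (fun x => x ∈ H)).erase 1).card := by
    apply Finset.card_le_card_of_injOn t
    · intro x hx
      have hx' : x ∉ B := by simpa using hx
      have := hmap x hx'
      simp only [Finset.coe_erase, Finset.coe_filter, Finset.mem_univ, true_and, Set.mem_diff,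
        Set.mem_setOf_eq, Set.mem_singleton_iff]
      exact this
    · intro x hx y hy hxy
      have hx' : x ∉ B := by simpa using hx
      have hy' : y ∉ B := by simpa using hy
      have hmemX : ∀ z, z ∉ B → z ∈ X := by
        intro z hz
        rw [hX]
        refine ⟨?_, ?_⟩
        · rintro rfl; exact hz B.one_mem
        · rintro rfl; exact hz hmB
      exact hinj (hmemX x hx') (hmemX y hy') hxy
  have e1 : (Finset.univ.filter (fun x => x ∈ H)).card = Nat.card H := by
    rw [Nat.card_eq_fintype_card, Fintype.card_subtype]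
  have e2 : (Finset.univ.filter (fun x => x ∈ B)).card = Nat.card B := by
    rw [Nat.card_eq_fintype_card, Fintype.card_subtype]
  have e3 : (Finset.univ.filter (fun x => x ∈ B)).card +
      (Finset.univ.filter (fun x => x ∉ B)).card = Nat.card G := by
    rw [Nat.card_eq_fintype_card, ← Finset.card_univ]
    exact Finset.card_filter_add_card_filter_not _
  have e4 : (1 : G) ∈ Finset.univ.filter (fun x => x ∈ H) := by simp [H.one_mem]
  rw [Finset.card_erase_of_mem e4, e1] at hcard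
  have c1 := CYC_.half H hH
  have c2 := CYC_.half B hB
  have c3 : 0 < Nat.card H := Nat.card_pos
  omega

end UQL
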