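import Pool.Agent.UQL.T
set_option autoImplicit false
set_option linter.all false

/-!
# UQL: the target T_EXP (partners of points and lines)
-/

namespace UQL

open Configuration

universe u v u' v' w

namespace EXP_

variable {P : Type u} {L : Type v} {P' : Type u'} {L' : Type v'} [Membership P L]
  [ProjectivePlane P L] [Membership P' L'] [ProjectivePlane P' L'] {τ : Coll P L}
  {τ' : Coll P' L'} {a : L} {c : P} {a' : L'} {c' : P'}

lemma fix_c {τ : Coll P L} {a : L} {c : P} (h : AC τ a c) : τ.pt c = c :=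
  (h.2.1 c).2 (Or.inl rfl)

lemma fix_a {τ : Coll P L} {a : L} {c : P} (h : AC τ a c) : τ.ln a = a :=
  (h.2.2.1 a).2 (Or.inl rfl)

lemma fix_pa {τ : Coll P L} {a : L} {c : P} (h : AC τ a c) {p : P} (hp : p ∈ a) :
    τ.pt p = p := (h.2.1 p).2 (Or.inr hp)

lemma fix_lc {τ : Coll P L} {a : L} {c : P} (h : AC τ a c) {l : L} (hl : c ∈ l) :
    τ.ln l = l := (h.2.2.1 l).2 (Or.inr hl)

lemma symm' {F : {p : P // τ.pt p ≠ p} ≃ {p : P' // τ'.pt p ≠ p}}
    {G : {l : L // τ.ln l ≠ l} ≃ {l : L' // τ'.ln l ≠ l}} (h : MovIso τ τ' F G) :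
    MovIso τ' τ F.symm G.symm := by
  intro p l
  have h1 := h (F.symm p) (G.symm l)
  rw [Equiv.apply_symm_apply, Equiv.apply_symm_apply] at h1
  exact h1.symm

/-- moved lines through a point of the axis -/
lemma keyA (hA : AC τ a c) (hA' : AC τ' a' c')
    {F : {p : P // τ.pt p ≠ p} ≃ {p : P' // τ'.pt p ≠ p}}
    {G : {l : L // τ.ln l ≠ l} ≃ {l : L' // τ'.ln l ≠ l}} (h : MovIso τ τ' F G)
    (l m : {l : L // τ.ln l ≠ l}) (p : P) (p' : P') (hpa : p ∈ a) (hpl : p ∈ l.1)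
    (hpm : p ∈ m.1) (hpa' : p' ∈ a') (hpm' : p' ∈ (G m).1) : p' ∈ (G l).1 := by
  by_cases hlm : l = m
  · rw [hlm]
    exact hpm'
  have hG : (G l).1 ≠ (G m).1 := fun h1 => hlm (G.injective (Subtype.ext h1))
  obtain ⟨hx1, hx2⟩ := HasPoints.mkPoint_ax (P := P') hG
  set x : P' := HasPoints.mkPoint hG with hx
  have hfix : τ'.pt x = x := by
    by_contra hmov
    have h1 := h (F.symm ⟨x, hmov⟩) l
    have h2 := h (F.symm ⟨x, hmov⟩) m
    rw [Equiv.apply_symm_apply] at h1 h2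
    have h3 := h1.1 hx1
    have h4 := h2.1 hx2
    rcases Nondegenerate.eq_or_eq h3 hpl h4 hpm with h5 | h5
    · have h6 := (F.symm ⟨x, hmov⟩).2
      rw [h5] at h6
      exact h6 (fix_pa hA hpa)
    · exact hlm (Subtype.ext h5)
  rcases (hA'.2.1 x).1 hfix with h1 | h1
  · exact absurd (fix_lc hA' (h1 ▸ hx1)) (G l).2
  · rcases Nondegenerate.eq_or_eq h1 hpa' hx2 hpm' with h5 | h5
    · rw [← h5]
      exact hx1
    · exact absurd (h5 ▸ fix_a hA') (G m).2

/-- moved points on a line through the centre -/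
lemma keyB (hA : AC τ a c) (hA' : AC τ' a' c')
    {F : {p : P // τ.pt p ≠ p} ≃ {p : P' // τ'.pt p ≠ p}}
    {G : {l : L // τ.ln l ≠ l} ≃ {l : L' // τ'.ln l ≠ l}} (h : MovIso τ τ' F G)
    (p q : {p : P // τ.pt p ≠ p}) (l : L) (l' : L') (hcl : c ∈ l) (hpl : p.1 ∈ l)
    (hql : q.1 ∈ l) (hcl' : c' ∈ l') (hql' : (F q).1 ∈ l') : (F p).1 ∈ l' := by
  by_cases hpq : p = q
  · rw [hpq]
    exact hql'
  have hF : (F p).1 ≠ (F q).1 := fun h1 => hpq (F.injective (Subtype.ext h1))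
  obtain ⟨hx1, hx2⟩ := HasLines.mkLine_ax (L := L') hF
  set x : L' := HasLines.mkLine hF with hx
  have hfix : τ'.ln x = x := by
    by_contra hmov
    have h1 := h p (G.symm ⟨x, hmov⟩)
    have h2 := h q (G.symm ⟨x, hmov⟩)
    rw [Equiv.apply_symm_apply] at h1 h2
    have h3 := h1.1 hx1
    have h4 := h2.1 hx2
    rcases Nondegenerate.eq_or_eq h3 h4 hpl hql with h5 | h5
    · exact hpq (Subtype.ext h5)
    · have h6 := (G.symm ⟨x, hmov⟩).2
      rw [h5] at h6
      exact h6 (fix_lc hA hcl)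
  rcases (hA'.2.2.1 x).1 hfix with h1 | h1
  · exact absurd (fix_pa hA' (h1 ▸ hx1)) (F p).2
  · rcases Nondegenerate.eq_or_eq h1 hx2 hcl' hql' with h5 | h5
    · exact absurd (h5 ▸ fix_c hA') (F q).2
    · rw [← h5]
      exact hx1

end EXP_

open EXP_ in
theorem p_EXP (h1 : T_SEP.{u, v}) : T_EXP.{u, v, u', v'} := by
  intro P L P' L' _ _ _ _ _ _ _ _ τ τ' a c a' c' hA hA' F G hM
  obtain ⟨-, -, hs3, hs4⟩ := h1 P L τ a c hA
  have hM' := symm' hM
  constructor
  · intro p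
    by_cases hp : τ.pt p = p
    · rcases (hA.2.1 p).1 hp with hpc | hpa
      · refine ⟨c', by simp [hpc], ?_, ?_⟩
        · rw [hpc]
          exact iff_of_false hA.1 hA'.1
        · intro l
          rw [hpc]
          exact iff_of_false (fun h2 => l.2 (fix_lc hA h2))
            (fun h2 => (G l).2 (fix_lc hA' h2))
      · have hpc : p ≠ c := fun h2 => hA.1 (h2 ▸ hpa)
        obtain ⟨l₀, hl₀, hpl₀⟩ := hs3 p hpc
        set m : {l : L // τ.ln l ≠ l} := ⟨l₀, hl₀⟩ with hm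
        have hne : a' ≠ (G m).1 := fun h2 => (G m).2 (h2 ▸ fix_a hA')
        obtain ⟨hx1, hx2⟩ := HasPoints.mkPoint_ax (P := P') hne
        set p' : P' := HasPoints.mkPoint hne with hp'
        have hpc' : p' ≠ c' := fun h2 => hA'.1 (h2 ▸ hx1)
        refine ⟨p', iff_of_false hpc hpc', iff_of_true hpa hx1, fun l => ⟨fun h2 => ?_,
          fun h2 => ?_⟩⟩
        · exact keyA hA hA' hM l m p p' hpa h2 hpl₀ hx1 hx2
        · have h3 := keyA hA' hA hM' (G l) (G m) p' p hx1 h2 hx2 hpa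
            (by rw [Equiv.symm_apply_apply]; exact hpl₀)
          rw [Equiv.symm_apply_apply] at h3
          exact h3
    · refine ⟨(F ⟨p, hp⟩).1, iff_of_false (fun h2 => hp (h2 ▸ fix_c hA))
        (fun h2 => (F ⟨p, hp⟩).2 (h2 ▸ fix_c hA')), iff_of_false (fun h2 => hp (fix_pa hA h2))
        (fun h2 => (F ⟨p, hp⟩).2 (fix_pa hA' h2)), fun l => (hM ⟨p, hp⟩ l).symm⟩
  · intro l
    by_cases hl : τ.ln l = l
    · rcases (hA.2.2.1 l).1 hl with hla | hlc
      · refine ⟨a', by simp [hla], ?_, ?_⟩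
        · rw [hla]
          exact iff_of_false hA.1 hA'.1
        · intro p
          rw [hla]
          exact iff_of_false (fun h2 => p.2 (fix_pa hA h2))
            (fun h2 => (F p).2 (fix_pa hA' h2))
      · have hla : l ≠ a := fun h2 => hA.1 (h2 ▸ hlc)
        obtain ⟨p₀, hp₀, hpl₀⟩ := hs4 l hla
        set q : {p : P // τ.pt p ≠ p} := ⟨p₀, hp₀⟩ with hq
        have hne : c' ≠ (F q).1 := fun h2 => (F q).2 (h2 ▸ fix_c hA')
        obtain ⟨hx1, hx2⟩ := HasLines.mkLine_ax (L := L') hne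
        set l' : L' := HasLines.mkLine hne with hl'
        have hla' : l' ≠ a' := fun h2 => hA'.1 (h2 ▸ hx1)
        refine ⟨l', iff_of_false hla hla', iff_of_true hlc hx1, fun p => ⟨fun h2 => ?_,
          fun h2 => ?_⟩⟩
        · exact keyB hA hA' hM p q l l' hlc h2 hpl₀ hx1 hx2
        · have h3 := keyB hA' hA hM' (F p) (F q) l' l hx1 h2 hx2 hlc
            (by rw [Equiv.symm_apply_apply]; exact hpl₀)
          rw [Equiv.symm_apply_apply] at h3
          exact h3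
    · refine ⟨(G ⟨l, hl⟩).1, iff_of_false (fun h2 => hl (h2 ▸ fix_a hA))
        (fun h2 => (G ⟨l, hl⟩).2 (h2 ▸ fix_a hA')), iff_of_false (fun h2 => hl (fix_lc hA h2))
        (fun h2 => (G ⟨l, hl⟩).2 (fix_lc hA' h2)), fun p => (hM p ⟨l, hl⟩).symm⟩

end UQL
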