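import Pool.Agent.UQL.T
set_option autoImplicit false

/-!
# UQL: basic facts on involutory homologies (FIX)
-/

namespace UQL

open Configuration Configuration.Nondegenerate
open Configuration.HasPoints (mkPoint mkPoint_ax)
open Configuration.HasLines (mkLine mkLine_ax)

universe u v

/-- A third point on a line. -/
theorem FIX_three {P : Type u} {L : Type v} [Membership P L] [ProjectivePlane P L] [Finite P]
    [Finite L] (l : L) (p q : P) : ∃ x : P, x ∈ l ∧ x ≠ p ∧ x ≠ q := by
  by_contra hcon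
  push Not at hcon
  have h1 : 2 < pointCount P l := ProjectivePlane.two_lt_pointCount P l
  have h2 : pointCount P l = Set.ncard {x : P | x ∈ l} := by
    unfold pointCount
    exact Nat.card_coe_set_eq {x : P | x ∈ l}
  have h3 : {x : P | x ∈ l} ⊆ ({p, q} : Set P) := by
    intro x hx
    rcases eq_or_ne x p with h | h
    · exact Or.inl h
    · exact Or.inr (hcon x hx h)
  have h4 := Set.ncard_le_ncard h3 (Set.toFinite _)
  have h5 : Set.ncard ({p, q} : Set P) ≤ 2 := by
    refine (Set.ncard_insert_le p {q}).trans ?_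
    rw [Set.ncard_singleton]
  omega

/-- A point off two lines. -/
theorem FIX_off {P : Type u} {L : Type v} [Membership P L] [ProjectivePlane P L] [Finite P]
    [Finite L] (l m : L) : ∃ x : P, x ∉ l ∧ x ∉ m := by
  rcases eq_or_ne l m with h | h
  · obtain ⟨x, hx⟩ := exists_point (P := P) l
    exact ⟨x, hx, h ▸ hx⟩
  · obtain ⟨p, hpl, hpy, -⟩ := FIX_three l (mkPoint (P := P) h) (mkPoint (P := P) h)
    obtain ⟨q, hqm, hqy, -⟩ := FIX_three m (mkPoint (P := P) h) (mkPoint (P := P) h)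
    have hy := mkPoint_ax (P := P) h
    have hpm : p ∉ m := fun h1 => by
      rcases eq_or_eq hpl hy.1 h1 hy.2 with h2 | h2
      · exact hpy h2
      · exact h h2
    have hql : q ∉ l := fun h1 => by
      rcases eq_or_eq h1 hy.1 hqm hy.2 with h2 | h2
      · exact hqy h2
      · exact h h2
    have hpq : p ≠ q := fun h1 => hpm (h1 ▸ hqm)
    obtain ⟨x, hx, hxp, hxq⟩ := FIX_three (mkLine (L := L) hpq) p q
    have hk := mkLine_ax (L := L) hpq
    refine ⟨x, fun h1 => ?_, fun h1 => ?_⟩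
    · rcases eq_or_eq hx hk.1 h1 hpl with h2 | h2
      · exact hxp h2
      · exact hql (h2 ▸ hk.2)
    · rcases eq_or_eq hx hk.2 h1 hqm with h2 | h2
      · exact hxq h2
      · exact hpm (h2 ▸ hk.1)

/-- FIX: basic facts on involutory homologies. -/
theorem p_FIX : T_FIX.{u, v} := by
  intro P L _ _ _ _ τ hτ
  obtain ⟨hinv, ⟨p₀, hp₀⟩, a, c, ha, hca, hc⟩ := hτ
  have hm : ∀ (p : P) (l : L), p ∈ l → τ.pt p ∈ τ.ln l := fun p l h => (τ.mem_iff p l).2 h
  -- a line with two fixed points is fixed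
  have hfl : ∀ (l : L) (p q : P), p ≠ q → p ∈ l → q ∈ l → τ.pt p = p → τ.pt q = q →
      τ.ln l = l := by
    intro l p q hpq hp hq h1 h2
    have h3 := hm p l hp
    have h4 := hm q l hq
    rw [h1] at h3
    rw [h2] at h4
    exact (eq_or_eq h3 h4 hp hq).resolve_left hpq
  have haa : τ.ln a = a := by
    obtain ⟨p, hp, -, -⟩ := FIX_three a c c
    obtain ⟨q, hq, hqp, -⟩ := FIX_three a p p
    exact hfl a p q (Ne.symm hqp) hp hq (ha p hp) (ha q hq)
  have hcl : ∀ l : L, c ∈ l → τ.ln l = l := by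
    intro l hl
    have hla : l ≠ a := fun h => hca (h ▸ hl)
    have hx := mkPoint_ax (P := P) hla
    refine hfl l (mkPoint (P := P) hla) c (fun h => hca (h ▸ hx.2)) hx.1 hl (ha _ hx.2) hc
  -- a fixed point off the axis different from the centre
  have h3 : ∀ z : P, z ≠ c → z ∉ a → τ.pt z = z → ∀ m : L, z ∈ m → c ∈ m → ∀ y : P, y ∉ m →
      τ.pt y = y := by
    intro z hzc hza hz m hzm hcm y hy
    have hyz : y ≠ z := fun h => hy (h ▸ hzm)
    have hyc : y ≠ c := fun h => hy (h ▸ hcm)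
    have hk := mkLine_ax (L := L) hyz
    have hk' := mkLine_ax (L := L) hyc
    have e1 : τ.ln (mkLine (L := L) hyz) = mkLine (L := L) hyz := by
      have hla : mkLine (L := L) hyz ≠ a := fun h => hza (h ▸ hk.2)
      have hx := mkPoint_ax (P := P) hla
      exact hfl _ (mkPoint (P := P) hla) z (fun h => hza (h ▸ hx.2)) hx.1 hk.2 (ha _ hx.2) hz
    have e2 := hcl _ hk'.2
    have h5 := hm y _ hk.1
    have h6 := hm y _ hk'.1
    rw [e1] at h5
    rw [e2] at h6
    refine (eq_or_eq h5 hk.1 h6 hk'.1).resolve_right fun h => ?_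
    -- the two lines are equal, so the line contains `y, z, c`
    have h7 : c ∈ mkLine (L := L) hyz := h ▸ hk'.2
    rcases eq_or_eq hk.2 h7 hzm hcm with h8 | h8
    · exact hzc h8
    · exact hy (h8 ▸ hk.1)
  have h4 : ∀ p : P, τ.pt p = p → p = c ∨ p ∈ a := by
    intro p hp
    by_contra hcon
    push Not at hcon
    obtain ⟨hpc, hpa⟩ := hcon
    have hk := mkLine_ax (L := L) hpc
    obtain ⟨z, hz1, hz2⟩ := FIX_off (P := P) (mkLine (L := L) hpc) a
    have hz := h3 p hpc hpa hp _ hk.1 hk.2 z hz1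
    have hzc : z ≠ c := fun h => hz1 (h ▸ hk.2)
    have hk' := mkLine_ax (L := L) hzc
    by_cases hy : p₀ ∈ mkLine (L := L) hpc
    · rcases eq_or_ne p₀ c with h | h
      · exact hp₀ (by rw [h, hc])
      · refine hp₀ (h3 z hzc hz2 hz _ hk'.1 hk'.2 p₀ fun h5 => ?_)
        rcases eq_or_eq h5 hk'.2 hy hk.2 with h6 | h6
        · exact h h6
        · exact hz1 (h6 ▸ hk'.1)
    · exact hp₀ (h3 p hpc hpa hp _ hk.1 hk.2 p₀ hy)
  have h5 : ∀ (p : P) (l : L), τ.pt p ≠ p → p ∈ l → τ.pt p ∈ l → τ.ln l = l := by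
    intro p l hp h1 h2
    have h6 := hm p l h1
    have h7 := hm _ l h2
    rw [hinv] at h7
    exact (eq_or_eq h6 h7 h2 h1).resolve_left hp
  refine ⟨a, c, hca, fun p => ⟨h4 p, ?_⟩, fun l => ⟨?_, ?_⟩, h5, hinv, ?_⟩
  · rintro (h | h)
    · rw [h, hc]
    · exact ha p h
  · intro hl
    rcases eq_or_ne l a with h | h
    · exact Or.inl h
    right
    have hx := mkPoint_ax (P := P) h
    obtain ⟨y, hy, hyx, -⟩ := FIX_three l (mkPoint (P := P) h) (mkPoint (P := P) h)
    have hya : y ∉ a := fun h1 => by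
      rcases eq_or_eq hy hx.1 h1 hx.2 with h2 | h2
      · exact hyx h2
      · exact h h2
    rcases eq_or_ne y c with h1 | h1
    · exact h1 ▸ hy
    have hym : τ.pt y ≠ y := fun h2 => by
      rcases h4 y h2 with h3 | h3
      · exact h1 h3
      · exact hya h3
    have h2 := hm y l hy
    rw [hl] at h2
    have hk := mkLine_ax (L := L) h1
    have h6 := hm y _ hk.1
    rw [hcl _ hk.2] at h6
    rcases eq_or_eq h2 hy h6 hk.1 with h7 | h7
    · exact absurd h7 hym
    · rw [h7]
      exact hk.2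
  · rintro (h | h)
    · rw [h, haa]
    · exact hcl l h
  · intro l
    obtain ⟨p, hp, -, -⟩ := FIX_three l c c
    obtain ⟨q, hq, hqp, -⟩ := FIX_three l p p
    have h6 := hm _ _ (hm p l hp)
    have h7 := hm _ _ (hm q l hq)
    rw [hinv] at h6 h7
    exact (eq_or_eq h7 h6 hq hp).resolve_left hqp

end UQL
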