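import Pool.Agent.UQL.T
set_option autoImplicit false
set_option linter.all false

/-!
# UQL target FOU: Fourier analysis in characteristic 2
-/

namespace UQL

open Configuration

theorem p_FOU.{w} : T_FOU.{w} := by
  intro K _ _ h2
  classical
  have hK2 : ringChar K ≠ 2 := by
    intro h
    apply h2
    have h3 := ringChar.Nat.cast_ringChar (R := K)
    rw [h] at h3
    exact_mod_cast h3
  have hch : ringChar (ZMod 2) ≠ ringChar K := by
    intro h
    apply hK2
    rw [← h, ZMod.ringChar_zmod_n]
  obtain ⟨n, ψ, hψ⟩ := AddChar.FiniteField.primitiveChar K (ZMod 2) hch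
  have hE : CharP (CyclotomicField n (ZMod 2)) 2 :=
    charP_of_injective_algebraMap (algebraMap (ZMod 2) (CyclotomicField n (ZMod 2))).injective 2
  refine ⟨CyclotomicField n (ZMod 2), inferInstance, hE, ψ, ?_, ?_⟩
  · intro b hb
    by_contra hcon
    push Not at hcon
    apply hψ hb
    ext x
    rw [AddChar.mulShift_apply, hcon x, AddChar.one_apply]
  · intro f hf
    have hc : (Fintype.card K : CyclotomicField n (ZMod 2)) ≠ 0 := by
      intro h
      have h4 := (CharP.cast_eq_zero_iff (CyclotomicField n (ZMod 2)) 2 (Fintype.card K)).1 h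
      apply hK2
      rw [FiniteField.even_card_iff_char_two]
      omega
    have key : ∀ z, (Fintype.card K : CyclotomicField n (ZMod 2)) * f z = ∑ y, f y := by
      intro z
      have e1 : ∑ b, ψ (-(b * z)) * (∑ y, ψ (b * y) * f y) = ∑ y, f y := by
        rw [Finset.sum_eq_single 0]
        · simp
        · intro b _ hb
          rw [hf b hb, mul_zero]
        · intro h
          exact absurd (Finset.mem_univ _) h
      have e2 : ∑ b, ψ (-(b * z)) * (∑ y, ψ (b * y) * f y) =
          ∑ y, f y * ∑ b, ψ (b * (y - z)) := by
        simp_rw [Finset.mul_sum]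
        rw [Finset.sum_comm]
        refine Finset.sum_congr rfl fun y _ => Finset.sum_congr rfl fun b _ => ?_
        have e3 : b * (y - z) = -(b * z) + b * y := by ring
        rw [e3, AddChar.map_add_eq_mul]
        ring
      rw [← e1, e2, Finset.sum_eq_single z]
      · rw [AddChar.sum_mulShift _ hψ, sub_self, if_pos rfl]
        ring
      · intro y _ hy
        rw [AddChar.sum_mulShift _ hψ, if_neg (sub_ne_zero.2 hy)]
        simp
      · intro h
        exact absurd (Finset.mem_univ _) h
    intro z
    exact mul_left_cancel₀ hc ((key z).trans (key 0).symm)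

end UQL
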