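import Pool.Agent.UQL.T
set_option autoImplicit false
set_option linter.all false

/-!
# UQL: INV, inverses of the elements outside a proper subgroup
-/

namespace UQL

universe w

theorem p_INV : T_INV.{w} := by
  intro K _ _ M hM
  by_contra hcon
  have h : ∀ x : K, x ≠ 0 → x ∉ M → x⁻¹ ∈ M := by
    intro x h1 h2
    by_contra h3
    exact hcon ⟨x, h1, h2, h3⟩
  obtain ⟨g, hg⟩ : ∃ g : K, g ∉ M := by
    by_contra h1
    apply hM
    rw [eq_top_iff]
    intro x _
    by_contra h2
    exact h1 ⟨x, h2⟩
  have h1 : ∀ m : M, g + (m : K) ∉ M := by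
    intro m hm
    have h2 := M.sub_mem hm m.2
    rw [add_sub_cancel_right] at h2
    exact hg h2
  have h2 : ∀ m : M, g + (m : K) ≠ 0 := by
    intro m hm
    apply h1 m
    rw [hm]
    exact M.zero_mem
  let f : M → M := fun m => ⟨(g + (m : K))⁻¹, h _ (h2 m) (h1 m)⟩
  have hf : Function.Injective f := by
    intro m m' hmm
    have h3 : (g + (m : K))⁻¹ = (g + (m' : K))⁻¹ := congrArg Subtype.val hmm
    have h4 : g + (m : K) = g + (m' : K) := inv_injective h3
    exact Subtype.ext (add_left_cancel h4)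
  have hs : Function.Surjective f := Finite.injective_iff_surjective.1 hf
  obtain ⟨m, hm⟩ := hs 0
  have h3 : (g + (m : K))⁻¹ = 0 := congrArg Subtype.val hm
  exact h2 m (inv_eq_zero.1 h3)

end UQL
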