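import Pool.Agent.UQL.T
set_option autoImplicit false

/-!
# UQL: coordinates for the lift (LFT)
-/

namespace UQL

open Configuration Configuration.Nondegenerate

universe u v u' v' w

namespace LFT_

/-- orbits of size two of a permutation -/
def Orb {X : Type u} (σ : Equiv.Perm X) : Type u := {s : Set X // ∃ p, σ p ≠ p ∧ s = {p, σ p}}

theorem orb_eq {X : Type u} {σ : Equiv.Perm X} (hσ : ∀ x, σ x ≠ x → σ (σ x) = x) {s : Set X}
    {x : X} (hs : ∃ p, σ p ≠ p ∧ s = {p, σ p}) (hx : x ∈ s) : s = {x, σ x} ∧ σ x ≠ x := by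
  obtain ⟨p, hp, hs⟩ := hs
  rw [hs] at hx
  rcases hx with hx | hx
  · rw [hx]
    exact ⟨hs, hp⟩
  · rw [Set.mem_singleton_iff] at hx
    rw [hx, hσ p hp]
    exact ⟨by rw [hs, Set.pair_comm], fun h => hp h.symm⟩

theorem neg_ne {K : Type w} [Field K] (h2 : (2 : K) ≠ 0) {v : K × K} (hv : v ≠ 0) : -v ≠ v := by
  intro h
  apply hv
  have h3 : v + v = 0 := by
    nth_rewrite 1 [← h]
    exact neg_add_cancel v
  have h4 : (2 : K) • v = 0 := by rw [two_smul]; exact h3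
  rcases smul_eq_zero.1 h4 with h5 | h5
  · exact absurd h5 h2
  · exact h5

/-- coordinates on one side -/
structure Sd {K : Type w} [Field K] {X : Type u} (σ : Equiv.Perm X) (φ : K × K → X) : Prop where
  neg : ∀ v, v ≠ 0 → σ (φ v) = φ (-v)
  inj : ∀ v v', v ≠ 0 → v' ≠ 0 → φ v = φ v' → v = v'
  surj : ∀ x, σ x ≠ x → ∃ v, v ≠ 0 ∧ φ v = x

theorem Sd.mov {K : Type w} [Field K] (h2 : (2 : K) ≠ 0) {X : Type u} {σ : Equiv.Perm X}
    {φ : K × K → X} (h : Sd σ φ) {v : K × K} (hv : v ≠ 0) : σ (φ v) ≠ φ v := by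
  intro h1
  rw [h.neg v hv] at h1
  exact neg_ne h2 hv (h.inj _ _ (neg_ne_zero.2 hv) hv h1)

theorem side {K : Type w} [Field K] [Fintype K] (h2 : (2 : K) ≠ 0) {X : Type u} {X' : Type u'}
    (σ : Equiv.Perm X) (σ' : Equiv.Perm X') (hσ : ∀ x, σ (σ x) = x) (x₀ : X) (φ' : K × K → X')
    (h' : Sd σ' φ') (e : Orb σ ≃ Orb σ') :
    ∃ φ : K × K → X, Sd σ φ ∧ ∀ v, v ≠ 0 → ∀ s : Orb σ, φ v ∈ s.1 ↔ φ' v ∈ (e s).1 := by
  classical
  have hσ' : ∀ x, σ' x ≠ x → σ' (σ' x) = x := by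
    intro x hx
    obtain ⟨v, hv, rfl⟩ := h'.surj x hx
    rw [h'.neg v hv, h'.neg (-v) (neg_ne_zero.2 hv), neg_neg]
  have hσ2 : ∀ x, σ x ≠ x → σ (σ x) = x := fun x _ => hσ x
  have : Nonempty X := ⟨x₀⟩
  have hex : ∀ v : K × K, v ≠ 0 → ∃ x : X, ∃ s : Orb σ, x ∈ s.1 ∧
      (e s).1 = {φ' v, φ' (-v)} := by
    intro v hv
    obtain ⟨o, ho⟩ : ∃ o : Orb σ', o.1 = {φ' v, σ' (φ' v)} :=
      ⟨⟨_, φ' v, h'.mov h2 hv, rfl⟩, rfl⟩
    obtain ⟨x, hx, hs⟩ := (e.symm o).2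
    refine ⟨x, e.symm o, ?_, ?_⟩
    · rw [hs]
      exact Set.mem_insert _ _
    · rw [Equiv.apply_symm_apply, ho, h'.neg v hv]
  choose! f hf using hex
  obtain ⟨pos, hpos⟩ : ∃ pos : K × K → Prop, ∀ v, v ≠ 0 → (pos (-v) ↔ ¬ pos v) := by
    refine ⟨fun v => Fintype.equivFin (K × K) v < Fintype.equivFin (K × K) (-v), fun v hv => ?_⟩
    simp only [neg_neg, not_lt]
    constructor
    · exact le_of_lt
    · intro h3
      exact lt_of_le_of_ne h3 fun h4 => neg_ne h2 hv ((Fintype.equivFin (K × K)).injective h4)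
  obtain ⟨φ, hφ⟩ : ∃ φ : K × K → X, ∀ v, φ v = if pos v then f v else σ (f (-v)) :=
    ⟨_, fun _ => rfl⟩
  have hA : ∀ v, v ≠ 0 → ∃ s : Orb σ, φ v ∈ s.1 ∧ (e s).1 = {φ' v, φ' (-v)} := by
    intro v hv
    rw [hφ]
    by_cases h3 : pos v
    · rw [if_pos h3]
      exact hf v hv
    · rw [if_neg h3]
      obtain ⟨s, hs1, hs2⟩ := hf (-v) (neg_ne_zero.2 hv)
      refine ⟨s, ?_, ?_⟩
      · rw [(orb_eq hσ2 s.2 hs1).1]
        exact Set.mem_insert_of_mem _ rfl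
      · rw [hs2, neg_neg, Set.pair_comm]
  have hneg : ∀ v, v ≠ 0 → σ (φ v) = φ (-v) := by
    intro v hv
    rw [hφ v, hφ (-v), neg_neg]
    by_cases h3 : pos v
    · rw [if_pos h3, if_neg (fun h4 => (hpos v hv).1 h4 h3)]
    · rw [if_neg h3, if_pos ((hpos v hv).2 h3), hσ]
  have hmem : ∀ v, v ≠ 0 → ∀ s : Orb σ, φ v ∈ s.1 ↔ φ' v ∈ (e s).1 := by
    intro v hv s
    obtain ⟨s₀, h3, h4⟩ := hA v hv
    constructor
    · intro h5
      have h6 : s = s₀ := Subtype.ext ((orb_eq hσ2 s.2 h5).1.trans (orb_eq hσ2 s₀.2 h3).1.symm)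
      rw [h6, h4]
      exact Set.mem_insert _ _
    · intro h5
      have h6 : e s = e s₀ := by
        refine Subtype.ext ((orb_eq hσ' (e s).2 h5).1.trans ?_)
        rw [h4, h'.neg v hv]
      rw [e.injective h6]
      exact h3
  refine ⟨φ, ⟨hneg, ?_, ?_⟩, hmem⟩
  · intro v v' hv hv' h3
    obtain ⟨s, h4, h5⟩ := hA v hv
    have h6 : φ' v' ∈ (e s).1 := (hmem v' hv' s).1 (h3 ▸ h4)
    rw [h5] at h6
    rcases h6 with h6 | h6
    · exact (h'.inj _ _ hv' hv h6).symm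
    · have h7 : v' = -v := h'.inj _ _ hv' (neg_ne_zero.2 hv) h6
      rw [h7, ← hneg v hv] at h3
      exact absurd h3.symm (orb_eq hσ2 s.2 h4).2
  · intro x hx
    obtain ⟨p, hp, hs⟩ := (e ⟨{x, σ x}, x, hx, rfl⟩).2
    obtain ⟨z, hz, rfl⟩ := h'.surj p hp
    have h3 : φ' z ∈ (e ⟨{x, σ x}, x, hx, rfl⟩).1 := by
      rw [hs]
      exact Set.mem_insert _ _
    have h4 := (hmem z hz _).2 h3
    rcases h4 with h4 | h4
    · exact ⟨z, hz, h4⟩
    · refine ⟨-z, neg_ne_zero.2 hz, ?_⟩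
      rw [← hneg z hz, h4, hσ]

theorem twist {K : Type w} [Field K] {X : Type u} {σ : Equiv.Perm X}
    {φ : K × K → X} (h : Sd σ φ) (α : K × K → ZMod 2) (hα : ∀ v, α (-v) = α v) :
    Sd σ (fun v => if α v = 0 then φ v else φ (-v)) := by
  refine ⟨?_, ?_, ?_⟩
  · intro v hv
    simp only [hα, neg_neg]
    by_cases h1 : α v = 0
    · rw [if_pos h1, if_pos h1, h.neg v hv]
    · rw [if_neg h1, if_neg h1, h.neg (-v) (neg_ne_zero.2 hv), neg_neg]
  · intro v v' hv hv' h1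
    by_cases h3 : α v = 0 <;> by_cases h4 : α v' = 0
    · simp only [h3, h4, if_true] at h1
      exact h.inj _ _ hv hv' h1
    · simp only [h3, if_true, if_neg h4] at h1
      have h5 := h.inj _ _ hv (neg_ne_zero.2 hv') h1
      rw [h5, hα] at h3
      exact absurd h3 h4
    · simp only [h4, if_true, if_neg h3] at h1
      have h5 := h.inj _ _ (neg_ne_zero.2 hv) hv' h1
      rw [← h5, hα] at h4
      exact absurd h4 h3
    · simp only [if_neg h3, if_neg h4] at h1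
      exact neg_injective (h.inj _ _ (neg_ne_zero.2 hv) (neg_ne_zero.2 hv') h1)
  · intro x hx
    obtain ⟨v, hv, h1⟩ := h.surj x hx
    by_cases h3 : α v = 0
    · exact ⟨v, hv, by simp only [h3, if_true]; exact h1⟩
    · refine ⟨-v, neg_ne_zero.2 hv, ?_⟩
      simp only [hα, if_neg h3, neg_neg]
      exact h1

theorem twist_mem {K : Type w} [Field K] {X : Type u} {σ : Equiv.Perm X}
    (hσ : ∀ x, σ (σ x) = x) {φ : K × K → X} (h : Sd σ φ) (α : K × K → ZMod 2)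
    (s : Orb σ) {v : K × K} (hv : v ≠ 0) :
    (if α v = 0 then φ v else φ (-v)) ∈ s.1 ↔ φ v ∈ s.1 := by
  by_cases h1 : α v = 0
  · rw [if_pos h1]
  · rw [if_neg h1, ← h.neg v hv]
    have h2 : ∀ x, x ∈ s.1 → σ x ∈ s.1 := by
      intro x hx
      rw [(orb_eq (fun x _ => hσ x) s.2 hx).1]
      exact Set.mem_insert_of_mem _ rfl
    constructor
    · intro h3
      have h4 := h2 _ h3
      rwa [hσ] at h4
    · exact h2 _

theorem qinc {P : Type u} {L : Type v} [Membership P L] (τ : Coll P L) {p p₂ : P} {l l₂ : L}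
    (h1 : τ.pt p = p₂) (h2 : τ.pt p₂ = p) (h3 : τ.ln l₂ = l) :
    (∃ x ∈ ({p, p₂} : Set P), ∃ m ∈ ({l, l₂} : Set L), x ∈ m) ↔ (p ∈ l ∨ p₂ ∈ l) := by
  have h4 : p ∈ l₂ ↔ p₂ ∈ l := by rw [← τ.mem_iff, h1, h3]
  have h5 : p₂ ∈ l₂ ↔ p ∈ l := by rw [← τ.mem_iff, h2, h3]
  constructor
  · rintro ⟨x, hx | hx, m, hm | hm, hxm⟩
    · rw [hx, hm] at hxm
      exact Or.inl hxm
    · rw [Set.mem_singleton_iff] at hm
      rw [hx, hm, h4] at hxm
      exact Or.inr hxm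
    · rw [Set.mem_singleton_iff] at hx
      rw [hx, hm] at hxm
      exact Or.inr hxm
    · rw [Set.mem_singleton_iff] at hx hm
      rw [hx, hm, h5] at hxm
      exact Or.inl hxm
  · rintro (h | h)
    · exact ⟨p, Set.mem_insert _ _, l, Set.mem_insert _ _, h⟩
    · exact ⟨p₂, Set.mem_insert_of_mem _ rfl, l, Set.mem_insert _ _, h⟩

open Classical in
/-- the value of the cocycle -/
noncomputable def GG {K : Type w} [Field K] (d : K) (I : Prop) : ZMod 2 :=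
  if d = 1 then (if I then 0 else 1) else if d = -1 then (if I then 1 else 0) else 0

theorem GG_neg {K : Type w} [Field K] (h : (1 : K) ≠ -1) (d : K) (I J : Prop)
    (hIJ : d = 1 ∨ d = -1 → (J ↔ ¬ I)) : GG (-d) J = GG d I := by
  unfold GG
  by_cases h1 : d = 1
  · have h3 := hIJ (Or.inl h1)
    rw [h1, if_neg (Ne.symm h), if_pos rfl, if_pos rfl]
    by_cases h4 : I
    · rw [if_pos h4, if_neg (fun h5 => (h3.1 h5) h4)]
    · rw [if_neg h4, if_pos (h3.2 h4)]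
  · by_cases h2 : d = -1
    · have h3 := hIJ (Or.inr h2)
      rw [h2, neg_neg, if_pos rfl, if_neg (Ne.symm h), if_pos rfl]
      by_cases h4 : I
      · rw [if_pos h4, if_neg (fun h5 => (h3.1 h5) h4)]
      · rw [if_neg h4, if_pos (h3.2 h4)]
    · rw [if_neg h1, if_neg h2, if_neg (fun h3 => h2 (by rw [← h3, neg_neg])),
        if_neg (fun h3 => h1 (neg_injective h3))]

theorem dt_neg_right {K : Type w} [Field K] (a v : K × K) : dt a (-v) = -dt a v := by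
  unfold dt
  simp only [Prod.fst_neg, Prod.snd_neg]
  ring

theorem dt_neg_left {K : Type w} [Field K] (a v : K × K) : dt (-a) v = -dt a v := by
  unfold dt
  simp only [Prod.fst_neg, Prod.snd_neg]
  ring

theorem ne_of_dt {K : Type w} [Field K] {a v : K × K} (h : dt a v = 1 ∨ dt a v = -1) :
    v ≠ 0 ∧ a ≠ 0 := by
  have h1 : dt a v ≠ 0 := by
    rcases h with h | h
    · rw [h]
      exact one_ne_zero
    · rw [h]
      exact neg_ne_zero.2 one_ne_zero
  constructor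
  · rintro rfl
    apply h1
    simp [dt]
  · rintro rfl
    apply h1
    simp [dt]

end LFT_

open LFT_ in
theorem p_LFT (h1 : T_COB.{w}) (h2 : T_FIX.{u, v}) : T_LFT.{u, v, u', v', w} := by
  classical
  intro K _ _ h2K P L P' L' _ _ _ _ _ τ τ' hτ μ' e
  obtain ⟨a₀, c₀, -, -, -, hfix, hpp, hll⟩ := h2 P L τ hτ
  have hS' : Sd τ'.pt μ'.φ := ⟨μ'.φ_neg, μ'.φ_inj, μ'.φ_surj⟩
  have hT' : Sd τ'.ln μ'.ψ := ⟨μ'.ψ_neg, μ'.ψ_inj, μ'.ψ_surj⟩
  obtain ⟨φ, hφ, hφe⟩ := side h2K τ.pt τ'.pt hpp c₀ μ'.φ hS' e.pt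
  obtain ⟨ψ, hψ, hψe⟩ := side h2K τ.ln τ'.ln hll a₀ μ'.ψ hT' e.bl
  have h1m : (1 : K) ≠ -1 := by
    intro h
    apply h2K
    have h3 : (1 : K) + 1 = 0 := by
      nth_rewrite 1 [h]
      exact neg_add_cancel 1
    rw [← h3]
    norm_num
  have hflip : ∀ v a, v ≠ 0 → a ≠ 0 → (φ v ∈ ψ (-a) ↔ φ (-v) ∈ ψ a) := by
    intro v a hv ha
    rw [← τ.mem_iff, hφ.neg v hv, hψ.neg (-a) (neg_ne_zero.2 ha), neg_neg]
  have hexc : ∀ v a, v ≠ 0 → a ≠ 0 → φ v ∈ ψ a → ¬ φ (-v) ∈ ψ a := by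
    intro v a hv ha h3 h4
    refine hψ.mov h2K ha (hfix (φ v) (ψ a) (hφ.mov h2K hv) h3 ?_)
    rw [hφ.neg v hv]
    exact h4
  -- incidence in the quotients
  have hQ : ∀ v a, v ≠ 0 → a ≠ 0 →
      ((φ v ∈ ψ a ∨ φ (-v) ∈ ψ a) ↔ (dt a v = 1 ∨ dt a v = -1)) := by
    intro v a hv ha
    have hv' := neg_ne_zero.2 hv
    have ha' := neg_ne_zero.2 ha
    obtain ⟨s, hs⟩ : ∃ s : QPt τ, s.1 = {φ v, τ.pt (φ v)} :=
      ⟨⟨_, φ v, hφ.mov h2K hv, rfl⟩, rfl⟩
    obtain ⟨b, hb⟩ : ∃ b : QBl τ, b.1 = {ψ a, τ.ln (ψ a)} :=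
      ⟨⟨_, ψ a, hψ.mov h2K ha, rfl⟩, rfl⟩
    have hs' : (e.pt s).1 = {μ'.φ v, μ'.φ (-v)} := by
      have h3 : μ'.φ v ∈ (e.pt s).1 := (hφe v hv s).1 (by rw [hs]; exact Set.mem_insert _ _)
      have h4 : ∀ x, τ'.pt x ≠ x → τ'.pt (τ'.pt x) = x := by
        intro x hx
        obtain ⟨z, hz, rfl⟩ := hS'.surj x hx
        rw [hS'.neg z hz, hS'.neg (-z) (neg_ne_zero.2 hz), neg_neg]
      rw [(orb_eq h4 (e.pt s).2 h3).1, hS'.neg v hv]
    have hb' : (e.bl b).1 = {μ'.ψ a, μ'.ψ (-a)} := by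
      have h3 : μ'.ψ a ∈ (e.bl b).1 := (hψe a ha b).1 (by rw [hb]; exact Set.mem_insert _ _)
      have h4 : ∀ x, τ'.ln x ≠ x → τ'.ln (τ'.ln x) = x := by
        intro x hx
        obtain ⟨z, hz, rfl⟩ := hT'.surj x hx
        rw [hT'.neg z hz, hT'.neg (-z) (neg_ne_zero.2 hz), neg_neg]
      rw [(orb_eq h4 (e.bl b).2 h3).1, hT'.neg a ha]
    have h5 := e.inc s b
    unfold QInc at h5
    rw [hs, hb, hs', hb', hφ.neg v hv, hψ.neg a ha] at h5
    rw [qinc τ (hφ.neg v hv) (by rw [hφ.neg _ hv', neg_neg]) (by rw [hψ.neg _ ha', neg_neg])] at h5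
    rw [qinc τ' (hS'.neg v hv) (by rw [hS'.neg _ hv', neg_neg])
      (by rw [hT'.neg _ ha', neg_neg])] at h5
    rw [h5, μ'.inc v a hv ha, μ'.inc (-v) a hv' ha, dt_neg_right, neg_eq_iff_eq_neg]
  have hx : ∀ v a, (dt a v = 1 ∨ dt a v = -1) → (φ (-v) ∈ ψ a ↔ ¬ φ v ∈ ψ a) := by
    intro v a h
    obtain ⟨hv, ha⟩ := ne_of_dt h
    have h3 := (hQ v a hv ha).2 h
    constructor
    · intro h4 h5
      exact hexc v a hv ha h5 h4
    · intro h4
      rcases h3 with h3 | h3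
      · exact absurd h3 h4
      · exact h3
  have hx' : ∀ v a, (dt a v = 1 ∨ dt a v = -1) → (φ v ∈ ψ (-a) ↔ ¬ φ v ∈ ψ a) := by
    intro v a h
    obtain ⟨hv, ha⟩ := ne_of_dt h
    rw [hflip v a hv ha]
    exact hx v a h
  have hx2 : ∀ v a, (dt a v = 1 ∨ dt a v = -1) → (φ (-v) ∈ ψ (-a) ↔ φ v ∈ ψ a) := by
    intro v a h
    obtain ⟨hv, ha⟩ := ne_of_dt h
    rw [hflip (-v) a (neg_ne_zero.2 hv) ha, neg_neg]
  -- two points and two lines
  have key : ∀ v v' a b, v ≠ 0 → v' ≠ 0 → a ≠ 0 → b ≠ 0 → v ≠ v' → a ≠ b →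
      ¬ (φ v ∈ ψ a ∧ φ v' ∈ ψ a ∧ φ v ∈ ψ b ∧ φ v' ∈ ψ b) := by
    rintro v v' a b hv hv' ha hb h3 h4 ⟨h5, h6, h7, h8⟩
    rcases eq_or_eq h5 h6 h7 h8 with h9 | h9
    · exact h3 (hφ.inj _ _ hv hv' h9)
    · exact h4 (hψ.inj _ _ ha hb h9)
  obtain ⟨g, hg⟩ : ∃ g : K × K → K × K → ZMod 2, ∀ v a, g v a = GG (dt a v) (φ v ∈ ψ a) :=
    ⟨_, fun _ _ => rfl⟩
  have hcoc : Coc g := by
    constructor
    · intro v a
      rw [hg, hg, hg, dt_neg_right, dt_neg_left]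
      exact ⟨GG_neg h1m _ _ _ (hx v a), GG_neg h1m _ _ _ (hx' v a)⟩
    · intro v v' a b e1 e2 e3 e4
      rw [hg, hg, hg, hg, e1, e2, e3, e4]
      obtain ⟨hv, ha⟩ := ne_of_dt (Or.inl e1)
      obtain ⟨hv', hb⟩ := ne_of_dt (Or.inr e4)
      have n1 : v ≠ v' := by
        rintro rfl
        exact h1m (e3.symm.trans e4)
      have n2 : v ≠ -v' := by
        rintro rfl
        rw [dt_neg_right, e2] at e1
        exact h1m e1.symm
      have n3 : a ≠ b := by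
        rintro rfl
        exact h1m (e2.symm.trans e4)
      have n4 : a ≠ -b := by
        rintro rfl
        rw [dt_neg_left, e3] at e1
        exact h1m e1.symm
      have n3' : -a ≠ -b := fun h => n3 (neg_injective h)
      have n4' : -a ≠ b := fun h => n4 (by rw [← h, neg_neg])
      have mv' := neg_ne_zero.2 hv'
      have ma := neg_ne_zero.2 ha
      have mb := neg_ne_zero.2 hb
      have r1 := hx v' a (Or.inl e2)
      have r2 := hx v' b (Or.inr e4)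
      have r3 := hx' v a (Or.inl e1)
      have r4 := hx' v' a (Or.inl e2)
      have r5 := hx' v b (Or.inl e3)
      have r6 := hx' v' b (Or.inr e4)
      have r7 := hx2 v' a (Or.inl e2)
      have r8 := hx2 v' b (Or.inr e4)
      have k1 := key v v' a b hv hv' ha hb n1 n3
      have k2 := key v v' (-a) b hv hv' ma hb n1 n4'
      have k3 := key v v' a (-b) hv hv' ha mb n1 n4
      have k4 := key v v' (-a) (-b) hv hv' ma mb n1 n3'
      have k5 := key v (-v') a b hv mv' ha hb n2 n3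
      have k6 := key v (-v') (-a) b hv mv' ma hb n2 n4'
      have k7 := key v (-v') a (-b) hv mv' ha mb n2 n4
      have k8 := key v (-v') (-a) (-b) hv mv' ma mb n2 n3'
      rw [r3, r4] at k2 k4
      rw [r5, r6] at k3 k4
      rw [r1, r2] at k5
      rw [r3, r7, r2] at k6
      rw [r1, r5, r8] at k7
      rw [r3, r7, r5, r8] at k8
      unfold GG
      rw [if_pos rfl, if_neg (Ne.symm h1m), if_pos rfl]
      have two : (1 : ZMod 2) + 1 = 0 := by decide
      by_cases b1 : φ v ∈ ψ a <;> by_cases b2 : φ v' ∈ ψ a <;> by_cases b3 : φ v ∈ ψ b <;>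
        by_cases b4 : φ v' ∈ ψ b <;>
        simp only [b1, b2, b3, b4, not_true_eq_false, not_false_eq_true, and_true, and_false,
          and_self, if_true, if_false, add_zero, zero_add, two] at *
  obtain ⟨α, β, hα, hβ, hαβ⟩ := h1 K h2K g hcoc
  have hΦ := twist hφ α hα
  have hΨ := twist hψ β hβ
  have z2 : ∀ x : ZMod 2, x ≠ 0 → x = 1 := by decide
  have good : ∀ v a, dt a v = 1 →
      (if α v = 0 then φ v else φ (-v)) ∈ (if β a = 0 then ψ a else ψ (-a)) := by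
    intro v a h
    have h3 := hαβ v a h
    rw [hg, h] at h3
    unfold GG at h3
    rw [if_pos rfl] at h3
    have hD : dt a v = 1 ∨ dt a v = -1 := Or.inl h
    by_cases hI : φ v ∈ ψ a
    · rw [if_pos hI] at h3
      by_cases hαv : α v = 0
      · rw [hαv, zero_add] at h3
        rw [if_pos hαv, if_pos h3.symm]
        exact hI
      · have h4 := z2 _ hαv
        have h5 : β a ≠ 0 := by
          intro h5
          rw [h4, h5] at h3
          exact absurd h3 (by decide)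
        rw [if_neg hαv, if_neg h5]
        exact (hx2 v a hD).2 hI
    · rw [if_neg hI] at h3
      by_cases hαv : α v = 0
      · have h5 : β a ≠ 0 := by
          intro h5
          rw [hαv, h5] at h3
          exact absurd h3 (by decide)
        rw [if_pos hαv, if_neg h5]
        exact (hx' v a hD).2 hI
      · have h4 := z2 _ hαv
        have h5 : β a = 0 := by
          by_contra h5
          rw [h4, z2 _ h5] at h3
          exact absurd h3 (by decide)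
        rw [if_neg hαv, if_pos h5]
        exact (hx v a hD).2 hI
  have hinc : ∀ v a, v ≠ 0 → a ≠ 0 →
      ((if α v = 0 then φ v else φ (-v)) ∈ (if β a = 0 then ψ a else ψ (-a)) ↔ dt a v = 1) := by
    intro v a hv ha
    refine ⟨fun h => ?_, good v a⟩
    have hD : dt a v = 1 ∨ dt a v = -1 := by
      refine (hQ v a hv ha).1 ?_
      by_cases hαv : α v = 0 <;> by_cases hβa : β a = 0
      · rw [if_pos hαv, if_pos hβa] at h
        exact Or.inl h
      · rw [if_pos hαv, if_neg hβa, hflip v a hv ha] at h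
        exact Or.inr h
      · rw [if_neg hαv, if_pos hβa] at h
        exact Or.inr h
      · rw [if_neg hαv, if_neg hβa, hflip (-v) a (neg_ne_zero.2 hv) ha, neg_neg] at h
        exact Or.inl h
    rcases hD with hD | hD
    · exact hD
    · exfalso
      have h3 := good (-v) a (by rw [dt_neg_right, hD, neg_neg])
      refine hΨ.mov h2K ha (hfix _ _ (hΦ.mov h2K hv) h ?_)
      rw [hΦ.neg v hv]
      exact h3
  refine ⟨⟨_, _, hΦ.neg, hΨ.neg, hΦ.inj, hΨ.inj, hΦ.surj, hΨ.surj, hinc⟩, ?_, ?_⟩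
  · intro v hv s
    exact (twist_mem hpp hφ α s hv).trans (hφe v hv s)
  · intro a ha b
    exact (twist_mem hll hψ β b ha).trans (hψe a ha b)

end UQL
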