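import Pool.Agent.UQL.T
set_option autoImplicit false
set_option linter.all false

/-!
# UQL, NRM: a normalised cocycle is a sum
-/

namespace UQL

universe w

namespace NRM_

theorem add_eq_zero_iff {a b : ZMod 2} : a + b = 0 ↔ a = b := by
  revert a b
  decide

variable {K : Type w} [Field K] {m : K → K → K → ZMod 2}

/-- the sum for `j` and `j'` has a period -/
theorem per (h20 : (2 : K) ≠ 0)
    (h0 : ∀ i j y, i ≠ 0 → j ≠ 0 → m i (-j) y = m i j y)
    (h2 : ∀ i i' j y, i ≠ 0 → i' ≠ 0 → j ≠ 0 → i ≠ i' → i + i' ≠ 0 →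
      m i j y + m i (j * (i - i') / (i + i')) y + m i' j (y - j * (i - i')) +
        m i' (j * (i - i') / (i + i')) (y - j * (i - i')) = 0)
    {i i' j j' : K} (hi : i ≠ 0) (hi' : i' ≠ 0) (hj : j ≠ 0) (hne : i ≠ i')
    (hne' : i + i' ≠ 0) (hj' : j' = j * (i - i') / (i + i')) (y : K) :
    m i j (y + 2 * (j * (i - i'))) + m i j' (y + 2 * (j * (i - i'))) = m i j y + m i j' y := by
  have hj'0 : j' ≠ 0 := by
    rw [hj']
    exact div_ne_zero (mul_ne_zero hj (sub_ne_zero.mpr hne)) hne'
  have key1 : ∀ y, m i j y + m i j' y =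
      m i' j (y - j * (i - i')) + m i' j' (y - j * (i - i')) := by
    intro y
    have h := h2 i i' j y hi hi' hj hne hne'
    rw [← hj', add_assoc (m i j y + m i j' y)] at h
    exact add_eq_zero_iff.mp h
  have key2 : ∀ y, m i j y + m i j' y =
      m i' j (y + j * (i - i')) + m i' j' (y + j * (i - i')) := by
    intro y
    have h := h2 i i' (-j) y hi hi' (neg_ne_zero.mpr hj) hne hne'
    have e1 : -j * (i - i') / (i + i') = -j' := by
      rw [hj']
      ring
    have e2 : y - -j * (i - i') = y + j * (i - i') := by ring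
    rw [e1, e2, h0 i j _ hi hj, h0 i j' _ hi hj'0, h0 i' j _ hi' hj, h0 i' j' _ hi' hj'0,
      add_assoc (m i j y + m i j' y)] at h
    exact add_eq_zero_iff.mp h
  rw [key1 (y + 2 * (j * (i - i'))), key2 y]
  have e3 : y + 2 * (j * (i - i')) - j * (i - i') = y + j * (i - i') := by ring
  rw [e3]

end NRM_

theorem p_NRM (h1 : T_REL.{w}) (h2 : T_CST.{w}) (h3 : T_ZET.{w}) : T_NRM.{w} := by
  intro K _ _ h20 g hg
  obtain ⟨r1, r2⟩ := h1 K h20 g hg
  -- (b) the functions are constant
  have hc : ∀ i j y, i ≠ 0 → j ≠ 0 → mf g i j y = mf g i j 0 := by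
    intro i j y hi hj
    refine h2 K h20 (2 * i) (mul_ne_zero h20 hi) (fun j => mf g i j)
      (fun j hj y => (r1 i j y hi hj).2.2) ?_ j hj y
    intro j j' hj hj' hne hne' y
    have e0 : i * (j - j') / (j + j') ≠ 0 :=
      div_ne_zero (mul_ne_zero hi (sub_ne_zero.mpr hne)) hne'
    have e1 : i - i * (j - j') / (j + j') = 2 * i * j' / (j + j') := by
      field_simp
      ring
    have e2 : i + i * (j - j') / (j + j') = 2 * i * j / (j + j') := by
      field_simp
      ring
    have e3 : i ≠ i * (j - j') / (j + j') := by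
      intro h
      have h4 : i - i * (j - j') / (j + j') = 0 := sub_eq_zero.mpr h
      rw [e1] at h4
      exact div_ne_zero (mul_ne_zero (mul_ne_zero h20 hi) hj') hne' h4
    have e4 : i + i * (j - j') / (j + j') ≠ 0 := by
      rw [e2]
      exact div_ne_zero (mul_ne_zero (mul_ne_zero h20 hi) hj) hne'
    have e5 : j' = j * (i - i * (j - j') / (j + j')) / (i + i * (j - j') / (j + j')) := by
      rw [e1, e2]
      field_simp
    have e6 := NRM_.per (m := mf g) h20 (fun i j y hi hj => (r1 i j y hi hj).2.1) r2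
      hi e0 hj e3 e4 e5 y
    have e7 : 2 * (j * (i - i * (j - j') / (j + j'))) = 2 * (2 * i) * j * j' / (j + j') := by
      rw [e1]
      ring
    rw [e7] at e6
    exact e6
  -- (c)
  have hz := h3 K h20 (fun i j => mf g i j 0)
    (fun i j hi hj => ⟨(r1 i j 0 hi hj).1, (r1 i j 0 hi hj).2.1⟩) (by
      intro i i' j hi hi' hj hne hne'
      have h := r2 i i' j 0 hi hi' hj hne hne'
      have hj' : j * (i - i') / (i + i') ≠ 0 :=
        div_ne_zero (mul_ne_zero hj (sub_ne_zero.mpr hne)) hne'
      rw [hc i' j _ hi' hj, hc i' (j * (i - i') / (i + i')) _ hi' hj'] at h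
      exact h)
  -- (d)
  classical
  refine ⟨fun x => if x = 0 then 0 else mf g (1 / x) 1 0,
    fun x => if x = 0 then 0 else mf g 1 (1 / x) 0 + mf g 1 1 0, ?_, ?_, ?_⟩
  · intro x
    by_cases hx : x = 0
    · simp [hx]
    · have e1 : 1 / -x = -(1 / x) := by
        rw [one_div_neg_eq_neg_one_div]
      have h := (r1 (1 / x) 1 0 (one_div_ne_zero hx) one_ne_zero).1
      simp only [neg_eq_zero, hx, if_false, e1, h]
  · intro x
    by_cases hx : x = 0
    · simp [hx]
    · have e1 : 1 / -x = -(1 / x) := by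
        rw [one_div_neg_eq_neg_one_div]
      have h := (r1 1 (1 / x) 0 one_ne_zero (one_div_ne_zero hx)).2.1
      simp only [neg_eq_zero, hx, if_false, e1, h]
  · intro v a hv ha hd
    have hi : 1 / v.2 ≠ 0 := one_div_ne_zero hv
    have hj : 1 / a.1 ≠ 0 := one_div_ne_zero ha
    have e0 : mf g (1 / v.2) (1 / a.1) (v.1 / v.2) = g v a := by
      unfold mf
      have d1 : v.1 / v.2 / (1 / v.2) = v.1 := by field_simp
      have d2 : 1 / (1 / v.2) = v.2 := by field_simp
      have d3 : 1 / (1 / a.1) = a.1 := by field_simp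
      have d4 : 1 / v.2 - v.1 / v.2 / (1 / a.1) = a.2 := by
        have hd' : a.1 * v.1 + a.2 * v.2 = 1 := hd
        field_simp
        linear_combination -hd'
      rw [d1, d2, d3, d4]
    have h := hz (1 / v.2) (1 / a.1) hi hj
    rw [← e0, hc _ _ _ hi hj]
    simp only [hv, ha, if_false]
    rw [← add_assoc]
    exact h

end UQL
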