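import Pool.Agent.UQL.T
set_option autoImplicit false
set_option linter.all false

namespace UQL

universe w

namespace REL_

variable {K : Type w} [Field K]

lemma add_self2 (x : ZMod 2) : x + x = 0 := by
  revert x; decide

lemma eq_of_add (x y : ZMod 2) (h : x + y = 0) : x = y := by
  revert x y; decide

/-- the two blocks through `v` and through the fixed point `(j, 0)` -/
lemma flip {g : K × K → K × K → ZMod 2} (hg : Nrm g) {i j : K} (y : K) (hi : i ≠ 0)
    (hj : j ≠ 0) :
    g (y / i, 1 / i) (1 / j, i - y / j) = g (y / i, 1 / i) (1 / j, -i - y / j) := by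
  obtain ⟨⟨_, hc⟩, hp, _⟩ := hg
  have e1 : dt ((1 / j, i - y / j) : K × K) (j, 0) = 1 := by
    simp only [dt]; field_simp; ring
  have e2 : dt ((1 / j, i - y / j) : K × K) (y / i, 1 / i) = 1 := by
    simp only [dt]; field_simp; ring
  have e3 : dt ((1 / j, -i - y / j) : K × K) (j, 0) = 1 := by
    simp only [dt]; field_simp; ring
  have e4 : dt ((1 / j, -i - y / j) : K × K) (y / i, 1 / i) = -1 := by
    simp only [dt]; field_simp; ring
  have h := hc _ _ _ _ e1 e2 e3 e4
  rw [hp _ _ rfl e1, hp _ _ rfl e3, zero_add, add_zero] at h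
  exact eq_of_add _ _ h

lemma neg1 {g : K × K → K × K → ZMod 2} (hg : Nrm g) {i j : K} (y : K) (hi : i ≠ 0)
    (hj : j ≠ 0) : mf g (-i) j y = mf g i j y := by
  unfold mf
  rw [flip hg y hi hj]
  have h1 : ((y / -i, 1 / -i) : K × K) = -(y / i, 1 / i) := by
    rw [Prod.neg_mk, div_neg, div_neg]
  rw [h1, (hg.1.1 _ _).1]

lemma neg2 {g : K × K → K × K → ZMod 2} (hg : Nrm g) {i j : K} (y : K) (hi : i ≠ 0)
    (hj : j ≠ 0) : mf g i (-j) y = mf g i j y := by
  unfold mf
  rw [flip hg y hi hj]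
  have h1 : ((1 / -j, i - y / -j) : K × K) = -(1 / j, -i - y / j) := by
    rw [Prod.neg_mk, div_neg, div_neg]
    congr 1
    ring
  rw [h1, (hg.1.1 _ _).2]

lemma shift {g : K × K → K × K → ZMod 2} (hg : Nrm g) {i j : K} (y : K) (hi : i ≠ 0)
    (hj : j ≠ 0) : mf g i j (y + 2 * i * j) = mf g i j y := by
  have hb := hg.2.2
  have e1 : dt ((0, i) : K × K) ((y + 2 * i * j) / i, 1 / i) = 1 := by
    simp only [dt]; field_simp; ring
  have e2 : dt ((0, i) : K × K) (y / i, 1 / i) = 1 := by
    simp only [dt]; field_simp; ring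
  have e3 : dt ((1 / j, i - (y + 2 * i * j) / j) : K × K) ((y + 2 * i * j) / i, 1 / i) = 1 := by
    simp only [dt]; field_simp; ring
  have e4 : dt ((1 / j, i - (y + 2 * i * j) / j) : K × K) (y / i, 1 / i) = -1 := by
    simp only [dt]; field_simp; ring
  have h := hg.1.2 _ _ _ _ e1 e2 e3 e4
  rw [hb _ _ rfl e1, hb _ _ rfl e2, zero_add, zero_add] at h
  have h2 := eq_of_add _ _ h
  rw [← neg2 hg y hi hj]
  unfold mf
  rw [h2]
  have h1 : ((1 / -j, i - y / -j) : K × K) = -(1 / j, i - (y + 2 * i * j) / j) := by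
    rw [Prod.neg_mk, div_neg, div_neg]
    congr 1
    field_simp
    ring
  rw [h1, (hg.1.1 _ _).2]

end REL_

open REL_ in
theorem p_REL.{u₁} : T_REL.{u₁} := by
  intro K _ h2 g hg
  refine ⟨fun i j y hi hj => ⟨neg1 hg y hi hj, neg2 hg y hi hj, shift hg y hi hj⟩, ?_⟩
  intro i i' j y hi hi' hj hii hii'
  have hs : i - i' ≠ 0 := sub_ne_zero.2 hii
  set j' : K := j * (i - i') / (i + i') with hj'
  have hj'0 : j' ≠ 0 := div_ne_zero (mul_ne_zero hj hs) hii'
  have hmul : j' * (i + i') = j * (i - i') := by rw [hj']; field_simp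
  have e1 : dt ((1 / j, i - y / j) : K × K) (y / i, 1 / i) = 1 := by
    simp only [dt]; field_simp; ring
  have e2 : dt ((1 / j, i - y / j) : K × K) ((y - j * (i - i')) / i', 1 / i') = 1 := by
    simp only [dt]; field_simp; ring
  have e3 : dt ((1 / j', i - y / j') : K × K) (y / i, 1 / i) = 1 := by
    simp only [dt]; field_simp; ring
  have e4 : dt ((1 / j', i - y / j') : K × K) ((y - j * (i - i')) / i', 1 / i') = -1 := by
    rw [← hmul]
    simp only [dt]; field_simp; ring
  have h := hg.1.2 _ _ _ _ e1 e2 e3 e4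
  have f1 : g ((y - j * (i - i')) / i', 1 / i') (1 / j, i - y / j) =
      mf g i' j (y - j * (i - i')) := by
    unfold mf
    have : i - y / j = i' - (y - j * (i - i')) / j := by field_simp; ring
    rw [this]
  have f2 : g ((y - j * (i - i')) / i', 1 / i') (1 / j', i - y / j') =
      mf g i' j' (y - j * (i - i')) := by
    rw [← neg2 hg _ hi' hj'0]
    unfold mf
    have : ((1 / -j', i' - (y - j * (i - i')) / -j') : K × K) = -(1 / j', i - y / j') := by
      rw [Prod.neg_mk, div_neg, div_neg, ← hmul]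
      congr 1
      field_simp
      ring
    rw [this, (hg.1.1 _ _).2]
  rw [f1, f2] at h
  have f3 : g (y / i, 1 / i) (1 / j, i - y / j) = mf g i j y := rfl
  have f4 : g (y / i, 1 / i) (1 / j', i - y / j') = mf g i j' y := rfl
  rw [f3, f4] at h
  rw [← h]
  ring

end UQL
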