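import Pool.Agent.UQL.T
set_option autoImplicit false
set_option linter.all false

/-!
# Target T_SEP of the project UQL: points are separated by the moved lines
-/

namespace UQL

open Configuration

universe u v u' v' w

namespace SEP_

/-- a third line through a point -/
theorem third {P : Type u} {L : Type v} [Membership P L] [ProjectivePlane P L] [Finite P]
    [Finite L] (p : P) (l₁ l₂ : L) : ∃ l : L, p ∈ l ∧ l ≠ l₁ ∧ l ≠ l₂ := by
  by_contra hcon
  push Not at hcon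
  have h1 := ProjectivePlane.two_lt_lineCount (P := P) L p
  have h2 : lineCount L p = Set.ncard {l : L | p ∈ l} := rfl
  have h3 : {l : L | p ∈ l} ⊆ {l₁, l₂} := by
    intro l hl
    by_cases h : l = l₁
    · exact Or.inl h
    · exact Or.inr (hcon l hl h)
  have h4 := Set.ncard_le_ncard h3 (Set.toFinite _)
  have h5 := Set.ncard_insert_le l₁ {l₂}
  rw [Set.ncard_singleton] at h5
  omega

/-- two lines with two different points in common are equal -/
theorem uniq {P : Type u} {L : Type v} [Membership P L] [ProjectivePlane P L] {p q : P}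
    {l m : L} (hpq : p ≠ q) (h1 : p ∈ l) (h2 : q ∈ l) (h3 : p ∈ m) (h4 : q ∈ m) : l = m :=
  (Nondegenerate.eq_or_eq h1 h2 h3 h4).resolve_left hpq

theorem one {P : Type u} {L : Type v} [Membership P L] [ProjectivePlane P L] [Finite P]
    [Finite L] (a : L) (c : P) (hc : c ∉ a) (p : P) (hp : p ≠ c) :
    ∃ l : L, l ≠ a ∧ c ∉ l ∧ p ∈ l := by
  obtain ⟨l, hl, hl1, hl2⟩ := third p a (HasLines.mkLine (L := L) hp)
  refine ⟨l, hl1, fun hcl => hl2 ?_, hl⟩
  have h := HasLines.mkLine_ax (L := L) hp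
  exact uniq hp hl hcl h.1 h.2

theorem sep1 {P : Type u} {L : Type v} [Membership P L] [ProjectivePlane P L] [Finite P]
    [Finite L] (a : L) (c : P) (hc : c ∉ a) (p q : P) (hpq : p ≠ q) (hp : p ≠ c)
    (h : p ∉ a ∨ q ∈ a ∨ q = c) : ∃ l : L, l ≠ a ∧ c ∉ l ∧ p ∈ l ∧ q ∉ l := by
  have hpc := HasLines.mkLine_ax (L := L) hp
  by_cases hpa : p ∈ a
  · obtain ⟨l, hl, hl1, hl2⟩ := third p a (HasLines.mkLine (L := L) hp)
    have hcl : c ∉ l := fun hcl => hl2 (uniq hp hl hcl hpc.1 hpc.2)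
    refine ⟨l, hl1, hcl, hl, fun hql => ?_⟩
    rcases h with h | h | h
    · exact h hpa
    · exact hl1 (uniq hpq hl hql hpa h)
    · rw [h] at hql
      exact hcl hql
  · have hq := HasLines.mkLine_ax (L := L) hpq
    obtain ⟨l, hl, hl1, hl2⟩ :=
      third p (HasLines.mkLine (L := L) hpq) (HasLines.mkLine (L := L) hp)
    refine ⟨l, ?_, fun hcl => hl2 (uniq hp hl hcl hpc.1 hpc.2), hl,
      fun hql => hl1 (uniq hpq hl hql hq.1 hq.2)⟩
    rintro rfl
    exact hpa hl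

theorem sep {P : Type u} {L : Type v} [Membership P L] [ProjectivePlane P L] [Finite P]
    [Finite L] (a : L) (c : P) (hc : c ∉ a) (p q : P) (hpq : p ≠ q) :
    ∃ l : L, l ≠ a ∧ c ∉ l ∧ ((p ∈ l ∧ q ∉ l) ∨ (q ∈ l ∧ p ∉ l)) := by
  by_cases h1 : p ≠ c ∧ (p ∉ a ∨ q ∈ a ∨ q = c)
  · obtain ⟨l, h2, h3, h4, h5⟩ := sep1 a c hc p q hpq h1.1 h1.2
    exact ⟨l, h2, h3, Or.inl ⟨h4, h5⟩⟩
  · have h6 : q ≠ c ∧ (q ∉ a ∨ p ∈ a ∨ p = c) := by
      by_cases hpc : p = c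
      · refine ⟨fun hqc => hpq (hpc.trans hqc.symm), Or.inr (Or.inr hpc)⟩
      · have h7 : ¬ (p ∉ a ∨ q ∈ a ∨ q = c) := fun h => h1 ⟨hpc, h⟩
        push Not at h7
        exact ⟨h7.2.2, Or.inl h7.2.1⟩
    obtain ⟨l, h2, h3, h4, h5⟩ := sep1 a c hc q p hpq.symm h6.1 h6.2
    exact ⟨l, h2, h3, Or.inr ⟨h4, h5⟩⟩

end SEP_

theorem p_SEP.{p, q} : T_SEP.{p, q} := by
  intro P L _ _ _ _ τ a c hac
  obtain ⟨hc, hpt, hln, -, -, -⟩ := hac
  have hL : ∀ l : L, l ≠ a → c ∉ l → τ.ln l ≠ l := by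
    intro l h1 h2 h3
    rcases (hln l).1 h3 with h | h
    · exact h1 h
    · exact h2 h
  have hP : ∀ p : P, p ≠ c → p ∉ a → τ.pt p ≠ p := by
    intro p h1 h2 h3
    rcases (hpt p).1 h3 with h | h
    · exact h1 h
    · exact h2 h
  refine ⟨?_, ?_, ?_, ?_⟩
  · intro p q hpq
    obtain ⟨l, h1, h2, h3⟩ := SEP_.sep a c hc p q hpq
    exact ⟨l, hL l h1 h2, h3⟩
  · intro l m hlm
    obtain ⟨p, h1, h2, h3⟩ := SEP_.sep (P := Dual L) (L := Dual P) c a hc l m hlm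
    exact ⟨p, hP p h1 h2, h3⟩
  · intro p hp
    obtain ⟨l, h1, h2, h3⟩ := SEP_.one a c hc p hp
    exact ⟨l, hL l h1 h2, h3⟩
  · intro l hl
    obtain ⟨p, h1, h2, h3⟩ := SEP_.one (P := Dual L) (L := Dual P) c a hc l hl
    exact ⟨p, hP p h1 h2, h3⟩

end UQL
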