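import Pool.Agent.UQL.T
set_option autoImplicit false
set_option linter.all false

/-!
# UQL: collineations which induce the identity on the quotient
-/

namespace UQL

open Configuration

universe u v

namespace UNI_

variable {P : Type u} {L : Type v} [Membership P L]

/-- composition of two collineations -/
def comp (τ γ : Coll P L) : Coll P L where
  pt := γ.pt.trans τ.pt
  ln := γ.ln.trans τ.ln
  mem_iff := fun p l => by
    rw [Equiv.trans_apply, Equiv.trans_apply, τ.mem_iff, γ.mem_iff]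

/-- a third point on a line -/
theorem third [ProjectivePlane P L] [Finite P] [Finite L] (m a : L) (q : P) (hma : m ≠ a) :
    ∃ r : P, r ∈ m ∧ r ∉ a ∧ r ≠ q := by
  classical
  have h := ProjectivePlane.two_lt_pointCount (P := P) (L := L) m
  haveI : Fintype {p : P // p ∈ m} := Fintype.ofFinite _
  rw [pointCount, Nat.card_eq_fintype_card, Fintype.two_lt_card_iff] at h
  obtain ⟨⟨x, hx⟩, ⟨y, hy⟩, ⟨z, hz⟩, hxy, hxz, hyz⟩ := h
  have hxy' : x ≠ y := fun h => hxy (Subtype.ext h)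
  have hxz' : x ≠ z := fun h => hxz (Subtype.ext h)
  have hyz' : y ≠ z := fun h => hyz (Subtype.ext h)
  have key : ∀ s t : P, s ≠ t → s ∈ m → t ∈ m → s ∈ a → t ∈ a → False := by
    intro s t hst hs ht hsa hta
    rcases Nondegenerate.eq_or_eq hs ht hsa hta with h | h
    · exact hst h
    · exact hma h
  by_contra hcon
  push Not at hcon
  by_cases hxa : x ∈ a
  · by_cases hya : y ∈ a
    · exact key x y hxy' hx hy hxa hya
    · by_cases hza : z ∈ a
      · exact key x z hxz' hx hz hxa hza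
      · exact hyz' ((hcon y hy hya).trans (hcon z hz hza).symm)
  · by_cases hya : y ∈ a
    · by_cases hza : z ∈ a
      · exact key y z hyz' hy hz hya hza
      · exact hxz' ((hcon x hx hxa).trans (hcon z hz hza).symm)
    · exact hxy' ((hcon x hx hxa).trans (hcon y hy hya).symm)

/-- the case in which some moved point is fixed by `γ` -/
theorem core [ProjectivePlane P L] [Finite P] [Finite L] (τ γ : Coll P L) (a : L) (c : P)
    (hAC : AC τ a c)
    (s1 : ∀ p q : P, p ≠ q → ∃ l : L, τ.ln l ≠ l ∧ ((p ∈ l ∧ q ∉ l) ∨ (q ∈ l ∧ p ∉ l)))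
    (s2 : ∀ l m : L, l ≠ m → ∃ p : P, τ.pt p ≠ p ∧ ((p ∈ l ∧ p ∉ m) ∨ (p ∈ m ∧ p ∉ l)))
    (s3 : ∀ p : P, p ≠ c → ∃ l : L, τ.ln l ≠ l ∧ p ∈ l)
    (hp : ∀ p, τ.pt p ≠ p → γ.pt p = p ∨ γ.pt p = τ.pt p)
    (hl : ∀ l, τ.ln l ≠ l → γ.ln l = l ∨ γ.ln l = τ.ln l)
    (p₀ : P) (h0 : τ.pt p₀ ≠ p₀) (h0' : γ.pt p₀ = p₀) :
    (∀ p, γ.pt p = p) ∧ (∀ l, γ.ln l = l) := by
  obtain ⟨hca, hfp, hfl, hmv, hpp, hll⟩ := hAC
  have hcfix : τ.pt c = c := (hfp c).2 (Or.inl rfl)
  -- moved lines through a moved point fixed by γ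
  have step1 : ∀ p l, τ.pt p ≠ p → γ.pt p = p → τ.ln l ≠ l → p ∈ l → γ.ln l = l := by
    intro p l h1 h2 h3 h4
    rcases hl l h3 with h | h
    · exact h
    · exfalso
      have h5 : p ∈ τ.ln l := by
        have h6 := (γ.mem_iff p l).2 h4
        rwa [h2, h] at h6
      have h7 : τ.pt p ∈ l := by
        have h8 := (τ.mem_iff p (τ.ln l)).2 h5
        rwa [hll] at h8
      exact h3 (hmv p l h1 h4 h7)
  have step2 : ∀ p q l, τ.pt p ≠ p → γ.pt p = p → τ.ln l ≠ l → p ∈ l → q ∈ l →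
      τ.pt q ≠ q → γ.pt q = q := by
    intro p q l h1 h2 h3 h4 h5 h6
    have h7 := step1 p l h1 h2 h3 h4
    rcases hp q h6 with h | h
    · exact h
    · exfalso
      have h8 : τ.pt q ∈ l := by
        have h9 := (γ.mem_iff q l).2 h5
        rwa [h, h7] at h9
      exact h3 (hmv q l h6 h5 h8)
  have step3 : ∀ q, τ.pt q ≠ q → γ.pt q = q := by
    intro q hq
    by_cases hqp : q = p₀
    · rw [hqp, h0']
    have hne : p₀ ≠ q := fun h => hqp h.symm
    obtain ⟨hl1, hl2⟩ := HasLines.mkLine_ax (L := L) hne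
    set l : L := HasLines.mkLine hne with hldef
    by_cases hfix : τ.ln l = l
    · -- choose a moved line through q
      have hqc : q ≠ c := fun h => hq (by rw [h, hcfix])
      have hpc : p₀ ≠ c := fun h => h0 (by rw [h, hcfix])
      have hpa : p₀ ∉ a := fun h => h0 ((hfp p₀).2 (Or.inr h))
      obtain ⟨m, hm1, hm2⟩ := s3 q hqc
      have hma : m ≠ a := fun h => hm1 ((hfl m).2 (Or.inl h))
      have hcm : c ∉ m := fun h => hm1 ((hfl m).2 (Or.inr h))
      obtain ⟨r, hr1, hr2, hr3⟩ := third m a q hma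
      have hrc : r ≠ c := fun h => hcm (h ▸ hr1)
      have hr : τ.pt r ≠ r := by
        intro h
        rcases (hfp r).1 h with h | h
        · exact hrc h
        · exact hr2 h
      have hcl : c ∈ l := by
        rcases (hfl l).1 hfix with h | h
        · exact absurd (h ▸ hl1) hpa
        · exact h
      have hrl : r ∉ l := by
        intro h
        rcases Nondegenerate.eq_or_eq hr1 hm2 h hl2 with h | h
        · exact hr3 h
        · exact hm1 (h ▸ hfix)
      have hpr : p₀ ≠ r := fun h => hrl (h ▸ hl1)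
      obtain ⟨hn1, hn2⟩ := HasLines.mkLine_ax (L := L) hpr
      set n : L := HasLines.mkLine hpr with hndef
      have hn : τ.ln n ≠ n := by
        intro h
        rcases (hfl n).1 h with h | h
        · exact hpa (h ▸ hn1)
        · rcases Nondegenerate.eq_or_eq hn1 h hl1 hcl with h' | h'
          · exact hpc h'
          · exact hrl (h' ▸ hn2)
      have hγr : γ.pt r = r := step2 p₀ r n h0 h0' hn hn1 hn2 hr
      exact step2 r q m hr hγr hm1 hr1 hm2 hq
    · exact step2 p₀ q l h0 h0' hfix hl1 hl2 hq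
  have step4 : ∀ l, γ.ln l = l := by
    intro l
    by_contra hcon
    obtain ⟨p, hp1, hp2⟩ := s2 _ _ hcon
    have h1 := γ.mem_iff p l
    rw [step3 p hp1] at h1
    tauto
  refine ⟨fun p => ?_, step4⟩
  by_contra hcon
  obtain ⟨l, hl1, hl2⟩ := s1 _ _ hcon
  have h1 := γ.mem_iff p l
  rw [step4 l] at h1
  tauto

end UNI_

theorem p_UNI.{u₁, v₁} (h1 : T_FIX.{u₁, v₁}) (h2 : T_SEP.{u₁, v₁}) : T_UNI.{u₁, v₁} := by
  intro P L _ _ _ _ τ γ hτ hp hl
  obtain ⟨a, c, hAC⟩ := h1 P L τ hτ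
  obtain ⟨s1, s2, s3, -⟩ := h2 P L τ a c hAC
  have hpp := hAC.2.2.2.2.1
  have hll := hAC.2.2.2.2.2
  by_cases hex : ∃ p, τ.pt p ≠ p ∧ γ.pt p = p
  · obtain ⟨p, hp1, hp2⟩ := hex
    exact Or.inl (UNI_.core τ γ a c hAC s1 s2 s3 hp hl p hp1 hp2)
  · right
    push Not at hex
    have hγ : ∀ p, τ.pt p ≠ p → γ.pt p = τ.pt p := fun p h => (hp p h).resolve_left (hex p h)
    obtain ⟨p₀, hp₀⟩ := hτ.2.1
    have hc := UNI_.core τ (UNI_.comp τ γ) a c hAC s1 s2 s3
      (fun p h => Or.inl (by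
        show τ.pt (γ.pt p) = p
        rw [hγ p h, hpp]))
      (fun l h => by
        show τ.ln (γ.ln l) = l ∨ τ.ln (γ.ln l) = τ.ln l
        rcases hl l h with h' | h'
        · right; rw [h']
        · left; rw [h', hll])
      p₀ hp₀ (by
        show τ.pt (γ.pt p₀) = p₀
        rw [hγ p₀ hp₀, hpp])
    refine ⟨fun p => ?_, fun l => ?_⟩
    · have h := hc.1 p
      change τ.pt (γ.pt p) = p at h
      rw [← hpp (γ.pt p), h]
    · have h := hc.2 l
      change τ.ln (γ.ln l) = l at h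
      rw [← hll (γ.ln l), h]

end UQL
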