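import Pool.Agent.UQL.T
set_option autoImplicit false
set_option linter.all false

namespace UQL

universe u

namespace ZET_

theorem two_self (a : ZMod 2) : a + a = 0 := CharTwo.add_self_eq_zero a

variable {K : Type u} [Field K]

/-- the invariance condition -/
def Inv (ζ : K → K → ZMod 2) (r u : Kˣ) : Prop :=
  ∀ i j : Kˣ, ζ (u * i : Kˣ) (r * j : Kˣ) + ζ (u * i : Kˣ) j + ζ i (r * j : Kˣ) + ζ i j = 0

/-- the subgroup of the invariance condition -/
def A (ζ : K → K → ZMod 2) (r : Kˣ) : Subgroup Kˣ where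
  carrier := {u | Inv ζ r u}
  one_mem' := by
    intro i j
    rw [one_mul]
    have h1 := two_self (ζ i (r * j : Kˣ))
    have h2 := two_self (ζ i j)
    linear_combination h1 + h2
  mul_mem' := by
    intro u v hu hv i j
    have h1 := hu (v * i) j
    have h2 := hv i j
    rw [mul_assoc]
    have h3 := two_self (ζ (v * i : Kˣ) (r * j : Kˣ))
    have h4 := two_self (ζ (v * i : Kˣ) j)
    linear_combination h1 + h2 - h3 - h4
  inv_mem' := by
    intro u hu i j
    have h1 := hu (u⁻¹ * i) j
    rw [mul_inv_cancel_left] at h1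
    linear_combination h1

theorem mem_A (ζ : K → K → ZMod 2) (r u : Kˣ) : u ∈ A ζ r ↔ Inv ζ r u := Iff.rfl

/-- the map `(1 - x) / (1 + x)` -/
noncomputable def t (x : Kˣ) : Kˣ :=
  open Classical in
  if h : (1 - (x : K)) / (1 + x) ≠ 0 then Units.mk0 _ h else 1

theorem units_ne {x y : Kˣ} (h : x ≠ y) : (x : K) ≠ y := fun e => h (Units.ext e)

theorem t_val (x : Kˣ) (h1 : x ≠ 1) (h2 : x ≠ -1) : ((t x : Kˣ) : K) = (1 - (x : K)) / (1 + x) ∧
    (1 - (x : K)) ≠ 0 ∧ (1 + (x : K)) ≠ 0 := by
  have a1 : (1 - (x : K)) ≠ 0 := by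
    intro h
    apply h1
    apply Units.ext
    rw [Units.val_one]
    linear_combination -h
  have a2 : (1 + (x : K)) ≠ 0 := by
    intro h
    apply h2
    apply Units.ext
    rw [Units.val_neg, Units.val_one]
    linear_combination h
  have a3 : (1 - (x : K)) / (1 + x) ≠ 0 := div_ne_zero a1 a2
  refine ⟨?_, a1, a2⟩
  unfold t
  rw [dif_pos a3]
  rfl

end ZET_

open ZET_

theorem p_ZET (h1 : T_CYC.{u}) : T_ZET.{u} := by
  intro K _ _ h2 ζ hev hsq
  have hm1 : (-1 : Kˣ) ≠ 1 := by
    intro h
    have := congrArg (fun x : Kˣ => (x : K)) h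
    simp only [Units.val_neg, Units.val_one] at this
    apply h2
    linear_combination -this
  have hX : ∀ x : Kˣ, x ≠ 1 ∧ x ≠ -1 → t x ≠ 1 ∧ t x ≠ -1 ∧ t (t x) = x ∧ t x ∈ A ζ x := by
    rintro x ⟨hx1, hx2⟩
    obtain ⟨hv, a1, a2⟩ := t_val x hx1 hx2
    have b1 : t x ≠ 1 := by
      intro h
      have e : ((t x : Kˣ) : K) = 1 := by rw [h]; rfl
      rw [hv, div_eq_iff a2] at e
      have : (2 : K) * x = 0 := by linear_combination -e
      rcases mul_eq_zero.1 this with h' | h'
      · exact h2 h'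
      · exact x.ne_zero h'
    have b2 : t x ≠ -1 := by
      intro h
      have e : ((t x : Kˣ) : K) = -1 := by rw [h]; rfl
      rw [hv, div_eq_iff a2] at e
      apply h2
      linear_combination e
    obtain ⟨hv', c1, c2⟩ := t_val (t x) b1 b2
    have b3 : t (t x) = x := by
      apply Units.ext
      rw [hv', div_eq_iff c2, hv]
      field_simp
      ring
    refine ⟨b1, b2, b3, ?_⟩
    rw [mem_A]
    intro i j
    have hi : (i : K) ≠ 0 := i.ne_zero
    have hj : (j : K) ≠ 0 := j.ne_zero
    have d1 : (i : K) ≠ ((t x * i : Kˣ) : K) := by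
      intro h
      rw [Units.val_mul] at h
      apply c1
      have : (1 - ((t x : Kˣ) : K)) * i = 0 := by linear_combination h
      rcases mul_eq_zero.1 this with h' | h'
      · exact h'
      · exact absurd h' hi
    have d2 : (i : K) + ((t x * i : Kˣ) : K) ≠ 0 := by
      intro h
      rw [Units.val_mul] at h
      apply c2
      have : (1 + ((t x : Kˣ) : K)) * i = 0 := by linear_combination h
      rcases mul_eq_zero.1 this with h' | h'
      · exact h'
      · exact absurd h' hi
    have h := hsq i (t x * i : Kˣ) j hi (Units.ne_zero _) hj d1 d2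
    have e : (j : K) * ((i : K) - (t x * i : Kˣ)) / ((i : K) + (t x * i : Kˣ)) = (x * j : Kˣ) := by
      rw [div_eq_iff d2, Units.val_mul, Units.val_mul, hv]
      field_simp
      ring
    rw [e] at h
    linear_combination h
  haveI : Fintype Kˣ := Fintype.ofFinite _
  have hall := h1 Kˣ (A ζ) t {x | x ≠ 1 ∧ x ≠ -1} (-1) ?_ hm1 (by simp) (fun x => Iff.rfl) ?_ ?_
    (fun x hx => ⟨⟨(hX x hx).1, (hX x hx).2.1⟩, (hX x hx).2.2.2⟩) ?_
  · intro i j hi hj
    have h := (Subgroup.eq_top_iff' _).1 (hall (Units.mk0 j hj)) (Units.mk0 i hi)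
    rw [mem_A] at h
    have h' := h 1 1
    simp only [mul_one, Units.val_mk0, Units.val_one] at h'
    have e1 := two_self (ζ i 1)
    have e2 := two_self (ζ 1 j)
    have e3 := two_self (ζ 1 1)
    linear_combination h' - e1 - e2 - e3
  · intro r r' u hu i j
    have a1 := hu.1 i (r' * j)
    have a2 := hu.2 i j
    rw [mul_assoc]
    have e1 := two_self (ζ (u * i : Kˣ) (r' * j : Kˣ))
    have e2 := two_self (ζ i (r' * j : Kˣ))
    linear_combination a1 + a2 - e1 - e2
  · rw [Subgroup.eq_top_iff']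
    intro u i j
    rw [one_mul]
    have e1 := two_self (ζ (u * i : Kˣ) j)
    have e2 := two_self (ζ i j)
    linear_combination e1 + e2
  · rw [Subgroup.eq_top_iff']
    intro u i j
    have e1 := (hev (u * i : Kˣ) j (Units.ne_zero _) (Units.ne_zero _)).2
    have e2 := (hev i j (Units.ne_zero _) (Units.ne_zero _)).2
    have e3 : ((-1 * j : Kˣ) : K) = -(j : K) := by simp
    rw [e3, e1, e2]
    have f1 := two_self (ζ (u * i : Kˣ) j)
    have f2 := two_self (ζ i j)
    linear_combination f1 + f2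
  · intro x hx y hy hxy
    rw [← (hX x hx).2.2.1, ← (hX y hy).2.2.1, hxy]

end UQL
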