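import Pool.Agent.UQL.T
set_option autoImplicit false
set_option linter.all false

/-!
# UQL: final assembly
-/

namespace UQL

open Configuration
open scoped LinearAlgebra.Projectivization

universe u v u' v' w

/-- The plane isomorphism `Ψ` commutes with the homologies `τ, τ'` and induces the isomorphism
`e` of the quotients. -/
def Lifts {P : Type u} {L : Type v} {P' : Type u'} {L' : Type v'}
    [Membership P L] [Membership P' L'] {τ : Coll P L} {τ' : Coll P' L'}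
    (Ψ : PlaneIso P L P' L') (e : QIso τ τ') : Prop :=
  (∀ p, Ψ.pt (τ.pt p) = τ'.pt (Ψ.pt p)) ∧ (∀ l, Ψ.ln (τ.ln l) = τ'.ln (Ψ.ln l)) ∧
  (∀ s : QPt τ, (e.pt s).1 = Ψ.pt '' s.1) ∧ (∀ b : QBl τ, (e.bl b).1 = Ψ.ln '' b.1)

namespace Fin_

variable {K : Type w} [Field K] {P : Type u} {L : Type v} [Membership P L] {τ : Coll P L}

theorem neg_ne {v : K × K} (h2 : (2 : K) ≠ 0) (hv : v ≠ 0) : -v ≠ v := by
  intro h
  apply hv
  have h1 : v.1 = 0 := by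
    have := congrArg Prod.fst h
    simp only [Prod.fst_neg] at this
    have e : 2 * v.1 = 0 := by linear_combination -this
    exact (mul_eq_zero.mp e).resolve_left h2
  have h3 : v.2 = 0 := by
    have := congrArg Prod.snd h
    simp only [Prod.snd_neg] at this
    have e : 2 * v.2 = 0 := by linear_combination -this
    exact (mul_eq_zero.mp e).resolve_left h2
  exact Prod.ext h1 h3

/-- labels of the moved points -/
noncomputable def eP (h2 : (2 : K) ≠ 0) (μ : Model K τ) :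
    {v : K × K // v ≠ 0} ≃ {p : P // τ.pt p ≠ p} :=
  Equiv.ofBijective (fun v => ⟨μ.φ v.1, by
      rw [μ.φ_neg v.1 v.2]
      intro h
      exact neg_ne h2 v.2 (μ.φ_inj _ _ (neg_ne_zero.mpr v.2) v.2 h)⟩)
    ⟨fun v v' h => Subtype.ext (μ.φ_inj _ _ v.2 v'.2 (congrArg Subtype.val h)),
     fun p => by
      obtain ⟨v, hv, h⟩ := μ.φ_surj p.1 p.2
      exact ⟨⟨v, hv⟩, Subtype.ext h⟩⟩

/-- labels of the moved lines -/
noncomputable def eL (h2 : (2 : K) ≠ 0) (μ : Model K τ) :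
    {v : K × K // v ≠ 0} ≃ {l : L // τ.ln l ≠ l} :=
  Equiv.ofBijective (fun v => ⟨μ.ψ v.1, by
      rw [μ.ψ_neg v.1 v.2]
      intro h
      exact neg_ne h2 v.2 (μ.ψ_inj _ _ (neg_ne_zero.mpr v.2) v.2 h)⟩)
    ⟨fun v v' h => Subtype.ext (μ.ψ_inj _ _ v.2 v'.2 (congrArg Subtype.val h)),
     fun p => by
      obtain ⟨v, hv, h⟩ := μ.ψ_surj p.1 p.2
      exact ⟨⟨v, hv⟩, Subtype.ext h⟩⟩

end Fin_

/-- existence of the lift of an isomorphism -/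
theorem exLift {P : Type u} {L : Type v} [Membership P L] [ProjectivePlane P L] [Finite P]
    [Finite L] {P' : Type u'} {L' : Type v'} [Membership P' L'] [ProjectivePlane P' L']
    [Finite P'] [Finite L'] {K : Type w} [Field K] [Fintype K] (h2 : (2 : K) ≠ 0)
    {τ : Coll P L} {τ' : Coll P' L'} (hτ : τ.IsInvHom) (hτ' : τ'.IsInvHom)
    (μ' : Model K τ') (e : QIso τ τ')
    (hFix : T_FIX.{u, v}) (hFix' : T_FIX.{u', v'})
    (hLft : T_LFT.{u, v, u', v', w}) (hExt : T_EXT.{u, v, u', v'}) :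
    ∃ Ψ : PlaneIso P L P' L', Lifts Ψ e := by
  obtain ⟨μ, hμP, hμL⟩ := hLft K h2 P L P' L' τ τ' hτ μ' e
  obtain ⟨a, c, hA⟩ := hFix P L τ hτ
  obtain ⟨a', c', hA'⟩ := hFix' P' L' τ' hτ'
  set F := (Fin_.eP h2 μ).symm.trans (Fin_.eP h2 μ') with hF
  set G := (Fin_.eL h2 μ).symm.trans (Fin_.eL h2 μ') with hG
  have hFv : ∀ v : {v : K × K // v ≠ 0}, (F (Fin_.eP h2 μ v)).1 = μ'.φ v.1 := by
    intro v; simp only [hF, Equiv.trans_apply, Equiv.symm_apply_apply]; rfl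
  have hGv : ∀ v : {v : K × K // v ≠ 0}, (G (Fin_.eL h2 μ v)).1 = μ'.ψ v.1 := by
    intro v; simp only [hG, Equiv.trans_apply, Equiv.symm_apply_apply]; rfl
  have hinc : MovIso τ τ' F G := by
    intro p l
    obtain ⟨v, rfl⟩ := (Fin_.eP h2 μ).surjective p
    obtain ⟨b, rfl⟩ := (Fin_.eL h2 μ).surjective l
    rw [hFv, hGv, μ'.inc _ _ v.2 b.2]
    exact (μ.inc _ _ v.2 b.2).symm
  have hequ : ∀ (p q : {p : P // τ.pt p ≠ p}), q.1 = τ.pt p.1 → (F q).1 = τ'.pt (F p).1 := by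
    intro p q hq
    obtain ⟨v, rfl⟩ := (Fin_.eP h2 μ).surjective p
    have hv : -v.1 ≠ 0 := neg_ne_zero.mpr v.2
    have hq' : q = Fin_.eP h2 μ ⟨-v.1, hv⟩ := by
      apply Subtype.ext
      rw [hq]
      exact μ.φ_neg _ v.2
    rw [hq', hFv, hFv, μ'.φ_neg _ v.2]
  obtain ⟨Ψ, hP, hL, hpt, hln⟩ := hExt P L P' L' τ τ' hτ hτ' F G hinc hequ
  have hPv : ∀ v, v ≠ 0 → Ψ.pt (μ.φ v) = μ'.φ v := by
    intro v hv
    rw [← hFv ⟨v, hv⟩]
    exact hP (Fin_.eP h2 μ ⟨v, hv⟩)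
  have hLv : ∀ v, v ≠ 0 → Ψ.ln (μ.ψ v) = μ'.ψ v := by
    intro v hv
    rw [← hGv ⟨v, hv⟩]
    exact hL (Fin_.eL h2 μ ⟨v, hv⟩)
  refine ⟨Ψ, hpt, hln, ?_, ?_⟩
  · rintro ⟨s, p, hp, rfl⟩
    obtain ⟨v, hv, rfl⟩ := μ.φ_surj p hp
    have h1 : μ'.φ v ∈ (e.pt ⟨{μ.φ v, τ.pt (μ.φ v)}, μ.φ v, hp, rfl⟩).1 :=
      (hμP v hv _).mp (Or.inl rfl)
    obtain ⟨q, hq, hs⟩ := (e.pt ⟨{μ.φ v, τ.pt (μ.φ v)}, μ.φ v, hp, rfl⟩).2
    rw [hs] at h1 ⊢
    rw [Set.image_pair, hpt, hPv v hv]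
    rcases h1 with h1 | h1
    · rw [← h1]
    · have h1' : μ'.φ v = τ'.pt q := h1
      rw [h1', hA'.2.2.2.2.1, Set.pair_comm]
  · rintro ⟨s, p, hp, rfl⟩
    obtain ⟨v, hv, rfl⟩ := μ.ψ_surj p hp
    have h1 : μ'.ψ v ∈ (e.bl ⟨{μ.ψ v, τ.ln (μ.ψ v)}, μ.ψ v, hp, rfl⟩).1 :=
      (hμL v hv _).mp (Or.inl rfl)
    obtain ⟨q, hq, hs⟩ := (e.bl ⟨{μ.ψ v, τ.ln (μ.ψ v)}, μ.ψ v, hp, rfl⟩).2
    rw [hs] at h1 ⊢
    rw [Set.image_pair, hln, hLv v hv]
    rcases h1 with h1 | h1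
    · rw [← h1]
    · have h1' : μ'.ψ v = τ'.ln q := h1
      rw [h1', hA'.2.2.2.2.2, Set.pair_comm]

/-- uniqueness of the lift of an isomorphism up to `τ` -/
theorem unLift {P : Type u} {L : Type v} [Membership P L] [ProjectivePlane P L] [Finite P]
    [Finite L] {P' : Type u'} {L' : Type v'} [Membership P' L']
    {τ : Coll P L} {τ' : Coll P' L'} (hτ : τ.IsInvHom)
    (e : QIso τ τ') (hUni : T_UNI.{u, v}) (hFix : T_FIX.{u, v}) (Ψ Ψ' : PlaneIso P L P' L')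
    (h : Lifts Ψ e) (h' : Lifts Ψ' e) :
    ((∀ p, Ψ'.pt p = Ψ.pt p) ∧ (∀ l, Ψ'.ln l = Ψ.ln l)) ∨
    ((∀ p, Ψ'.pt p = Ψ.pt (τ.pt p)) ∧ (∀ l, Ψ'.ln l = Ψ.ln (τ.ln l))) := by
  obtain ⟨h1, h2, h3, h4⟩ := h
  obtain ⟨g1, g2, g3, g4⟩ := h'
  set γ : Coll P L := ⟨Ψ'.pt.trans Ψ.pt.symm, Ψ'.ln.trans Ψ.ln.symm, by
    intro p l
    simp only [Equiv.trans_apply]
    rw [← Ψ.mem_iff, Equiv.apply_symm_apply, Equiv.apply_symm_apply, Ψ'.mem_iff]⟩ with hγ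
  have k1 : ∀ p, τ.pt p ≠ p → γ.pt p = p ∨ γ.pt p = τ.pt p := by
    intro p hp
    have e1 := h3 ⟨{p, τ.pt p}, p, hp, rfl⟩
    have e2 := g3 ⟨{p, τ.pt p}, p, hp, rfl⟩
    have m : Ψ'.pt p ∈ Ψ.pt '' ({p, τ.pt p} : Set P) := by
      rw [← e1, e2]; exact ⟨p, Or.inl rfl, rfl⟩
    obtain ⟨q, hq, hq'⟩ := m
    have : γ.pt p = q := by
      simp only [hγ, Equiv.trans_apply]
      rw [← hq', Equiv.symm_apply_apply]
    rw [this]
    exact hq
  have k2 : ∀ l, τ.ln l ≠ l → γ.ln l = l ∨ γ.ln l = τ.ln l := by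
    intro p hp
    have e1 := h4 ⟨{p, τ.ln p}, p, hp, rfl⟩
    have e2 := g4 ⟨{p, τ.ln p}, p, hp, rfl⟩
    have m : Ψ'.ln p ∈ Ψ.ln '' ({p, τ.ln p} : Set L) := by
      rw [← e1, e2]; exact ⟨p, Or.inl rfl, rfl⟩
    obtain ⟨q, hq, hq'⟩ := m
    have : γ.ln p = q := by
      simp only [hγ, Equiv.trans_apply]
      rw [← hq', Equiv.symm_apply_apply]
    rw [this]
    exact hq
  rcases hUni P L τ γ hτ k1 k2 with ⟨a1, a2⟩ | ⟨a1, a2⟩
  · left
    refine ⟨fun p => ?_, fun l => ?_⟩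
    · have := a1 p
      simp only [hγ, Equiv.trans_apply] at this
      rw [Equiv.symm_apply_eq] at this
      exact this
    · have := a2 l
      simp only [hγ, Equiv.trans_apply] at this
      rw [Equiv.symm_apply_eq] at this
      exact this
  · right
    refine ⟨fun p => ?_, fun l => ?_⟩
    · have := a1 p
      simp only [hγ, Equiv.trans_apply] at this
      rw [Equiv.symm_apply_eq] at this
      exact this
    · have := a2 l
      simp only [hγ, Equiv.trans_apply] at this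
      rw [Equiv.symm_apply_eq] at this
      exact this

end UQL
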