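import Pool.Agent.UQL.T
set_option autoImplicit false
set_option linter.all false

/-!
# Project UQL, T_EXT: an isomorphism of the moved parts extends to the planes
-/

namespace UQL

open Configuration

universe u v u' v'

namespace EXT_

section
variable {P : Type u} {L : Type v} [Membership P L] [ProjectivePlane P L]

/-- a fixed point of the axis is on a line through the centre iff no moved point is on this line
and on a moved line through the fixed point -/
lemma claim {τ : Coll P L} {a : L} {c : P} (h : AC τ a c) {p : P} {m l : L} (hpa : p ∈ a)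
    (hpm : p ∈ m) (hm : τ.ln m ≠ m) (hcl : c ∈ l) :
    p ∈ l ↔ ∀ q : P, τ.pt q ≠ q → ¬ (q ∈ l ∧ q ∈ m) := by
  obtain ⟨hca, hpt, hln, -, -, -⟩ := h
  have hpf : τ.pt p = p := (hpt p).2 (Or.inr hpa)
  have hlf : τ.ln l = l := (hln l).2 (Or.inr hcl)
  have haf : τ.ln a = a := (hln a).2 (Or.inl rfl)
  have hlm : l ≠ m := by
    rintro rfl
    exact hm hlf
  constructor
  · rintro hpl q hq ⟨hql, hqm⟩
    rcases Nondegenerate.eq_or_eq hpl hql hpm hqm with h1 | h1
    · apply hq
      rw [← h1]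
      exact hpf
    · exact hlm h1
  · intro hno
    obtain ⟨hx1, hx2⟩ := HasPoints.mkPoint_ax (P := P) hlm
    set x : P := HasPoints.mkPoint hlm with hx
    by_cases hxm : τ.pt x = x
    · rcases (hpt x).1 hxm with h1 | h1
      · exfalso
        apply hm
        refine (hln m).2 (Or.inr ?_)
        rw [← h1]
        exact hx2
      · rcases Nondegenerate.eq_or_eq h1 hpa hx2 hpm with h2 | h2
        · rw [← h2]
          exact hx1
        · exfalso
          apply hm
          rw [← h2]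
          exact haf
    · exact absurd ⟨hx1, hx2⟩ (hno x hxm)

lemma mem_tau {τ : Coll P L} {a : L} {c : P} (h : AC τ a c) (q : P) (l : L) :
    q ∈ τ.ln l ↔ τ.pt q ∈ l := by
  have h1 := τ.mem_iff (τ.pt q) l
  rw [h.2.2.2.2.1 q] at h1
  exact h1

lemma pt_moved {τ : Coll P L} {a : L} {c : P} (h : AC τ a c) {q : P} (hq : τ.pt q ≠ q) :
    τ.pt (τ.pt q) ≠ τ.pt q := fun h1 => hq (τ.pt.injective h1)

lemma ln_moved {τ : Coll P L} {a : L} {c : P} (h : AC τ a c) {l : L} (hl : τ.ln l ≠ l) :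
    τ.ln (τ.ln l) ≠ τ.ln l := fun h1 => hl (τ.ln.injective h1)

end

end EXT_

open EXT_ in
theorem p_EXT (h1 : T_FIX.{u, v}) (h1' : T_FIX.{u', v'}) (h2 : T_SEP.{u, v})
    (h2' : T_SEP.{u', v'}) (h3 : T_EXP.{u, v, u', v'}) (h3' : T_EXP.{u', v', u, v}) :
    T_EXT.{u, v, u', v'} := by
  intro P L P' L' _ _ _ _ _ _ _ _ τ τ' hτ hτ' F G hM hF
  obtain ⟨a, c, hA⟩ := h1 P L τ hτ
  obtain ⟨a', c', hA'⟩ := h1' P' L' τ' hτ'
  obtain ⟨s1, s2, s3, s4⟩ := h2 P L τ a c hA
  obtain ⟨s1', s2', s3', s4'⟩ := h2' P' L' τ' a' c' hA'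
  obtain ⟨e1, e2⟩ := h3 P L P' L' τ τ' a c a' c' hA hA' F G hM
  have hM' : MovIso τ' τ F.symm G.symm := by
    intro p l
    have := hM (F.symm p) (G.symm l)
    rw [F.apply_symm_apply, G.apply_symm_apply] at this
    exact this.symm
  obtain ⟨e1', e2'⟩ := h3' P' L' P L τ' τ a' c' a c hA' hA F.symm G.symm hM'
  choose pt pc pa pl using e1
  choose ln la lc lp using e2
  -- uniqueness of the partners
  have uP : ∀ x y : P', (∀ l : {l : L // τ.ln l ≠ l}, x ∈ (G l).1 ↔ y ∈ (G l).1) → x = y := by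
    intro x y hxy
    by_contra hne
    obtain ⟨m, hm, h⟩ := s1' x y hne
    have h5 := hxy (G.symm ⟨m, hm⟩)
    rw [G.apply_symm_apply] at h5
    rcases h with h | h
    · exact h.2 (h5.1 h.1)
    · exact h.2 (h5.2 h.1)
  have uL : ∀ x y : L', (∀ p : {p : P // τ.pt p ≠ p}, (F p).1 ∈ x ↔ (F p).1 ∈ y) → x = y := by
    intro x y hxy
    by_contra hne
    obtain ⟨m, hm, h⟩ := s2' x y hne
    have h5 := hxy (F.symm ⟨m, hm⟩)
    rw [F.apply_symm_apply] at h5
    rcases h with h | h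
    · exact h.2 (h5.1 h.1)
    · exact h.2 (h5.2 h.1)
  have ptM : ∀ p : {p : P // τ.pt p ≠ p}, pt p.1 = (F p).1 := by
    intro p
    apply uP
    intro l
    rw [← pl p.1 l]
    exact (hM p l).symm
  have lnM : ∀ l : {l : L // τ.ln l ≠ l}, ln l.1 = (G l).1 := by
    intro l
    apply uL
    intro p
    rw [← lp l.1 p]
    exact (hM p l).symm
  have injP : Function.Injective pt := by
    intro x y hxy
    by_contra hne
    obtain ⟨m, hm, h⟩ := s1 x y hne
    have h5 := pl x ⟨m, hm⟩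
    have h6 := pl y ⟨m, hm⟩
    rw [hxy] at h5
    rcases h with h | h
    · exact h.2 (h6.2 (h5.1 h.1))
    · exact h.2 (h5.2 (h6.1 h.1))
  have injL : Function.Injective ln := by
    intro x y hxy
    by_contra hne
    obtain ⟨m, hm, h⟩ := s2 x y hne
    have h5 := lp x ⟨m, hm⟩
    have h6 := lp y ⟨m, hm⟩
    rw [hxy] at h5
    rcases h with h | h
    · exact h.2 (h6.2 (h5.1 h.1))
    · exact h.2 (h5.2 (h6.1 h.1))
  have surP : Function.Surjective pt := by
    intro p'
    obtain ⟨p, -, -, h⟩ := e1' p'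
    refine ⟨p, uP _ _ fun l => ?_⟩
    rw [← pl p l]
    have := h (G l)
    rw [G.symm_apply_apply] at this
    exact this.symm
  have surL : Function.Surjective ln := by
    intro l'
    obtain ⟨l, -, -, h⟩ := e2' l'
    refine ⟨l, uL _ _ fun p => ?_⟩
    rw [← lp l p]
    have := h (F p)
    rw [F.symm_apply_apply] at this
    exact this.symm
  have memiff : ∀ p l, pt p ∈ ln l ↔ p ∈ l := by
    intro p l
    by_cases hl : τ.ln l = l
    · by_cases hp : τ.pt p = p
      · rcases (hA.2.1 p).1 hp with h5 | h5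
        · rw [(pc p).1 h5, h5]
          exact (lc l).symm
        · rcases (hA.2.2.1 l).1 hl with h6 | h6
          · rw [(la l).1 h6, h6]
            exact (pa p).symm
          · have hpc : p ≠ c := by
              rintro rfl
              exact hA.1 h5
            obtain ⟨m, hm, hpm⟩ := s3 p hpc
            have k1 := claim hA h5 hpm hm h6
            have hpm' : pt p ∈ (G ⟨m, hm⟩).1 := (pl p ⟨m, hm⟩).1 hpm
            have k2 := claim hA' ((pa p).1 h5) hpm' (G ⟨m, hm⟩).2 ((lc l).1 h6)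
            rw [k1, k2]
            constructor
            · intro hno q hq hh
              refine hno (F ⟨q, hq⟩).1 (F ⟨q, hq⟩).2 ⟨?_, ?_⟩
              · exact (lp l ⟨q, hq⟩).1 hh.1
              · exact (hM ⟨q, hq⟩ ⟨m, hm⟩).2 hh.2
            · intro hno q hq hh
              refine hno (F.symm ⟨q, hq⟩).1 (F.symm ⟨q, hq⟩).2 ⟨?_, ?_⟩
              · rw [lp l (F.symm ⟨q, hq⟩), F.apply_symm_apply]
                exact hh.1
              · rw [← hM (F.symm ⟨q, hq⟩) ⟨m, hm⟩, F.apply_symm_apply]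
                exact hh.2
      · rw [ptM ⟨p, hp⟩]
        exact (lp l ⟨p, hp⟩).symm
    · rw [lnM ⟨l, hl⟩]
      exact (pl p ⟨l, hl⟩).symm
  refine ⟨⟨Equiv.ofBijective pt ⟨injP, surP⟩, Equiv.ofBijective ln ⟨injL, surL⟩,
    fun p l => memiff p l⟩, ptM, lnM, ?_, ?_⟩
  · intro p
    show pt (τ.pt p) = τ'.pt (pt p)
    by_cases hp : τ.pt p = p
    · rw [hp]
      rcases (hA.2.1 p).1 hp with h5 | h5
      · rw [(pc p).1 h5]
        exact ((hA'.2.1 c').2 (Or.inl rfl)).symm
      · exact ((hA'.2.1 (pt p)).2 (Or.inr ((pa p).1 h5))).symm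
    · have hq := pt_moved hA hp
      rw [ptM ⟨p, hp⟩, ptM ⟨τ.pt p, hq⟩]
      exact hF ⟨p, hp⟩ ⟨τ.pt p, hq⟩ rfl
  · intro l
    show ln (τ.ln l) = τ'.ln (ln l)
    by_cases hl : τ.ln l = l
    · rw [hl]
      rcases (hA.2.2.1 l).1 hl with h5 | h5
      · rw [(la l).1 h5]
        exact ((hA'.2.2.1 a').2 (Or.inl rfl)).symm
      · exact ((hA'.2.2.1 (ln l)).2 (Or.inr ((lc l).1 h5))).symm
    · apply uL
      intro q
      have hq := pt_moved hA q.2
      rw [← lp (τ.ln l) q, mem_tau hA, mem_tau hA', ← hF q ⟨τ.pt q.1, hq⟩ rfl,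
        ← lp l ⟨τ.pt q.1, hq⟩]

end UQL
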