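import Pool.Agent.UQL.Defs
set_option autoImplicit false
set_option linter.all false

/-!
# Targets of the project UQL (uniqueness of the lift of PG(2,q)/τ, MP_7e1f1a_co)

All targets are independent; a job proves one target, possibly from the targets named in it.
-/

namespace UQL

open Configuration
open scoped LinearAlgebra.Projectivization

universe u v u' v' w

/-! ## Part A: the cocycle computation (algebra over a finite field of odd characteristic) -/

/-- **Target T_INV**.  In a finite field a proper additive subgroup `M` does not contain the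
inverses of all elements outside `M`.

Proof.  Suppose for all `x ∉ M` (so `x ≠ 0`) that `x⁻¹ ∈ M`.  Then `x ↦ x⁻¹` is injective from the
complement of `M` into `M \ {0}`.  Take `g ∉ M`; `x ↦ g + x` is injective from `M` into the
complement of `M`.  So `|M| ≤ |K \ M| ≤ |M \ {0}| < |M|`, contradiction.  (For instance:
`m ↦ (g + m)⁻¹` is an injective map `M → M`, so surjective because `M` is finite, but `0` is not a
value.) -/
def T_INV : Prop :=
  ∀ (K : Type w) [Field K] [Fintype K] (M : AddSubgroup K), M ≠ ⊤ →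
    ∃ x : K, x ≠ 0 ∧ x ∉ M ∧ x⁻¹ ∉ M

/-- **Target T_FOU** (Fourier analysis in characteristic 2).  For a finite field `K` of odd
characteristic there is a field `E` of characteristic 2 and a primitive additive character `ψ` of
`K` with values in `E` such that a function all of whose nontrivial Fourier coefficients vanish
is constant.

Proof.  Take the primitive character `AddChar.FiniteField.primitiveChar K (ZMod 2) h`
(values in `CyclotomicField n (ZMod 2)`, which has characteristic 2), where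
`h : ringChar (ZMod 2) ≠ ringChar K` because `2 ≠ 0` in `K`.  It is primitive, so for `b ≠ 0` the
character `x ↦ ψ (b * x)` is not trivial.  `AddChar.sum_mulShift`:
`∑ x, ψ (x * b) = if b = 0 then card K else 0`.  Hence
`∑ b, ψ (- (b * z)) * (∑ y, ψ (b * y) * f y) = ∑ y, f y * ∑ b, ψ (b * (y - z)) = card K * f z`.
The left side is the term `b = 0`, that is `∑ y, f y`, for every `z`.  `card K` is odd, so
`(card K : E) = 1` (or: not 0). -/
def T_FOU : Prop :=
  ∀ (K : Type w) [Field K] [Fintype K], (2 : K) ≠ 0 →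
    ∃ (E : Type) (_ : Field E) (_ : CharP E 2) (ψ : AddChar K E),
      (∀ b : K, b ≠ 0 → ∃ x, ψ (b * x) ≠ 1) ∧
      ∀ f : K → E, (∀ b : K, b ≠ 0 → ∑ y, ψ (b * y) * f y = 0) → ∀ z, f z = f 0

/-- **Target T_CST**.  Let `c ≠ 0`, and let `n j : K → ZMod 2` (`j ≠ 0`) be functions such that
`n j` has period `c j`, and for `j ≠ ± j'` the sum `n j + n j'` has period `2 c j j' / (j + j')`.
Then all `n j` are constant.

Proof.  Take `E, ψ` of T_FOU and fix `b ≠ 0`.  For a function `f : K → E` put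
`F f = ∑ y, ψ (b * y) * f y`.  If `f` has period `t` then `F f = ψ (b t) * F f` (substitute
`y + t` for `y`), so `F f = 0` or `ψ (b t) = 1`.  Let `N j = F (n j)` (cast to `E`).  Claim:
`N j = 0` for every `j ≠ 0`.  Let `M = {x | ψ (b c j x) = 1}`, an additive subgroup, not everything
since `b c j ≠ 0`.  If `1 ∉ M` then `N j = 0` by the period `c j`.  Let `1 ∈ M`.  T_INV gives
`x ≠ 0`, `x ∉ M`, `x⁻¹ ∉ M`.  Put `j' = (x - 1) j`.  Then `j' ≠ 0` (`x ≠ 1`, since `1 ∈ M`), `j' ≠ j`
(`x ≠ 2`, since `2 ∈ M`), `j + j' = x j ≠ 0`.  `N j' = 0`, because `ψ (b c j') = ψ (b c j x) / ψ (b c j)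
= ψ (b c j x) ≠ 1`.  The sum `n j + n j'` has the period
`2 c j j' / (j + j') = 2 c j (x - 1) / x = 2 c j (1 - x⁻¹)`, and
`ψ (b * 2 c j (1 - x⁻¹)) = ψ (b c j) ^ 2 / ψ (b c j x⁻¹) ^ 2 = 1 / ψ (b c j x⁻¹) ^ 2 ≠ 1`: if
`ζ = ψ (b c j x⁻¹)` had `ζ ^ 2 = 1` then `ζ = 1` (characteristic 2: `(ζ - 1) ^ 2 = 0`), but
`x⁻¹ ∉ M`.  So `N j + N j' = 0` and `N j = 0`.
By T_FOU the cast of `n j` is constant, and the cast `ZMod 2 → E` is injective
(`ZMod.castHom` into a field of characteristic 2, or compare the values 0 and 1). -/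
def T_CST : Prop :=
  ∀ (K : Type w) [Field K] [Fintype K], (2 : K) ≠ 0 → ∀ (c : K), c ≠ 0 →
    ∀ n : K → K → ZMod 2,
    (∀ j, j ≠ 0 → ∀ y, n j (y + c * j) = n j y) →
    (∀ j j', j ≠ 0 → j' ≠ 0 → j ≠ j' → j + j' ≠ 0 → ∀ y,
      n j (y + 2 * c * j * j' / (j + j')) + n j' (y + 2 * c * j * j' / (j + j')) =
        n j y + n j' y) →
    ∀ j, j ≠ 0 → ∀ y, n j y = n j 0

/-- **Target T_CYC** (cyclic groups).  Let `G` be a finite cyclic group and for every `r ∈ G` let
`A r` be a subgroup of `G`, such that `A r ⊓ A r' ≤ A (r * r')`.  Let `t : G → G` be injective on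
a set `X` of at least `card G - 2` elements, with `t x ∈ X` for `x ∈ X` and `t x ∈ A x` for `x ∈ X`.
Suppose that there are two different elements `1` and `m` outside `X` (`m * m = 1`) with
`A 1 = ⊤` and `A m = ⊤`.  Then `A r = ⊤` for all `r`.

Proof.  Let `n = card G`, let `g` be a generator.  Suppose `A r₁ ≠ ⊤`; let `ℓ` be a prime which
divides the index of `A r₁` (for instance `ℓ = (A r₁).index.minFac`).  Write `n = ℓ ^ k * e` with `ℓ`
not dividing `e` and put `s = g ^ e`, an element of order `ℓ ^ k`.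
(i) `s ∉ A r₁`: otherwise `ℓ ^ k` divides `card (A r₁)`, and the index would be prime to `ℓ`.
(ii) Let `H` be the subgroup of the `ℓ`-th powers, it has index `ℓ` (`ℓ` divides `n`), so
`card H ≤ n / 2`.  If `u ∉ H` then `s` is a power of `u`: `u = g ^ a` with `ℓ` not dividing `a`, so
`gcd a n` divides `e`, and there is `b` with `a b = e` modulo `n`; `s = u ^ b`.
(iii) `B = {r | s ∈ A r}` is closed under multiplication (hypothesis) and contains 1, so it is a
subgroup of the finite group `G`.  `1, m ∈ B`.  If `x ∈ X` and `t x ∉ H` then `t x ∈ A x`, so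
`s ∈ A x` by (ii), `x ∈ B`.
(iv) `t` is a bijection of the finite set `X`, so the number of `x ∈ X` with `t x ∉ H` is the
number of `u ∈ X` with `u ∉ H`; the complement of `X` has at most 2 elements, `1` and `m`, and
`1 ∈ H`, so this number is at least `n - card H - 1`.  Hence
`card B ≥ 2 + (n - card H - 1) ≥ n / 2 + 1`, so `B = ⊤` (a proper subgroup has at most `n / 2`
elements).  So `r₁ ∈ B`, contradiction to (i). -/
def T_CYC : Prop :=
  ∀ (G : Type w) [CommGroup G] [Fintype G] [IsCyclic G] (A : G → Subgroup G) (t : G → G)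
    (X : Set G) (m : G), (∀ r r', A r ⊓ A r' ≤ A (r * r')) → m ≠ 1 → m * m = 1 →
    (∀ x, x ∈ X ↔ x ≠ 1 ∧ x ≠ m) → A 1 = ⊤ → A m = ⊤ →
    (∀ x ∈ X, t x ∈ X ∧ t x ∈ A x) → Set.InjOn t X → ∀ r, A r = ⊤

/-- **Target T_ZET**.  Let `ζ i j` (`i, j ≠ 0`) be even in both variables and
`ζ i j + ζ i j' + ζ i' j + ζ i' j' = 0` for `i ≠ ± i'` and `j' = j (i - i') / (i + i')`.
Then `ζ i j = ζ i 1 + ζ 1 j + ζ 1 1`.

Proof.  Let `G = Kˣ` (cyclic).  For `r ∈ G` let
`A r = {u ∈ G | ∀ i j : G, ζ (u i) (r j) + ζ (u i) j + ζ i (r j) + ζ i j = 0}`.  It is a subgroup (the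
condition says that the function `i ↦ ζ i (r j) + ζ i j` is invariant under `u`, for every `j`).
`A r ⊓ A r' ≤ A (r r')`: for fixed `u` the condition says that `j ↦ ζ (u i) j + ζ i j` is invariant
under `r`.  `A 1 = ⊤`, and `A (-1) = ⊤` since `ζ` is even in `j`.  For `x ≠ 1, -1` put
`t x = (1 - x) / (1 + x)`.  It is not 0, and not `1` or `-1`; `t (t x) = x`, so `t` is injective on
`X = {x ≠ 1, -1}`.  `t x ∈ A x`: the hypothesis with `i' = (t x) i`, `i' ≠ ± i`, and
`(i - i') / (i + i') = (1 - t x) / (1 + t x) = x`.  T_CYC gives `A r = ⊤` for all `r`, and the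
condition with `i = j = 1`, `u = i`, `r = j` is the claim (characteristic 2). -/
def T_ZET : Prop :=
  ∀ (K : Type w) [Field K] [Fintype K], (2 : K) ≠ 0 → ∀ ζ : K → K → ZMod 2,
    (∀ i j, i ≠ 0 → j ≠ 0 → ζ (-i) j = ζ i j ∧ ζ i (-j) = ζ i j) →
    (∀ i i' j, i ≠ 0 → i' ≠ 0 → j ≠ 0 → i ≠ i' → i + i' ≠ 0 →
      ζ i j + ζ i (j * (i - i') / (i + i')) + ζ i' j + ζ i' (j * (i - i') / (i + i')) = 0) →
    ∀ i j, i ≠ 0 → j ≠ 0 → ζ i j = ζ i 1 + ζ 1 j + ζ 1 1

/-- An even cocycle on the flags: `g` is even in both variables, and its sum over every square is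
zero.  (`v, w` are two points on the two blocks `a, b`.) -/
def Coc {K : Type w} [Field K] (g : K × K → K × K → ZMod 2) : Prop :=
  (∀ v a, g (-v) a = g v a ∧ g v (-a) = g v a) ∧
  ∀ v v' a b, dt a v = 1 → dt a v' = 1 → dt b v = 1 → dt b v' = -1 →
    g v a + g v' a + g v b + g v' b = 0

/-- A normalised cocycle: zero on the flags with a fixed point `(x, 0)` or a fixed block
`(0, y)` of the shears. -/
def Nrm {K : Type w} [Field K] (g : K × K → K × K → ZMod 2) : Prop :=
  Coc g ∧ (∀ v a, v.2 = 0 → dt a v = 1 → g v a = 0) ∧ (∀ v a, a.1 = 0 → dt a v = 1 → g v a = 0)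

/-- the flag function -/
def mf {K : Type w} [Field K] (g : K × K → K × K → ZMod 2) (i j y : K) : ZMod 2 :=
  g (y / i, 1 / i) (1 / j, i - y / j)

/-- **Target T_REL** (relations of the flag function of a normalised cocycle).

Proof.  For `i, j ≠ 0` let `v = (y / i, 1 / i)`, `a = (1 / j, i - y / j)`; `dt a v = 1`.
(0) Let `a' = (1 / j, -i - y / j)`, `p = (j, 0)`.  Then `dt a p = 1`, `dt a' p = 1`, `dt a v = 1`,
`dt a' v = -1`; the cocycle relation for the points `p, v` and the blocks `a, a'` and `g p _ = 0`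
give `g v a = g v a'`.  Now `mf g (-i) j y = g (-v) a' = g v a'` and
`mf g i (-j) y = g v (-a') = g v a'`.
(1) Let `b = (0, i)`, `v' = ((y + 2 i j) / i, 1 / i)`, `a₁ = (1/j, i - (y + 2 i j)/j)` (the block of
`mf g i j (y + 2 i j) = g v' a₁`).  Then `dt b v' = 1`, `dt b v = 1`, `dt a₁ v' = 1`, `dt a₁ v = -1`:
`g v' a₁ = g v a₁` by the cocycle relation (with `g _ b = 0`).  And
`-a₁ = (1/(-j), i - y/(-j))`, so `g v a₁ = g v (-a₁) = mf g i (-j) y = mf g i j y` by (0).
(2) Let `j' = j (i - i') / (i + i')`, `y' = y - j (i - i')`, `v' = (y' / i', 1 / i')`,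
`b = (1 / j', i - y / j')`.  `a = (1/j, i' - y'/j)`, so `dt a v' = 1`;
`-b = (1/(-j'), i' - y'/(-j'))` because `y' - y = -j' (i + i')`; so `dt b v' = -1`.  The cocycle
relation for `v, v', a, b` reads
`mf g i j y + mf g i' j y' + mf g i j' y + mf g i' (-j') y' = 0`, and (0). -/
def T_REL : Prop :=
  ∀ (K : Type w) [Field K], (2 : K) ≠ 0 → ∀ g : K × K → K × K → ZMod 2, Nrm g →
    (∀ i j y, i ≠ 0 → j ≠ 0 →
      mf g (-i) j y = mf g i j y ∧ mf g i (-j) y = mf g i j y ∧
      mf g i j (y + 2 * i * j) = mf g i j y) ∧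
    (∀ i i' j y, i ≠ 0 → i' ≠ 0 → j ≠ 0 → i ≠ i' → i + i' ≠ 0 →
      mf g i j y + mf g i (j * (i - i') / (i + i')) y + mf g i' j (y - j * (i - i')) +
        mf g i' (j * (i - i') / (i + i')) (y - j * (i - i')) = 0)

/-- **Target T_NRM** (a normalised cocycle is a sum), from T_REL, T_CST, T_ZET.

Proof.  Let `m i j y = mf g i j y`.
(a) For `i ≠ ± i'`, `j' = j (i - i') / (i + i')`, `δ = j (i - i')` T_REL (2) says
`m i j y + m i j' y = m i' j (y - δ) + m i' j' (y - δ)`.  For `-j` instead of `j` (then `-j'` and `-δ`)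
with T_REL (0): `m i j y + m i j' y = m i' j (y + δ) + m i' j' (y + δ)`.  So
`m i j + m i j'` has period `2 δ` (apply the two equations at `y` and `y + 2 δ`).
(b) Fix `i ≠ 0`.  Given `j ≠ ± j'` put `i' = i (j - j') / (j + j')`: `i' ≠ 0`, `i' ≠ ± i`,
`(i - i') / (i + i') = j' / j`, `2 δ = 2 j (i - i') = 4 i j j' / (j + j')`.  T_CST with `c = 2 i`,
`n j = m i j` gives `m i j y = m i j 0`.
(c) `ζ i j = m i j 0` satisfies T_ZET.  So `m i j y = ζ i 1 + ζ 1 j + ζ 1 1`.
(d) For `dt a v = 1`, `v.2 ≠ 0`, `a.1 ≠ 0` put `i = 1 / v.2`, `j = 1 / a.1`, `y = v.1 / v.2`; then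
`v = (y / i, 1 / i)`, `a = (1 / j, i - y / j)`.  Take `A x = ζ (1/x) 1`, `B x = ζ 1 (1/x) + ζ 1 1`
(for `x ≠ 0`, and `0` for `x = 0`). -/
def T_NRM : Prop :=
  ∀ (K : Type w) [Field K] [Fintype K], (2 : K) ≠ 0 → ∀ g : K × K → K × K → ZMod 2, Nrm g →
    ∃ A B : K → ZMod 2, (∀ x, A (-x) = A x) ∧ (∀ x, B (-x) = B x) ∧
      ∀ v a : K × K, v.2 ≠ 0 → a.1 ≠ 0 → dt a v = 1 → g v a = A v.2 + B a.1

/-- **Target T_COB** (every even cocycle is a coboundary), from T_NRM.

Proof.  Put `α₀ v = if v.2 = 0 then 0 else g v (0, 1 / v.2)` and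
`β₀ a = if a.1 = 0 then 0 else g (1 / a.1, 0) a`.  They are even.
`g₀ v a = g v a + α₀ v + β₀ a` is normalised: it is a cocycle (every `α₀, β₀` occurs twice in a
square); if `v.2 = 0` and `dt a v = 1` then `a.1 ≠ 0` and `v = (1 / a.1, 0)`, so `g₀ v a = 0`; if
`a.1 = 0` and `dt a v = 1` then `v.2 ≠ 0`, `a = (0, 1 / v.2)`.  Take `A, B` of T_NRM for `g₀` and put
`α v = α₀ v + (if v.2 = 0 then B (1 / v.1) else A v.2)`,
`β a = β₀ a + (if a.1 = 0 then A (1 / a.2) else B a.1)`.  For a flag with `v.2 = 0`: `a.1 = 1 / v.1`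
and `g₀ v a = 0 = B (1 / v.1) + B a.1`; for `a.1 = 0`: `a.2 = 1 / v.2`, `g₀ v a = 0 = A v.2 + A (1/a.2)`;
both cannot vanish for a flag. -/
def T_COB : Prop :=
  ∀ (K : Type w) [Field K] [Fintype K], (2 : K) ≠ 0 → ∀ g : K × K → K × K → ZMod 2, Coc g →
    ∃ α β : K × K → ZMod 2, (∀ v, α (-v) = α v) ∧ (∀ a, β (-a) = β a) ∧
      ∀ v a : K × K, dt a v = 1 → g v a = α v + β a

/-! ## Part B: planes -/

/-- The axis `a` and the centre `c` of an involutory homology, with the basic facts. -/
def AC {P : Type u} {L : Type v} [Membership P L] (τ : Coll P L) (a : L) (c : P) : Prop :=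
  c ∉ a ∧ (∀ p : P, τ.pt p = p ↔ p = c ∨ p ∈ a) ∧ (∀ l : L, τ.ln l = l ↔ l = a ∨ c ∈ l) ∧
  (∀ (p : P) (l : L), τ.pt p ≠ p → p ∈ l → τ.pt p ∈ l → τ.ln l = l) ∧
  (∀ p, τ.pt (τ.pt p) = p) ∧ (∀ l, τ.ln (τ.ln l) = l)

/-- **Target T_FIX** (basic facts on involutory homologies).

Proof.  Let `a, c` be as in the definition (`τ` fixes the points of `a` and `c ∉ a`).
(1) `τ (τ l) = l` for lines: take two different points `p, q` on `l` (every line has at least 3
points, `ProjectivePlane.two_lt_pointCount`, or take the points of intersection with two other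
lines); they are on `τ (τ l)` as well (`p = τ τ p`), so the lines are equal
(`Nondegenerate.eq_or_eq`).
(2) `τ a = a`: `a` has two different points, they are fixed, so they are on `τ a`.
A line with two different fixed points is fixed.  A line `l ≠ a` through `c` contains `c` and its
point on `a`, which is different from `c`, so it is fixed.
(3) If `p ≠ c`, `p ∉ a` and `τ p = p` then every line through `p` and every line through `c` is
fixed.  Let `y` be any point.  If `y, p, c` are not collinear then `y` is the intersection of the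
fixed lines `y p` and `y c`, so it is fixed.  If `y` is on the line `p c`, take a point `z` not on
this line (exists: `Nondegenerate.exists_point`); `z` is fixed by the first case.  If `z ∈ a`,
replace `z` by another point: choose `z` not on `p c` and not on `a` (on a line through `c`
different from `p c` there is a third point besides `c` and the point on `a`; all lines have at
least 3 points).  All points off
the line `z c`, in particular all points of `p c` except `c`, are fixed by the first case for `z`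
in the place of `p`, and `c` is fixed.  So `τ` fixes all points, contradiction.  Hence the fixed
points are `c` and the points of `a`.
(4) If `τ l = l`, `l ≠ a`: take a point `y ∈ l`, `y ∉ a`.  If `y = c` done.  Otherwise `y` is moved
(3), `τ y ∈ l`, and the line `c y` is fixed, so it contains `τ y`; the lines `l` and `c y` have the
two different points `y, τ y` in common, so `l = c y ∋ c`.
(5) If `p, τ p ∈ l`, `p` moved, then `τ l` contains `τ p` and `τ (τ p) = p`, so `τ l = l`. -/
def T_FIX : Prop :=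
  ∀ (P : Type u) (L : Type v) [Membership P L] [ProjectivePlane P L] [Finite P] [Finite L]
    (τ : Coll P L), τ.IsInvHom → ∃ (a : L) (c : P), AC τ a c

/-- The bijections `F, G` between the moved points and the moved lines of two planes preserve
incidence. -/
def MovIso {P : Type u} {L : Type v} {P' : Type u'} {L' : Type v'}
    [Membership P L] [Membership P' L'] (τ : Coll P L) (τ' : Coll P' L')
    (F : {p : P // τ.pt p ≠ p} ≃ {p : P' // τ'.pt p ≠ p})
    (G : {l : L // τ.ln l ≠ l} ≃ {l : L' // τ'.ln l ≠ l}) : Prop :=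
  ∀ p l, (F p).1 ∈ (G l).1 ↔ p.1 ∈ l.1

/-- **Target T_SEP** (points and lines are determined by the moved lines through them, the
moved points on them).

Proof.  Let `a, c` be axis and centre (hypothesis).  (1) Let `p ≠ q`.  Exchange them if
necessary so that `p ≠ c`.  There are at least 3 lines through `p`
(`ProjectivePlane.two_lt_lineCount`); a fixed line through `p` is the axis (if `p ∈ a`) or the
line `p c`; a moved line through `p` which does not contain `q`: the lines through `p` which are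
fixed or contain `q` are among `a` (if `p ∈ a`), `p c`, `p q`.  If `p ∉ a` only the two lines `p c`
and `p q` are excluded and there is a third line.  If `p ∈ a` and `q ∈ a` then `p q = a` and again
only two lines are excluded.  If `p ∈ a`, `q ∉ a`: if `q = c` then `p q = p c`, two lines are
excluded.  If `q ∉ a`, `q ≠ c`: exchange the roles: two lines through `q` are excluded,
`q c` and `q p`.
(2) The dual statement for lines, with the same proof. -/
def T_SEP : Prop :=
  ∀ (P : Type u) (L : Type v) [Membership P L] [ProjectivePlane P L] [Finite P] [Finite L]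
    (τ : Coll P L) (a : L) (c : P), AC τ a c →
    (∀ p q : P, p ≠ q → ∃ l : L, τ.ln l ≠ l ∧ ((p ∈ l ∧ q ∉ l) ∨ (q ∈ l ∧ p ∉ l))) ∧
    (∀ l m : L, l ≠ m → ∃ p : P, τ.pt p ≠ p ∧ ((p ∈ l ∧ p ∉ m) ∨ (p ∈ m ∧ p ∉ l))) ∧
    (∀ p : P, p ≠ c → ∃ l : L, τ.ln l ≠ l ∧ p ∈ l) ∧
    (∀ l : L, l ≠ a → ∃ p : P, τ.pt p ≠ p ∧ p ∈ l)

/-- **Target T_EXP** (partner of a point), from T_SEP.  For every point `p` of the first plane
there is a point `p'` of the second plane such that a moved line `l` contains `p` iff its image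
contains `p'`; the centre belongs to the centre and points of the axis belong to points of the
axis; and the same for lines.

Proof.  Points: if `p` is moved take `p' = F p`.  If `p = c` take `p' = c'`: moved lines do not
contain the centre (AC).  If `p ∈ a` choose a moved line `l₀` through `p` (T_SEP (3)) and let `p'`
be the intersection of `a'` and `G l₀` (`a' ≠ G l₀` since `a'` is fixed).  Let `l` be a moved line,
`l ≠ l₀`.  If `p ∈ l` then `l` and `l₀` have no other point in common, so no moved point is on both,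
so no moved point is on `G l` and `G l₀` (F, G bijections); their intersection is a fixed point, not
`c'` (AC), so it is on `a'`, so it is `p'`.  Hence `p' ∈ G l`.  Conversely if `p' ∈ G l` then
`G l, G l₀` meet in the fixed point `p'`, so `l, l₀` have no moved point in common, their
intersection is a fixed point different from `c`, so on `a`, so it is `p`.
Lines: if `l` is moved take `G l`; if `l = a` take `a'`: no moved point is on `a` or `a'`.  If
`c ∈ l` choose a moved point `p₀ ∈ l` (T_SEP (4)) and let `l'` be the line through `c'` and `F p₀`.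
For a moved point `p ≠ p₀`: if `p ∈ l` then no moved line contains both `p, p₀` (the line is `l`,
it is fixed), so no moved line contains `F p, F p₀`; the line through them is fixed and not `a'`, so
it contains `c'`, so it is `l'`.  Conversely the same with the roles exchanged. -/
def T_EXP : Prop :=
  ∀ (P : Type u) (L : Type v) (P' : Type u') (L' : Type v') [Membership P L]
    [ProjectivePlane P L] [Membership P' L'] [ProjectivePlane P' L'] [Finite P] [Finite L]
    [Finite P'] [Finite L'] (τ : Coll P L) (τ' : Coll P' L') (a : L) (c : P) (a' : L')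
    (c' : P'), AC τ a c → AC τ' a' c' →
    ∀ (F : {p : P // τ.pt p ≠ p} ≃ {p : P' // τ'.pt p ≠ p})
      (G : {l : L // τ.ln l ≠ l} ≃ {l : L' // τ'.ln l ≠ l}), MovIso τ τ' F G →
    (∀ p : P, ∃ p' : P', (p = c ↔ p' = c') ∧ (p ∈ a ↔ p' ∈ a') ∧
      (∀ l : {l : L // τ.ln l ≠ l}, p ∈ l.1 ↔ p' ∈ (G l).1)) ∧
    (∀ l : L, ∃ l' : L', (l = a ↔ l' = a') ∧ (c ∈ l ↔ c' ∈ l') ∧
      (∀ p : {p : P // τ.pt p ≠ p}, p.1 ∈ l ↔ (F p).1 ∈ l'))

/-- **Target T_EXT** (an isomorphism of the moved parts extends to the planes), from T_EXP,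
T_SEP.

Proof.  By T_SEP the partner `p'` of `p` in T_EXP is unique.  Let `pt p` be this partner; apply
T_EXP also to `F.symm, G.symm` to get the inverse map (`p'` is the partner of `p` iff `p` is the
partner of `p'`; use the uniqueness on both sides).  The same for lines: `ln l`.  For a moved point
`pt p = F p` and for a moved line `ln l = G l` by uniqueness (for a moved `p` the point `F p` has
the same moved lines).
Incidence `p ∈ l ↔ pt p ∈ ln l`: if `l` is moved, this is the property of the partner; the same if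
`p` is moved.  If both are fixed (AC): `p = c`: then `pt p = c'`, and `c ∈ l ↔ c' ∈ ln l` by the
property of `ln l`.  `p ∈ a`, `l = a`: both incident.  `p ∈ a`, `c ∈ l`, (`p ≠ c`, `l ≠ a`): take
a moved line `m` through `p` (T_SEP).  `p ∈ l` iff no moved point is on `l` and on `m` (if `p ∈ l`
then `l, m` meet only in the fixed point `p`; if `p ∉ l`, the intersection of `l` and `m` is not
`c`, because `m` is moved, and not on `a`, because `m` meets `a` only in `p`; so it is moved).
The same in the second plane for `pt p`, `ln l`, `G m`, and the images correspond.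
Equivariance: by hypothesis on moved points; for a fixed point `p`: `pt p` is fixed by AC and the
first two properties of T_EXP.  Lines: for a moved line `l`, `τ' (G l)` and `G (τ l)` contain the
same moved points (`F q ∈ τ' (G l)` iff `τ' (F q) = F (τ q) ∈ G l` iff `τ q ∈ l` iff `q ∈ τ l`), so
they are equal (T_SEP); fixed lines go to fixed lines. -/
def T_EXT : Prop :=
  ∀ (P : Type u) (L : Type v) (P' : Type u') (L' : Type v') [Membership P L]
    [ProjectivePlane P L] [Membership P' L'] [ProjectivePlane P' L'] [Finite P] [Finite L]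
    [Finite P'] [Finite L'] (τ : Coll P L) (τ' : Coll P' L'), τ.IsInvHom → τ'.IsInvHom →
    ∀ (F : {p : P // τ.pt p ≠ p} ≃ {p : P' // τ'.pt p ≠ p})
      (G : {l : L // τ.ln l ≠ l} ≃ {l : L' // τ'.ln l ≠ l}), MovIso τ τ' F G →
    (∀ (p q : {p : P // τ.pt p ≠ p}), q.1 = τ.pt p.1 → (F q).1 = τ'.pt (F p).1) →
    ∃ Ψ : PlaneIso P L P' L', (∀ p : {p : P // τ.pt p ≠ p}, Ψ.pt p.1 = (F p).1) ∧
      (∀ l : {l : L // τ.ln l ≠ l}, Ψ.ln l.1 = (G l).1) ∧
      (∀ p, Ψ.pt (τ.pt p) = τ'.pt (Ψ.pt p)) ∧ (∀ l, Ψ.ln (τ.ln l) = τ'.ln (Ψ.ln l))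

/-- **Target T_UNI** (collineations which induce the identity on the quotient), from T_FIX,
T_SEP.

Proof.  Let `a, c` be axis and centre.  Suppose first that `γ` fixes some moved point `p`.  For a
moved line `l` through `p` we have `γ l ∈ {l, τ l}` and `p = γ p ∈ γ l`, but `p ∉ τ l` (otherwise
`τ p ∈ l`, and then `l` is fixed by AC).  So `γ l = l`.  Likewise `γ` fixes every moved point on a
line which is moved and fixed by `γ`.  If `q` is a moved point not on the line `p c`, then the line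
`p q` is moved (it is not `a`, and `c` is not on it), so `γ` fixes it and also `q`.  If `q` is a moved
point on `p c`, take a moved point `r` off the line `p c` (exists: a point on `q l'`, `l'` a line
through `q` different from `q c`; or T_SEP (2) for suitable lines); `γ r = r` and then `γ q = q`.
So `γ` fixes all moved points, hence all lines (two different lines are separated by moved points,
T_SEP (2)), hence all points (two lines through it).  If `γ` fixes no moved point then for the
moved points `γ p = τ p`, and `τ ∘ γ` is a collineation which fixes all moved points and satisfies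
the hypotheses; by the first case `τ (γ x) = x` for all points and lines, so `γ x = τ x`. -/
def T_UNI : Prop :=
  ∀ (P : Type u) (L : Type v) [Membership P L] [ProjectivePlane P L] [Finite P] [Finite L]
    (τ γ : Coll P L), τ.IsInvHom → (∀ p, τ.pt p ≠ p → γ.pt p = p ∨ γ.pt p = τ.pt p) →
    (∀ l, τ.ln l ≠ l → γ.ln l = l ∨ γ.ln l = τ.ln l) →
    ((∀ p, γ.pt p = p) ∧ (∀ l, γ.ln l = l)) ∨ ((∀ p, γ.pt p = τ.pt p) ∧ (∀ l, γ.ln l = τ.ln l))

/-- **Target T_LFT** (coordinates for the lift), from T_COB, T_FIX.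

Proof.  Let `μ'` be the given coordinates `φ', ψ'` of the second plane.  Choose a set `pos` of
vectors with: for `v ≠ 0` exactly one of `v, -v` is in `pos` (for instance take any linear order on
`K × K` and `pos = {v | v < -v}`; `v ≠ -v` because `2 ≠ 0`).  For `v ≠ 0` the orbit
`{φ' v, φ' (-v)}` is an element of `QPt τ'`, its inverse image under `e.pt` is an orbit
`{p, τ p}`; choose a point `p v` in it, the same choice for `v` and `-v` is not needed: put
`φ v = p v` if `v ∈ pos` and `φ v = τ (p (-v))` if `-v ∈ pos`.  Then `φ (-v) = τ (φ v)`, `φ v` is moved,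
and the orbit of `φ v` corresponds to the orbit of `φ' v`.  In the same way `ψ`.
Incidence: for `v, a ≠ 0` (QIso) `dt a v = 1 ∨ dt a v = -1` iff `φ' v` or `φ' (-v)` is on `ψ' a` or
`ψ' (-a)` iff `φ v ∈ ψ a ∨ φ (-v) ∈ ψ a` (use that `τ` preserves incidence).  Not both `φ v ∈ ψ a` and
`φ (-v) ∈ ψ a`: otherwise `ψ a` is fixed (AC (4)).
Let `g v a = 0` if neither `dt a v = 1` nor `dt a v = -1` (or `v` or `a` is 0); if `dt a v = 1` let
`g v a = (if φ v ∈ ψ a then 0 else 1)`, and if `dt a v = -1` let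
`g v a = (if φ v ∈ ψ a then 1 else 0)`.  It is even.  Cocycle relation: let `dt a v = dt a v' = dt b v
= 1`, `dt b v' = -1`; then `v ≠ ± v'`, `a ≠ ± b`.  Let `ε(v, a) = 0` if `φ v ∈ ψ a`, `1` if
`φ (-v) ∈ ψ a`.  We need `ε(v,a) + ε(v',a) + ε(v,b) + ε(v',b) = 1`.  If the sum were 0 then
`φ v` and `φ (s v')` are both on `ψ (t a)` and on `ψ (t' b)`, where
`s = (-1)^(ε(v,a) + ε(v',a))`, `t = (-1)^ε(v,a)`, `t' = (-1)^ε(v,b)`; these are two different points
and two different lines: contradiction (`Nondegenerate.eq_or_eq`).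
T_COB gives `α, β` with `g v a = α v + β a` for `dt a v = 1`.  New coordinates:
`Φ v = φ v` if `α v = 0` and `Φ v = φ (-v)` if `α v = 1`, `Ψ a = ψ a` if `β a = 0` and `ψ (-a)` if
`β a = 1`.  Then `Φ v ∈ Ψ a ↔ dt a v = 1` (check the four cases), and all other conditions are
clear. -/
def T_LFT : Prop :=
  ∀ (K : Type w) [Field K] [Fintype K], (2 : K) ≠ 0 →
    ∀ (P : Type u) (L : Type v) (P' : Type u') (L' : Type v') [Membership P L]
    [ProjectivePlane P L] [Finite P] [Finite L] [Membership P' L'] (τ : Coll P L)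
    (τ' : Coll P' L'), τ.IsInvHom →
    ∀ (μ' : Model K τ') (e : QIso τ τ'), ∃ μ : Model K τ,
      (∀ v, v ≠ 0 → ∀ s : QPt τ, μ.φ v ∈ s.1 ↔ μ'.φ v ∈ (e.pt s).1) ∧
      (∀ a, a ≠ 0 → ∀ b : QBl τ, μ.ψ a ∈ b.1 ↔ μ'.ψ a ∈ (e.bl b).1)

/-- **Target T_BAS** (dual bases).  Let `C, A` be vectors of `K^3` with `A ⬝ᵥ C = 1`.  There are
`u₁, u₂, k₁, k₂` such that `(C, u₁, u₂)` and `(A, k₁, k₂)` are dual bases.

Proof.  The kernel of `x ↦ A ⬝ᵥ x` has dimension 2, let `u₁, u₂` be a basis; `C` is not in the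
kernel, so `C, u₁, u₂` is a basis of `K^3` and the matrix `N` with these columns is invertible; the
rows of `N⁻¹` are `r₀, k₁, k₂`; `r₀ = A` since both have the same products with the columns.
`N⁻¹ N = 1` gives the products and `N N⁻¹ = 1` gives the expansion of `x`.  (Or with explicit
formulas: some coordinate of `A` is not zero; with cross products
`k₁ = (u₂ × C) / d`, `k₂ = (C × u₁) / d`, `A = (u₁ × u₂) / d`.) -/
def T_BAS : Prop :=
  ∀ (K : Type w) [Field K] (A C : Fin 3 → K), A ⬝ᵥ C = 1 →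
    ∃ u₁ u₂ k₁ k₂ : Fin 3 → K, A ⬝ᵥ u₁ = 0 ∧ A ⬝ᵥ u₂ = 0 ∧ k₁ ⬝ᵥ C = 0 ∧ k₂ ⬝ᵥ C = 0 ∧
      k₁ ⬝ᵥ u₁ = 1 ∧ k₁ ⬝ᵥ u₂ = 0 ∧ k₂ ⬝ᵥ u₁ = 0 ∧ k₂ ⬝ᵥ u₂ = 1 ∧
      (∀ x, x = (A ⬝ᵥ x) • C + (k₁ ⬝ᵥ x) • u₁ + (k₂ ⬝ᵥ x) • u₂) ∧
      (∀ x, x = (x ⬝ᵥ C) • A + (x ⬝ᵥ u₁) • k₁ + (x ⬝ᵥ u₂) • k₂)

/-- **Target T_ACT** (an involutory homology of PG(2,K) is `-1` in suitable coordinates).
Let `A, C, u₁, u₂, k₁, k₂` be dual bases as in T_BAS and let `τ` be an involutory homology of
PG(2,K) with centre `[C]` and axis `[A]` (all points `[x]` with `A ⬝ᵥ x = 0` are fixed).  Then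
`τ [C + x₁ u₁ + x₂ u₂] = [C - x₁ u₁ - x₂ u₂]`.

Proof.  Write `v = x₁ u₁ + x₂ u₂ ≠ 0`.  The line through `[C]` and `[v]` has two fixed points, it
contains `[C + v]`, so `τ [C + v]` is on it; it is not `[v]` (fixed, `τ` is injective), so
`τ [C + v] = [C + λ v]`, `λ = λ(v) ∈ K`, `λ ≠ 0` (it is not `[C]`).  If `v, v'` are linearly
independent then the line through `[C + v]`, `[C + v']` contains the fixed point `[v - v']`; the
image line contains `[C + λ(v) v]`, `[C + λ(v') v']` and `[v - v']`, so `λ(v) v - λ(v') v'` is a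
multiple of `v - v'` (both are in the kernel of `A`, which meets the 2-dimensional space of the
line in dimension 1) and `λ(v) = λ(v')`.  If `v, v'` are dependent compare both with a vector
independent of them.  So `λ` is constant on all `v ≠ 0`.  `τ τ = 1` gives `λ² = 1`; if `λ = 1` then
`τ` fixes all points; so `λ = -1`.  (All points: `[x]` with `A ⬝ᵥ x = 0` are fixed, the others are
`[C + v]`, and `[C]` is fixed.) -/
def T_ACT : Prop :=
  ∀ (K : Type w) [Field K] (A C u₁ u₂ k₁ k₂ : Fin 3 → K), (2 : K) ≠ 0 → A ⬝ᵥ C = 1 →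
    A ⬝ᵥ u₁ = 0 → A ⬝ᵥ u₂ = 0 → k₁ ⬝ᵥ C = 0 → k₂ ⬝ᵥ C = 0 →
    k₁ ⬝ᵥ u₁ = 1 → k₁ ⬝ᵥ u₂ = 0 → k₂ ⬝ᵥ u₁ = 0 → k₂ ⬝ᵥ u₂ = 1 →
    (∀ x, x = (A ⬝ᵥ x) • C + (k₁ ⬝ᵥ x) • u₁ + (k₂ ⬝ᵥ x) • u₂) →
    ∀ (τ : Coll (ℙ K (Fin 3 → K)) (ℙ K (Fin 3 → K))), (∀ p, τ.pt (τ.pt p) = p) →
    (∃ p, τ.pt p ≠ p) → (∀ x (hx : x ≠ 0), A ⬝ᵥ x = 0 →
      τ.pt (Projectivization.mk K x hx) = Projectivization.mk K x hx) →
    (∀ hC : C ≠ 0, τ.pt (Projectivization.mk K C hC) = Projectivization.mk K C hC) →
    ∀ (x₁ x₂ : K) (h : C + x₁ • u₁ + x₂ • u₂ ≠ 0) (h' : C - x₁ • u₁ - x₂ • u₂ ≠ 0),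
      τ.pt (Projectivization.mk K (C + x₁ • u₁ + x₂ • u₂) h) =
        Projectivization.mk K (C - x₁ • u₁ - x₂ • u₂) h'

/-- **Target T_MOD** (coordinates for PG(2,K) with an involutory homology), from T_BAS, T_ACT.

Proof.  Let `[A]` be the axis and `[C]` the centre; `[C]` is not on `[A]`, so we may scale `A` so
that `A ⬝ᵥ C = 1`; the points of the axis are the `[x]` with `A ⬝ᵥ x = 0` (Mathlib: `p ∈ l` iff the
representatives are orthogonal, `Configuration.ofField.mem_iff`, `Projectivization.orthogonal_mk`).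
Take the dual bases of T_BAS and put
`φ v = [C + v.1 u₁ + v.2 u₂]`, `ψ a = [-A + a.1 k₁ + a.2 k₂]`.
Then `φ v ∈ ψ a` iff `-1 + a.1 v.1 + a.2 v.2 = 0`.  `τ (φ v) = φ (-v)` by T_ACT.  Injectivity: a
scalar relation between `C + v.1 u₁ + v.2 u₂` and `C + v'.1 u₁ + v'.2 u₂` has factor 1 (product with
`A`), then take the products with `k₁, k₂`.  Surjectivity: a moved point `[x]` has `A ⬝ᵥ x ≠ 0`
(otherwise it is on the axis); scale to `A ⬝ᵥ x = 1`, then `x = C + (k₁ ⬝ᵥ x) u₁ + (k₂ ⬝ᵥ x) u₂`, and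
`(k₁ ⬝ᵥ x, k₂ ⬝ᵥ x) ≠ 0`, otherwise the point is the centre.
Lines: `τ (ψ a) = ψ (-a)` for `a ≠ 0`: the points `φ v` with `dt a v = 1` are on `ψ a`, so their
images `φ (-v)` are on `τ (ψ a)` and also on `ψ (-a)`; there are two different such points (the
solutions of `dt a v = 1`), so the lines are equal.  A moved line `[l]`: `l ⬝ᵥ C ≠ 0` (otherwise it
contains the centre and is fixed: it contains the two fixed points `[C]` and its point on the
axis), scale to `l ⬝ᵥ C = -1`, then `l = -A + (l ⬝ᵥ u₁) k₁ + (l ⬝ᵥ u₂) k₂`, and the coefficients are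
not both 0, since the axis is fixed. -/
def T_MOD : Prop :=
  ∀ (K : Type w) [Field K] [DecidableEq K], (2 : K) ≠ 0 →
    ∀ (τ : Coll (ℙ K (Fin 3 → K)) (ℙ K (Fin 3 → K))), τ.IsInvHom → Nonempty (Model K τ)

end UQL
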